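import Mathlib

set_option autoImplicit false

/-! Mertens' third theorem with an error term in terms of the Chebyshev function. -/

namespace Pool.Agent.U334.RN

open Real Finset MeasureTheory Filter Topology Chebyshev

/-- the kernel `(1 + log t) / (t log t)^2` -/
noncomputable def ka (t : ℝ) : ℝ := (1 + Real.log t) / (t * Real.log t) ^ 2

/-- the sum of `-log (1 - 1/p)` over the primes up to `k` -/
noncomputable def LL (k : ℕ) : ℝ := ∑ p ∈ Nat.primesLE k, -Real.log (1 - (p : ℝ)⁻¹)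

lemma sum_c_eq (t : ℝ) : ∑ k ∈ Icc 0 ⌊t⌋₊, (if k.Prime then Real.log k else 0) = theta t := by
  rw [theta_eq_sum_Icc, sum_filter]

lemma hasDerivAt_f {t : ℝ} (ht : 1 < t) :
    HasDerivAt (fun t : ℝ => (t * Real.log t)⁻¹) (-ka t) t := by
  have h0 : t ≠ 0 := by linarith
  have hl : Real.log t ≠ 0 := (Real.log_pos ht).ne'
  have h := ((hasDerivAt_id t).mul (Real.hasDerivAt_log h0)).inv (mul_ne_zero h0 hl)
  refine h.congr_deriv ?_
  simp only [ka, id, Pi.mul_apply]
  field_simp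
  ring

lemma ka_cont {t : ℝ} (ht : 1 < t) : ContinuousAt ka t := by
  have h0 : t ≠ 0 := by linarith
  have hl : Real.log t ≠ 0 := (Real.log_pos ht).ne'
  unfold ka
  refine ContinuousAt.div ?_ ?_ (pow_ne_zero 2 (mul_ne_zero h0 hl))
  · exact continuousAt_const.add (Real.continuousAt_log h0)
  · exact (continuousAt_id.mul (Real.continuousAt_log h0)).pow 2

lemma ka_contOn {y z : ℝ} (hy : 1 < y) : ContinuousOn ka (Set.Icc y z) := fun t ht =>
  (ka_cont (lt_of_lt_of_le hy ht.1)).continuousWithinAt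

lemma ka_nonneg {t : ℝ} (ht : 1 ≤ t) : 0 ≤ ka t := by
  unfold ka
  have := Real.log_nonneg ht
  positivity

/-- Abel summation -/
lemma abel_fin {y z : ℝ} (hy : 2 ≤ y) (hyz : y ≤ z) :
    ∑ p ∈ Ioc ⌊y⌋₊ ⌊z⌋₊ with p.Prime, (p : ℝ)⁻¹ =
      (z * Real.log z)⁻¹ * theta z - (y * Real.log y)⁻¹ * theta y +
        ∫ t in y..z, ka t * theta t := by
  have h1 := sum_mul_eq_sub_sub_integral_mul (𝕜 := ℝ)
    (c := fun k : ℕ => if k.Prime then Real.log k else 0) (f := fun t : ℝ => (t * Real.log t)⁻¹)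
    (a := y) (b := z) (by linarith) hyz
    (fun t ht => (hasDerivAt_f (by linarith [ht.1])).differentiableAt)
    (by
      refine IntegrableOn.congr_fun (f := fun t => -ka t) ?_ (fun t ht => ?_) measurableSet_Icc
      · exact ((ka_contOn (by linarith)).neg).integrableOn_Icc
      · exact ((hasDerivAt_f (by linarith [ht.1])).deriv).symm)
  simp only [sum_c_eq] at h1
  have h2 : ∑ p ∈ Ioc ⌊y⌋₊ ⌊z⌋₊ with p.Prime, (p : ℝ)⁻¹ =
      ∑ k ∈ Ioc ⌊y⌋₊ ⌊z⌋₊, ((k : ℝ) * Real.log k)⁻¹ * (if k.Prime then Real.log k else 0) := by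
    rw [sum_filter]
    refine sum_congr rfl fun k hk => ?_
    split_ifs with hp
    · have hl : Real.log k ≠ 0 := (Real.log_pos (by exact_mod_cast hp.one_lt)).ne'
      have hk0 : (k : ℝ) ≠ 0 := by exact_mod_cast hp.ne_zero
      field_simp
    · simp
  rw [h2, h1, intervalIntegral.integral_of_le hyz]
  have h3 : ∫ t in Set.Ioc y z, deriv (fun t : ℝ => (t * Real.log t)⁻¹) t * theta t =
      - ∫ t in Set.Ioc y z, ka t * theta t := by
    rw [← integral_neg]
    refine setIntegral_congr_fun measurableSet_Ioc fun t ht => ?_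
    rw [(hasDerivAt_f (by linarith [ht.1])).deriv]
    ring
  rw [h3]
  ring

lemma int_ka_id {y z : ℝ} (hy : 1 < y) (hyz : y ≤ z) :
    ∫ t in y..z, ka t * t = (Real.log (Real.log z) - (Real.log z)⁻¹) -
      (Real.log (Real.log y) - (Real.log y)⁻¹) := by
  refine intervalIntegral.integral_eq_sub_of_hasDerivAt
    (f := fun t => Real.log (Real.log t) - (Real.log t)⁻¹) (fun t ht => ?_) ?_
  · rw [Set.uIcc_of_le hyz] at ht
    have h1 : 1 < t := lt_of_lt_of_le hy ht.1
    have h0 : t ≠ 0 := by linarith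
    have hl : Real.log t ≠ 0 := (Real.log_pos h1).ne'
    have h := ((Real.hasDerivAt_log h0).log hl).sub ((Real.hasDerivAt_log h0).inv hl)
    refine h.congr_deriv ?_
    simp only [ka]
    field_simp
    ring
  · refine ContinuousOn.intervalIntegrable ?_
    rw [Set.uIcc_of_le hyz]
    exact (ka_contOn hy).mul continuousOn_id

lemma theta_meas : Measurable theta := theta_mono.measurable

lemma ka_theta_int {y z : ℝ} (hy : 1 < y) (hyz : y ≤ z) :
    IntervalIntegrable (fun t => ka t * theta t) volume y z := by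
  refine (theta_mono.intervalIntegrable).continuousOn_mul ?_
  rw [Set.uIcc_of_le hyz]
  exact ka_contOn hy

lemma ka_id_int {y z : ℝ} (hy : 1 < y) (hyz : y ≤ z) :
    IntervalIntegrable (fun t => ka t * t) volume y z := by
  refine ContinuousOn.intervalIntegrable ?_
  rw [Set.uIcc_of_le hyz]
  exact (ka_contOn hy).mul continuousOn_id

/-- the integrand of the remainder -/
noncomputable def gg (t : ℝ) : ℝ := (t - theta t) * ka t

lemma gg_int {y z : ℝ} (hy : 1 < y) (hyz : y ≤ z) : IntervalIntegrable gg volume y z := by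
  have := (ka_id_int hy hyz).sub (ka_theta_int hy hyz)
  refine this.congr fun t _ => ?_
  simp only [gg]
  ring

lemma prime_sum_eq {y z : ℝ} (hy : 2 ≤ y) (hyz : y ≤ z) :
    ∑ p ∈ Ioc ⌊y⌋₊ ⌊z⌋₊ with p.Prime, (p : ℝ)⁻¹ =
      Real.log (Real.log z) - Real.log (Real.log y) + (z * Real.log z)⁻¹ * (theta z - z)
        - (y * Real.log y)⁻¹ * (theta y - y) - ∫ t in y..z, gg t := by
  rw [abel_fin hy hyz]
  have h1 : ∫ t in y..z, gg t = (∫ t in y..z, ka t * t) - ∫ t in y..z, ka t * theta t := by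
    rw [← intervalIntegral.integral_sub (ka_id_int (by linarith) hyz)
      (ka_theta_int (by linarith) hyz)]
    refine intervalIntegral.integral_congr fun t _ => ?_
    simp only [gg]
    ring
  rw [h1, int_ka_id (by linarith) hyz]
  have hz : z ≠ 0 := by linarith
  have hy0 : y ≠ 0 := by linarith
  have hlz : Real.log z ≠ 0 := (Real.log_pos (by linarith)).ne'
  have hly : Real.log y ≠ 0 := (Real.log_pos (by linarith)).ne'
  field_simp
  ring

/-- `-log (1 - 1/p) - 1/p` -/
noncomputable def ee (p : ℕ) : ℝ := -Real.log (1 - (p : ℝ)⁻¹) - (p : ℝ)⁻¹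

lemma ee_nonneg {p : ℕ} (hp : 2 ≤ p) : 0 ≤ ee p := by
  unfold ee
  have hp' : (2 : ℝ) ≤ p := by exact_mod_cast hp
  have h1 : (p : ℝ)⁻¹ ≤ 1 / 2 := by
    rw [inv_le_comm₀ (by linarith) (by norm_num)]; simpa using hp'
  have := Real.log_le_sub_one_of_pos (x := 1 - (p : ℝ)⁻¹) (by linarith)
  linarith

lemma ell_le {p : ℕ} (hp : 2 ≤ p) : -Real.log (1 - (p : ℝ)⁻¹) ≤ 1 / ((p : ℝ) - 1) := by
  have hp' : (2 : ℝ) ≤ p := by exact_mod_cast hp
  have h1 : (p : ℝ)⁻¹ ≤ 1 / 2 := by
    rw [inv_le_comm₀ (by linarith) (by norm_num)]; simpa using hp'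
  have h := Real.log_le_sub_one_of_pos (x := (1 - (p : ℝ)⁻¹)⁻¹) (inv_pos.2 (by linarith))
  rw [Real.log_inv] at h
  refine h.trans (le_of_eq ?_)
  have : (p : ℝ) - 1 ≠ 0 := by linarith
  have h2 : (p : ℝ) ≠ 0 := by linarith
  have h3 : 1 - (p : ℝ)⁻¹ ≠ 0 := by
    intro h; linarith
  field_simp
  ring

end Pool.Agent.U334.RN
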