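import Mathlib
import Pool.Agent.U334.RN.Mer
import Pool.Agent.H305R2.MertensE
import Pool.Agent.H442R2.EHI.PntErr

set_option autoImplicit false

/-! Mertens' third theorem with an error term in terms of the Chebyshev function, the limit. -/

namespace Pool.Agent.U334.RN

open Real Finset MeasureTheory Filter Topology Chebyshev

lemma log_pow_le_mul (U : ℕ) {t : ℝ} (ht : 1 ≤ t) :
    Real.log t ^ U ≤ (U.factorial : ℝ) * t := by
  have h := Real.pow_div_factorial_le_exp (x := Real.log t) (Real.log_nonneg ht) U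
  rw [Real.exp_log (by linarith), div_le_iff₀ (by positivity)] at h
  linarith

/-- the prime number theorem with an error term for the real Chebyshev function -/
theorem theta_real (U : ℕ) : ∃ C : ℝ, 0 < C ∧ ∀ t : ℝ, 2 ≤ t →
    |theta t - t| ≤ C * (t / Real.log t ^ U) := by
  obtain ⟨C, hC, h⟩ := Pool.Agent.H442R2.EHI.PntErrAux.thetaU U
  refine ⟨C * 2 ^ U + U.factorial, by positivity, fun t ht => ?_⟩
  have hN2 : 2 ≤ ⌊t⌋₊ := Nat.le_floor (by exact_mod_cast ht)
  have hNt : (⌊t⌋₊ : ℝ) ≤ t := Nat.floor_le (by linarith)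
  have hNt' : t < ⌊t⌋₊ + 1 := Nat.lt_floor_add_one t
  have hN2' : (2 : ℝ) ≤ ⌊t⌋₊ := by exact_mod_cast hN2
  have hL : 0 < Real.log t := Real.log_pos (by linarith)
  have hLN : 0 < Real.log ⌊t⌋₊ := Real.log_pos (by linarith)
  have hlog : Real.log t ≤ 2 * Real.log ⌊t⌋₊ := by
    have h1 : t ≤ (⌊t⌋₊ : ℝ) ^ 2 := by nlinarith
    have h2 := Real.log_le_log (by linarith) h1
    rw [Real.log_pow] at h2
    exact_mod_cast h2
  have h1 := h ⌊t⌋₊ hN2
  rw [← theta_eq_theta_coe_floor] at h1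
  have h2 : (⌊t⌋₊ : ℝ) / Real.log ⌊t⌋₊ ^ U ≤ 2 ^ U * (t / Real.log t ^ U) := by
    rw [div_le_iff₀ (by positivity), mul_comm (2 ^ U : ℝ), mul_assoc, ← mul_pow, div_mul_eq_mul_div,
      le_div_iff₀ (by positivity)]
    have : Real.log t ^ U ≤ (2 * Real.log ⌊t⌋₊) ^ U := pow_le_pow_left₀ hL.le hlog U
    nlinarith [mul_le_mul hNt this (by positivity) (by linarith)]
  have h3 : (1 : ℝ) ≤ U.factorial * (t / Real.log t ^ U) := by
    rw [← mul_div_assoc, le_div_iff₀ (by positivity), one_mul]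
    exact log_pow_le_mul U (by linarith)
  have h4 : |theta t - t| ≤ |theta t - ⌊t⌋₊| + 1 := by
    have := abs_sub_le (theta t) (⌊t⌋₊ : ℝ) t
    have h5 : |(⌊t⌋₊ : ℝ) - t| ≤ 1 := by rw [abs_le]; constructor <;> linarith
    linarith
  have h6 : C * ((⌊t⌋₊ : ℝ) / Real.log ⌊t⌋₊ ^ U) ≤ C * (2 ^ U * (t / Real.log t ^ U)) :=
    mul_le_mul_of_nonneg_left h2 hC.le
  calc |theta t - t| ≤ C * (2 ^ U * (t / Real.log t ^ U)) + U.factorial * (t / Real.log t ^ U) := by
        linarith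
    _ = _ := by ring

lemma log_two_gt : (1 : ℝ) / 2 < Real.log 2 := by
  have := Real.log_two_gt_d9; linarith

lemma log_ge_half {t : ℝ} (ht : 2 ≤ t) : 1 / 2 < Real.log t :=
  lt_of_lt_of_le log_two_gt (Real.log_le_log (by norm_num) ht)

lemma hasDerivAt_logpow (m : ℕ) {t : ℝ} (ht : 1 < t) :
    HasDerivAt (fun t : ℝ => -((m + 1 : ℝ) * Real.log t ^ (m + 1))⁻¹) (t * Real.log t ^ (m + 2))⁻¹ t := by
  have h0 : t ≠ 0 := by linarith
  have hl : Real.log t ≠ 0 := (Real.log_pos ht).ne'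
  have hm : (m + 1 : ℝ) ≠ 0 := by positivity
  have h := ((((Real.hasDerivAt_log h0).pow (m + 1)).const_mul (m + 1 : ℝ)).inv
    (mul_ne_zero hm (pow_ne_zero _ hl))).neg
  refine h.congr_deriv ?_
  simp only [Nat.add_sub_cancel, Nat.cast_add, Nat.cast_one, Pi.pow_apply]
  field_simp
  ring

lemma tendsto_logpow (m : ℕ) :
    Tendsto (fun t : ℝ => -((m + 1 : ℝ) * Real.log t ^ (m + 1))⁻¹) atTop (𝓝 0) := by
  have h1 : Tendsto (fun t : ℝ => (m + 1 : ℝ) * Real.log t ^ (m + 1)) atTop atTop :=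
    ((tendsto_pow_atTop (Nat.succ_ne_zero m)).comp Real.tendsto_log_atTop).const_mul_atTop
      (by positivity)
  simpa using h1.inv_tendsto_atTop.neg

lemma int_logpow (m : ℕ) {y : ℝ} (hy : 1 < y) :
    IntegrableOn (fun t : ℝ => (t * Real.log t ^ (m + 2))⁻¹) (Set.Ioi y) ∧
    ∫ t in Set.Ioi y, (t * Real.log t ^ (m + 2))⁻¹ = ((m + 1 : ℝ) * Real.log y ^ (m + 1))⁻¹ := by
  have hd : ∀ x ∈ Set.Ici y, HasDerivAt (fun t : ℝ => -((m + 1 : ℝ) * Real.log t ^ (m + 1))⁻¹)
      (x * Real.log x ^ (m + 2))⁻¹ x := fun x hx => hasDerivAt_logpow m (lt_of_lt_of_le hy hx)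
  have hp : ∀ x ∈ Set.Ioi y, 0 ≤ (x * Real.log x ^ (m + 2))⁻¹ := fun x hx => by
    have hx' : 1 < x := lt_trans hy hx
    have := Real.log_pos hx'
    positivity
  refine ⟨integrableOn_Ioi_deriv_of_nonneg' hd hp (tendsto_logpow m), ?_⟩
  rw [integral_Ioi_of_hasDerivAt_of_nonneg' hd hp (tendsto_logpow m)]
  ring

lemma gg_bound {C : ℝ} {t : ℝ} (U : ℕ) (ht : 2 ≤ t)
    (h : |theta t - t| ≤ C * (t / Real.log t ^ U)) :
    |gg t| ≤ 3 * C * (t * Real.log t ^ (U + 1))⁻¹ := by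
  have hL := log_ge_half ht
  have hL0 : 0 < Real.log t := by linarith
  have ht0 : 0 < t := by linarith
  unfold gg
  rw [abs_mul, abs_of_nonneg (ka_nonneg (by linarith)), abs_sub_comm]
  have h1 : ka t ≤ 3 * (t ^ 2 * Real.log t)⁻¹ := by
    unfold ka
    rw [div_le_iff₀ (by positivity)]
    have : 3 * (t ^ 2 * Real.log t)⁻¹ * (t * Real.log t) ^ 2 = 3 * Real.log t := by
      field_simp
    rw [this]; linarith
  have hC : 0 ≤ C * (t / Real.log t ^ U) := le_trans (abs_nonneg _) h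
  calc |theta t - t| * ka t ≤ (C * (t / Real.log t ^ U)) * (3 * (t ^ 2 * Real.log t)⁻¹) :=
        mul_le_mul h h1 (ka_nonneg (by linarith)) hC
    _ = _ := by
        field_simp
        ring

lemma gg_meas : Measurable gg := by
  unfold gg ka
  have := theta_meas
  fun_prop

lemma gg_intOn {y : ℝ} (hy : 2 ≤ y) : IntegrableOn gg (Set.Ioi y) := by
  obtain ⟨C, hC, h⟩ := theta_real 1
  refine Integrable.mono' (((int_logpow 0 (y := y) (by linarith)).1).const_mul (3 * C))
    gg_meas.aestronglyMeasurable ?_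
  refine (ae_restrict_iff' measurableSet_Ioi).2 (Eventually.of_forall fun t ht => ?_)
  have ht2 : 2 ≤ t := hy.trans (le_of_lt ht)
  simpa using gg_bound 1 ht2 (h t ht2)

/-- the remainder term in the theorem of Mertens -/
noncomputable def JJ (y : ℝ) : ℝ := ∫ t in Set.Ioi y, gg t

theorem JJ_bound (U : ℕ) : ∃ C : ℝ, 0 < C ∧ ∀ y : ℝ, 2 ≤ y →
    |JJ y| ≤ C / Real.log y ^ (U + 1) := by
  obtain ⟨C, hC, h⟩ := theta_real (U + 1)
  refine ⟨3 * C, by positivity, fun y hy => ?_⟩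
  have hi := int_logpow U (y := y) (by linarith)
  have h1 : |JJ y| ≤ ∫ t in Set.Ioi y, 3 * C * (t * Real.log t ^ (U + 2))⁻¹ := by
    unfold JJ
    rw [← Real.norm_eq_abs]
    refine norm_integral_le_of_norm_le (hi.1.const_mul _) ?_
    refine (ae_restrict_iff' measurableSet_Ioi).2 (Eventually.of_forall fun t ht => ?_)
    have ht2 : 2 ≤ t := hy.trans (le_of_lt ht)
    exact gg_bound (U + 1) ht2 (h t ht2)
  rw [integral_const_mul, hi.2] at h1
  refine h1.trans ?_
  have hL := log_ge_half hy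
  have hL0 : 0 < Real.log y := by linarith
  rw [mul_inv, div_eq_mul_inv]
  have : ((U : ℝ) + 1)⁻¹ ≤ 1 := inv_le_one_of_one_le₀ (by linarith [Nat.cast_nonneg (α := ℝ) U])
  have h2 : 0 ≤ (Real.log y ^ (U + 1))⁻¹ := by positivity
  nlinarith [mul_le_mul_of_nonneg_right this h2]

/-- the third theorem of Mertens -/
theorem LL_tendsto : Tendsto (fun N : ℕ => LL N - Real.log (Real.log N)) atTop
    (𝓝 Real.eulerMascheroniConstant) := by
  have h := (Pool.Agent.H305R2.mertens_three).log (Real.exp_pos _).ne'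
  rw [Real.log_exp] at h
  refine h.congr' ?_
  filter_upwards [eventually_ge_atTop 2] with N hN
  have hN' : (2 : ℝ) ≤ N := by exact_mod_cast hN
  have hl : 0 < Real.log N := Real.log_pos (by linarith)
  have hset : (Finset.Icc 1 N).filter Nat.Prime = Nat.primesLE N := by
    ext p
    simp only [mem_filter, mem_Icc, Nat.mem_primesLE]
    constructor
    · rintro ⟨⟨_, h2⟩, h3⟩; exact ⟨h2, h3⟩
    · rintro ⟨h2, h3⟩; exact ⟨⟨h3.one_lt.le, h2⟩, h3⟩
  have hne : ∀ p ∈ Nat.primesLE N, (0 : ℝ) < 1 - (p : ℝ)⁻¹ := fun p hp => by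
    have hp2 : (2 : ℝ) ≤ p := by exact_mod_cast (Nat.mem_primesLE.1 hp).2.two_le
    have : (p : ℝ)⁻¹ ≤ 1 / 2 := by
      rw [inv_le_comm₀ (by linarith) (by norm_num)]; simpa using hp2
    linarith
  rw [hset, Real.log_div (prod_ne_zero_iff.2 fun p hp => inv_ne_zero (hne p hp).ne') hl.ne',
    Real.log_prod (fun p hp => inv_ne_zero (hne p hp).ne')]
  unfold LL
  congr 1
  exact sum_congr rfl fun p _ => Real.log_inv _

lemma LL_sub {a b : ℕ} (hab : a ≤ b) : LL b - LL a =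
    ∑ p ∈ Ioc a b with p.Prime, -Real.log (1 - (p : ℝ)⁻¹) := by
  have h : Nat.primesLE b = Nat.primesLE a ∪ (Ioc a b).filter Nat.Prime := by
    ext p
    simp only [mem_union, mem_filter, mem_Ioc, Nat.mem_primesLE]
    constructor
    · rintro ⟨h1, h2⟩
      by_cases h3 : p ≤ a
      · exact Or.inl ⟨h3, h2⟩
      · exact Or.inr ⟨⟨by omega, h1⟩, h2⟩
    · rintro (⟨h1, h2⟩ | ⟨⟨h1, h2⟩, h3⟩)
      · exact ⟨h1.trans hab, h2⟩
      · exact ⟨h2, h3⟩
  have hd : Disjoint (Nat.primesLE a) ((Ioc a b).filter Nat.Prime) := by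
    rw [Finset.disjoint_left]
    intro p hp hp'
    have h1 := (Nat.mem_primesLE.1 hp).1
    have h2 := (mem_Ioc.1 (mem_filter.1 hp').1).1
    omega
  unfold LL
  rw [h, sum_union hd]
  ring

lemma ee_le {p : ℕ} (hp : 2 ≤ p) : ee p ≤ 1 / ((p : ℝ) - 1) - 1 / p := by
  unfold ee
  have := ell_le hp
  rw [one_div (p : ℝ)]
  linarith

lemma sum_tele {a b : ℕ} (ha : 1 ≤ a) (hab : a ≤ b) :
    ∑ p ∈ Ioc a b, (1 / ((p : ℝ) - 1) - 1 / p) = 1 / a - 1 / b := by
  induction b, hab using Nat.le_induction with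
  | base => simp
  | succ b hb ih =>
    rw [← Finset.insert_Ioc_right_eq_Ioc_add_one hb, sum_insert (by simp), ih]
    push_cast
    ring

lemma ee_sum_le {a b : ℕ} (ha : 1 ≤ a) (hab : a ≤ b) :
    ∑ p ∈ Ioc a b with p.Prime, ee p ≤ 1 / a := by
  calc ∑ p ∈ Ioc a b with p.Prime, ee p ≤ ∑ p ∈ Ioc a b, (1 / ((p : ℝ) - 1) - 1 / p) := by
        rw [sum_filter]
        refine sum_le_sum fun p hp => ?_
        have hp2 : 2 ≤ p := by have := (mem_Ioc.1 hp).1; omega
        split_ifs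
        · exact ee_le hp2
        · have := (ee_nonneg hp2).trans (ee_le hp2)
          exact this
    _ = 1 / a - 1 / b := sum_tele ha hab
    _ ≤ 1 / a := by
        have : (0 : ℝ) ≤ 1 / b := by positivity
        linarith

/-- **Mertens' third theorem with an error term.** -/
theorem mertens_formula {y : ℝ} (hy : 2 ≤ y) : ∃ τ : ℝ, 0 ≤ τ ∧ τ ≤ 1 / ⌊y⌋₊ ∧
    LL ⌊y⌋₊ = Real.eulerMascheroniConstant + Real.log (Real.log y) +
      (y * Real.log y)⁻¹ * (theta y - y) + JJ y - τ := by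
  set k := ⌊y⌋₊ with hk
  have hk2 : 2 ≤ k := Nat.le_floor (by exact_mod_cast hy)
  set τ : ℝ := Real.eulerMascheroniConstant - LL k + Real.log (Real.log y) +
      (y * Real.log y)⁻¹ * (theta y - y) + JJ y with hτ
  have hT : ∀ N : ℕ, k + 1 ≤ N → ∑ p ∈ Ioc k N with p.Prime, ee p =
      (LL N - Real.log (Real.log N)) - LL k + Real.log (Real.log y)
        - ((N : ℝ) * Real.log N)⁻¹ * (theta N - N) + (y * Real.log y)⁻¹ * (theta y - y) +
        ∫ t in y..N, gg t := by
    intro N hN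
    have hyN : y ≤ N := by
      have h1 : y < k + 1 := Nat.lt_floor_add_one y
      have h2 : ((k + 1 : ℕ) : ℝ) ≤ N := by exact_mod_cast hN
      push_cast at h2
      linarith
    have h1 := prime_sum_eq hy hyN
    rw [Nat.floor_natCast, ← hk] at h1
    have h2 := LL_sub (a := k) (b := N) (by omega)
    have h3 : ∑ p ∈ Ioc k N with p.Prime, ee p =
        ∑ p ∈ Ioc k N with p.Prime, -Real.log (1 - (p : ℝ)⁻¹) -
          ∑ p ∈ Ioc k N with p.Prime, (p : ℝ)⁻¹ := by
      rw [← sum_sub_distrib]; rfl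
    rw [h3, ← h2, h1]
    ring
  have hlim : Tendsto (fun N : ℕ => ∑ p ∈ Ioc k N with p.Prime, ee p) atTop (𝓝 τ) := by
    have e1 : Tendsto (fun N : ℕ => ((N : ℝ) * Real.log N)⁻¹ * (theta N - N)) atTop (𝓝 0) := by
      obtain ⟨C, hC, h⟩ := theta_real 0
      have hb : Tendsto (fun N : ℕ => C * (Real.log N)⁻¹) atTop (𝓝 0) := by
        have := (Real.tendsto_log_atTop.comp tendsto_natCast_atTop_atTop).inv_tendsto_atTop
        simpa using this.const_mul C
      refine squeeze_zero_norm' ?_ hb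
      filter_upwards [eventually_ge_atTop 2] with N hN
      have hN' : (2 : ℝ) ≤ N := by exact_mod_cast hN
      have hl : 0 < Real.log N := Real.log_pos (by linarith)
      have h1 := h N hN'
      simp only [pow_zero, div_one] at h1
      rw [norm_mul, norm_inv, Real.norm_eq_abs, Real.norm_eq_abs,
        abs_of_nonneg (by positivity : 0 ≤ (N : ℝ) * Real.log N)]
      calc ((N : ℝ) * Real.log N)⁻¹ * |theta N - N| ≤ ((N : ℝ) * Real.log N)⁻¹ * (C * N) :=
            mul_le_mul_of_nonneg_left h1 (by positivity)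
        _ = C * (Real.log N)⁻¹ := by
            field_simp
    have e2 : Tendsto (fun N : ℕ => ∫ t in y..N, gg t) atTop (𝓝 (JJ y)) :=
      intervalIntegral_tendsto_integral_Ioi y (gg_intOn hy) tendsto_natCast_atTop_atTop
    have e3 := ((((LL_tendsto.sub_const (LL k)).add_const (Real.log (Real.log y))).sub e1).add_const
      ((y * Real.log y)⁻¹ * (theta y - y))).add e2
    rw [sub_zero] at e3
    refine e3.congr' ?_
    filter_upwards [eventually_ge_atTop (k + 1)] with N hN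
    exact (hT N hN).symm
  refine ⟨τ, ?_, ?_, by rw [hτ]; ring⟩
  · refine ge_of_tendsto hlim (eventually_atTop.2 ⟨k, fun N _ => sum_nonneg fun p hp => ?_⟩)
    exact ee_nonneg (mem_filter.1 hp).2.two_le
  · refine le_of_tendsto hlim (eventually_atTop.2 ⟨k, fun N hN => ?_⟩)
    exact ee_sum_le (by omega) hN

end Pool.Agent.U334.RN
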