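import Mathlib
import Pool.Agent.U334.RN.Mer2

set_option autoImplicit false

/-! The upper bound for the number of failures of Nicolas' inequality. -/

namespace Pool.Agent.U334.RN

open Real Finset MeasureTheory Filter Topology Chebyshev

/-- failure of Nicolas' inequality `n / φ(n) ≤ e^γ log log n` -/
def Vio (n : ℕ) : Prop :=
  Real.exp Real.eulerMascheroniConstant * Real.log (Real.log n) * (Nat.totient n : ℝ) < n

lemma one_sub_inv_pos {p : ℕ} (hp : p.Prime) : (0 : ℝ) < 1 - (p : ℝ)⁻¹ := by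
  have hp2 : (2 : ℝ) ≤ p := by exact_mod_cast hp.two_le
  have : (p : ℝ)⁻¹ ≤ 1 / 2 := by
    rw [inv_le_comm₀ (by linarith) (by norm_num)]; simpa using hp2
  linarith

lemma log_ratio {n : ℕ} (hn : 1 ≤ n) : Real.log n - Real.log (Nat.totient n) =
    ∑ p ∈ n.primeFactors, -Real.log (1 - (p : ℝ)⁻¹) := by
  have h := Nat.totient_eq_mul_prod_factors n
  have h' : (Nat.totient n : ℝ) = n * ∏ p ∈ n.primeFactors, (1 - (p : ℝ)⁻¹) := by
    have h2 := congrArg (fun q : ℚ => (q : ℝ)) h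
    push_cast at h2
    exact h2
  have hn0 : (n : ℝ) ≠ 0 := by exact_mod_cast (by omega : n ≠ 0)
  have hne : ∀ p ∈ n.primeFactors, (1 - (p : ℝ)⁻¹) ≠ 0 := fun p hp =>
    (one_sub_inv_pos (Nat.prime_of_mem_primeFactors hp)).ne'
  rw [h', Real.log_mul hn0 (prod_ne_zero_iff.2 hne), Real.log_prod hne, sum_neg_distrib]
  ring

lemma vio_log {n : ℕ} (hn : 3 ≤ n) (hv : Vio n) :
    Real.eulerMascheroniConstant + Real.log (Real.log (Real.log n)) <
      ∑ p ∈ n.primeFactors, -Real.log (1 - (p : ℝ)⁻¹) := by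
  have hn3 : (3 : ℝ) ≤ n := by exact_mod_cast hn
  have hl : 1 < Real.log n := by
    rw [Real.lt_log_iff_exp_lt (by linarith)]
    have := Real.exp_one_lt_d9
    linarith
  have hll : 0 < Real.log (Real.log n) := Real.log_pos hl
  have ht : (0 : ℝ) < Nat.totient n := by exact_mod_cast Nat.totient_pos.2 (by omega)
  rw [← log_ratio (by omega)]
  have h := Real.log_lt_log (by positivity) hv
  rw [Real.log_mul (by positivity) ht.ne', Real.log_mul (Real.exp_pos _).ne' hll.ne',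
    Real.log_exp] at h
  linarith

/-- the primes up to `k` which do not divide `n` -/
def AA (k n : ℕ) : Finset ℕ := (Nat.primesLE k).filter fun p => ¬ p ∣ n

/-- the primes up to `k` which divide `n` -/
def PP (k n : ℕ) : Finset ℕ := (Nat.primesLE k).filter fun p => p ∣ n

lemma AA_PP {k n : ℕ} (f : ℕ → ℝ) : ∑ p ∈ PP k n, f p + ∑ p ∈ AA k n, f p =
    ∑ p ∈ Nat.primesLE k, f p := by
  unfold PP AA
  exact sum_filter_add_sum_filter_not _ _ _

lemma factors_split {k n : ℕ} (hn : n ≠ 0) (f : ℕ → ℝ) : ∑ p ∈ n.primeFactors, f p =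
    ∑ p ∈ PP k n, f p + ∑ p ∈ n.primeFactors.filter (fun p => k < p), f p := by
  have h : n.primeFactors.filter (fun p => ¬ k < p) = PP k n := by
    ext p
    simp only [mem_filter, Nat.mem_primeFactors, PP, Nat.mem_primesLE, not_lt]
    constructor
    · rintro ⟨⟨h1, h2, h3⟩, h4⟩; exact ⟨⟨h4, h1⟩, h2⟩
    · rintro ⟨⟨h4, h1⟩, h2⟩; exact ⟨⟨h1, h2, hn⟩, h4⟩
  rw [← h, add_comm]
  exact (sum_filter_add_sum_filter_not _ _ _).symm

lemma tail_le {k n : ℕ} (hk : 1 ≤ k) :
    ∑ p ∈ n.primeFactors.filter (fun p => k < p), (1 / ((p : ℝ) - 1) - 1 / p) ≤ 1 / k := by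
  set b := k + n.primeFactors.sup id with hb
  have hsub : n.primeFactors.filter (fun p => k < p) ⊆ Ioc k b := by
    intro p hp
    rw [mem_filter] at hp
    rw [mem_Ioc]
    refine ⟨hp.2, ?_⟩
    have : p ≤ n.primeFactors.sup id := le_sup (f := id) hp.1
    omega
  calc ∑ p ∈ n.primeFactors.filter (fun p => k < p), (1 / ((p : ℝ) - 1) - 1 / p)
      ≤ ∑ p ∈ Ioc k b, (1 / ((p : ℝ) - 1) - 1 / p) := by
        refine sum_le_sum_of_subset_of_nonneg hsub fun p hp _ => ?_
        have hp2 : 2 ≤ p := by have := (mem_Ioc.1 hp).1; omega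
        exact (ee_nonneg hp2).trans (ee_le hp2)
    _ = 1 / k - 1 / b := sum_tele hk (by omega)
    _ ≤ 1 / k := by
        have : (0 : ℝ) ≤ 1 / b := by positivity
        linarith

lemma sum_log_factors_le {n : ℕ} (hn : n ≠ 0) : ∑ p ∈ n.primeFactors, Real.log p ≤ Real.log n := by
  have h := Nat.le_of_dvd (Nat.pos_of_ne_zero hn) (Nat.prod_primeFactors_dvd n)
  have h' : ((∏ p ∈ n.primeFactors, p : ℕ) : ℝ) ≤ n := by exact_mod_cast h
  rw [Nat.cast_prod] at h'
  have hp : ∀ p ∈ n.primeFactors, (p : ℝ) ≠ 0 := fun p hp => by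
    exact_mod_cast (Nat.prime_of_mem_primeFactors hp).ne_zero
  rw [← Real.log_prod hp]
  exact Real.log_le_log (prod_pos fun p hp => by
    exact_mod_cast (Nat.prime_of_mem_primeFactors hp).pos) h'

lemma log_eight : 2 ≤ Real.log 8 := by
  have h : (8 : ℝ) = 2 ^ 3 := by norm_num
  rw [h, Real.log_pow]
  have := Real.log_two_gt_d9
  push_cast
  linarith

lemma log_ge_two {n : ℕ} (hn : 8 ≤ n) : 2 ≤ Real.log n :=
  log_eight.trans (Real.log_le_log (by norm_num) (by exact_mod_cast hn))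

/-- The main inequality: the primes `≤ log n` not dividing a number `n` which fails Nicolas'
inequality. -/
theorem AA_sum_lt {n : ℕ} (hn : 8 ≤ n) (hv : Vio n) :
    ∑ p ∈ AA ⌊Real.log n⌋₊ n, ((p : ℝ)⁻¹ - (Real.log n * Real.log (Real.log n))⁻¹ * Real.log p) <
      JJ (Real.log n) + 1 / ⌊Real.log n⌋₊ := by
  set y := Real.log n with hy
  set k := ⌊y⌋₊ with hk
  have hy2 : 2 ≤ y := log_ge_two hn
  have hk2 : 2 ≤ k := Nat.le_floor (by exact_mod_cast hy2)
  have hky : (k : ℝ) ≤ y := Nat.floor_le (by linarith)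
  have hL := log_ge_half hy2
  have hL0 : 0 < Real.log y := by linarith
  obtain ⟨τ, hτ0, -, hM⟩ := mertens_formula hy2
  rw [← hk] at hM
  have h1 := vio_log (by omega) hv
  rw [← hy, factors_split (k := k) (by omega)] at h1
  have h2 := AA_PP (k := k) (n := n) (fun p => -Real.log (1 - (p : ℝ)⁻¹))
  have h3 := AA_PP (k := k) (n := n) (fun p => Real.log p)
  have h4 := sum_log_factors_le (n := n) (by omega)
  rw [← hy, factors_split (k := k) (by omega)] at h4
  have h5 : theta y = ∑ p ∈ Nat.primesLE k, Real.log p := theta_eq_sum_primesLE y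
  rw [← h5] at h3
  have hLL : LL k = ∑ p ∈ Nat.primesLE k, -Real.log (1 - (p : ℝ)⁻¹) := rfl
  rw [← hLL] at h2
  have h6 : ∑ p ∈ AA k n, (p : ℝ)⁻¹ ≤ ∑ p ∈ AA k n, -Real.log (1 - (p : ℝ)⁻¹) := by
    refine sum_le_sum fun p hp => ?_
    have hp' : p.Prime := (Nat.mem_primesLE.1 (mem_filter.1 hp).1).2
    have := ee_nonneg hp'.two_le
    unfold ee at this
    linarith
  have h7 : ∑ p ∈ n.primeFactors.filter (fun p => k < p), -Real.log (1 - (p : ℝ)⁻¹) ≤
      ∑ p ∈ n.primeFactors.filter (fun p => k < p), ((y * Real.log y)⁻¹ * Real.log p +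
        (1 / ((p : ℝ) - 1) - 1 / p)) := by
    refine sum_le_sum fun p hp => ?_
    rw [mem_filter] at hp
    have hp' := Nat.prime_of_mem_primeFactors hp.1
    have h8 := ell_le hp'.two_le
    have hyp : y < p := by
      have h9 : y < k + 1 := Nat.lt_floor_add_one y
      have h10 : ((k + 1 : ℕ) : ℝ) ≤ p := by exact_mod_cast hp.2
      push_cast at h10
      linarith
    have h11 : 1 / (p : ℝ) ≤ (y * Real.log y)⁻¹ * Real.log p := by
      have hlp : Real.log y ≤ Real.log p := Real.log_le_log (by linarith) hyp.le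
      rw [← div_eq_inv_mul, div_le_div_iff₀ (by linarith) (by positivity)]
      nlinarith
    linarith
  rw [sum_add_distrib, ← mul_sum] at h7
  have h8 := tail_le (k := k) (n := n) (by omega)
  rw [sum_sub_distrib, ← mul_sum]
  have hf : 0 < (y * Real.log y)⁻¹ := by positivity
  have h9 : (y * Real.log y)⁻¹ * ∑ p ∈ n.primeFactors.filter (fun p => k < p), Real.log p ≤
      (y * Real.log y)⁻¹ * (y - theta y + ∑ p ∈ AA k n, Real.log p) :=
    mul_le_mul_of_nonneg_left (by linarith) hf.le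
  have h10 : (y * Real.log y)⁻¹ * (y - theta y + ∑ p ∈ AA k n, Real.log p) =
      -((y * Real.log y)⁻¹ * (theta y - y)) + (y * Real.log y)⁻¹ * ∑ p ∈ AA k n, Real.log p := by
    ring
  linarith

/-- the number of primes `≤ log n` not dividing a number `n` which fails Nicolas' inequality -/
theorem AA_card_le {n : ℕ} (hn : 8 ≤ n) (hv : Vio n) {s : ℝ} (hs : 0 < s)
    (hη : JJ (Real.log n) + 1 / ⌊Real.log n⌋₊ ≤ s ^ 2) :
    ((AA ⌊Real.log n⌋₊ n).card : ℝ) ≤ 2 * s * Real.log n + 1 := by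
  set y := Real.log n with hy
  set k := ⌊y⌋₊ with hk
  have hy2 : 2 ≤ y := log_ge_two hn
  have hL := log_ge_half hy2
  have hL0 : 0 < Real.log y := by linarith
  have hky : (k : ℝ) ≤ y := Nat.floor_le (by linarith)
  have h1 := AA_sum_lt hn hv
  rw [← hy, ← hk] at h1
  have hmem : ∀ p ∈ AA k n, p.Prime ∧ (p : ℝ) ≤ y := fun p hp => by
    have := Nat.mem_primesLE.1 (mem_filter.1 hp).1
    exact ⟨this.2, le_trans (by exact_mod_cast this.1) hky⟩
  have hterm : ∀ p ∈ AA k n, 0 ≤ (p : ℝ)⁻¹ - (y * Real.log y)⁻¹ * Real.log p := fun p hp => by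
    obtain ⟨hp1, hp2⟩ := hmem p hp
    have hp0 : (0 : ℝ) < p := by exact_mod_cast hp1.pos
    have hlp : Real.log p ≤ Real.log y := Real.log_le_log hp0 hp2
    have hlp0 : 0 ≤ Real.log p := Real.log_nonneg (by exact_mod_cast hp1.one_lt.le)
    rw [sub_nonneg, ← div_eq_inv_mul, inv_eq_one_div, div_le_div_iff₀ (by positivity) hp0]
    nlinarith
  have hterm2 : ∀ p ∈ (AA k n).filter (fun p : ℕ => (p : ℝ) ≤ (1 - s) * y),
      s / y ≤ (p : ℝ)⁻¹ - (y * Real.log y)⁻¹ * Real.log p := fun p hp => by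
    rw [mem_filter] at hp
    obtain ⟨hp1, hp2⟩ := hmem p hp.1
    have hp0 : (0 : ℝ) < p := by exact_mod_cast hp1.pos
    have hlp : Real.log p ≤ Real.log y := Real.log_le_log hp0 hp2
    have h2 : (y * Real.log y)⁻¹ * Real.log p ≤ 1 / y := by
      rw [← div_eq_inv_mul, div_le_div_iff₀ (by positivity) (by linarith)]
      nlinarith
    have h3 : (s + 1) / y ≤ (p : ℝ)⁻¹ := by
      rw [inv_eq_one_div, div_le_div_iff₀ (by linarith) hp0, one_mul]
      have : (s + 1) * p ≤ (s + 1) * ((1 - s) * y) := mul_le_mul_of_nonneg_left hp.2 (by linarith)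
      nlinarith [mul_pos hs hs, mul_pos (mul_pos hs hs) (by linarith : 0 < y)]
    have h4 : (s + 1) / y = s / y + 1 / y := by ring
    linarith
  have h2 : (((AA k n).filter (fun p : ℕ => (p : ℝ) ≤ (1 - s) * y)).card : ℝ) * (s / y) ≤ s ^ 2 := by
    calc (((AA k n).filter (fun p : ℕ => (p : ℝ) ≤ (1 - s) * y)).card : ℝ) * (s / y)
        = ∑ p ∈ (AA k n).filter (fun p : ℕ => (p : ℝ) ≤ (1 - s) * y), s / y := by
          rw [sum_const, nsmul_eq_mul]
      _ ≤ ∑ p ∈ (AA k n).filter (fun p : ℕ => (p : ℝ) ≤ (1 - s) * y),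
          ((p : ℝ)⁻¹ - (y * Real.log y)⁻¹ * Real.log p) := sum_le_sum hterm2
      _ ≤ ∑ p ∈ AA k n, ((p : ℝ)⁻¹ - (y * Real.log y)⁻¹ * Real.log p) :=
          sum_le_sum_of_subset_of_nonneg (filter_subset _ _) fun p hp _ => hterm p hp
      _ ≤ s ^ 2 := by linarith
  have h3 : (((AA k n).filter (fun p : ℕ => (p : ℝ) ≤ (1 - s) * y)).card : ℝ) ≤ s * y := by
    have h4 : (((AA k n).filter (fun p : ℕ => (p : ℝ) ≤ (1 - s) * y)).card : ℝ) * (s / y) ≤
        s * y * (s / y) := by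
      refine h2.trans (le_of_eq ?_)
      field_simp
    exact le_of_mul_le_mul_right h4 (by positivity)
  have h4 : (((AA k n).filter (fun p : ℕ => ¬ (p : ℝ) ≤ (1 - s) * y)).card : ℝ) ≤ s * y + 1 := by
    have hsub : (AA k n).filter (fun p : ℕ => ¬ (p : ℝ) ≤ (1 - s) * y) ⊆ Ioc ⌊(1 - s) * y⌋₊ k := by
      intro p hp
      rw [mem_filter, not_le] at hp
      rw [mem_Ioc]
      refine ⟨?_, (Nat.mem_primesLE.1 (mem_filter.1 hp.1).1).1⟩
      have hp0 := (hmem p hp.1).1.pos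
      exact (Nat.floor_lt' hp0.ne').2 hp.2
    have h5 := card_le_card hsub
    rw [Nat.card_Ioc] at h5
    have h6 : ((k - ⌊(1 - s) * y⌋₊ : ℕ) : ℝ) ≤ s * y + 1 := by
      by_cases h7 : ⌊(1 - s) * y⌋₊ ≤ k
      · rw [Nat.cast_sub h7]
        have := Nat.lt_floor_add_one ((1 - s) * y)
        linarith
      · rw [Nat.sub_eq_zero_of_le (by omega)]
        push_cast
        positivity
    exact le_trans (by exact_mod_cast h5) h6
  have h5 := card_filter_add_card_filter_not (s := AA k n) (fun p : ℕ => (p : ℝ) ≤ (1 - s) * y)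
  have h6 : ((AA k n).card : ℝ) = (((AA k n).filter (fun p : ℕ => (p : ℝ) ≤ (1 - s) * y)).card : ℝ) +
      (((AA k n).filter (fun p : ℕ => ¬ (p : ℝ) ≤ (1 - s) * y)).card : ℝ) := by
    exact_mod_cast h5.symm
  rw [h6]
  linarith

end Pool.Agent.U334.RN
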