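import Mathlib
import Pool.Agent.U334.RN.Up

set_option autoImplicit false

/-! Many failures of the inequalities of Nicolas and Robin near one strong failure. -/

namespace Pool.Agent.U334.RN

open Real Finset MeasureTheory Filter Topology Chebyshev

lemma log_tangent {a b : ℝ} (ha : 0 < a) (hb : 0 < b) : Real.log a ≤ Real.log b + (a - b) / b := by
  have h := Real.log_le_sub_one_of_pos (div_pos ha hb)
  rw [Real.log_div ha.ne' hb.ne'] at h
  have : (a - b) / b = a / b - 1 := by field_simp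
  linarith

lemma loglog_tangent {a b : ℝ} (ha : 1 < a) (hb : 1 < b) :
    Real.log (Real.log a) ≤ Real.log (Real.log b) + (a - b) / (b * Real.log b) := by
  have hla := Real.log_pos ha
  have hlb := Real.log_pos hb
  have h1 := log_tangent hla hlb
  have h2 := log_tangent (a := a) (b := b) (by linarith) (by linarith)
  have h3 : (Real.log a - Real.log b) / Real.log b ≤ ((a - b) / b) / Real.log b :=
    div_le_div_of_nonneg_right (by linarith) hlb.le
  rw [div_div] at h3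
  linarith

/-- the effect of the removal of one prime -/
lemma prime_cost {y δ Λ : ℝ} {p : ℕ} (hp : p.Prime) (hδ : 0 < δ) (hδ4 : δ ≤ 1 / 4)
    (hy : 1 ≤ Real.log y) (hy1 : 1 ≤ δ * y) (h1 : (1 - δ) * y < p) (h2 : (p : ℝ) ≤ y)
    (hΛ : |Λ - y| ≤ δ * y) :
    -Real.log (1 - (p : ℝ)⁻¹) - Real.log p / (Λ * Real.log Λ) ≤ 8 * δ / y := by
  have hy0 : 0 < y := by
    have : (0 : ℝ) < p := by exact_mod_cast hp.pos
    linarith
  have hy4 : 4 ≤ y := by nlinarith
  rw [abs_le] at hΛ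
  have hΛ1 : 3 / 4 * y ≤ Λ := by nlinarith [hΛ.1]
  have hΛ0 : 1 < Λ := by linarith
  have hlΛ : 0 < Real.log Λ := Real.log_pos hΛ0
  have h3 : -Real.log (1 - (p : ℝ)⁻¹) ≤ (1 + 4 * δ) / y := by
    refine (ell_le hp.two_le).trans ?_
    have h4 : (1 - 2 * δ) * y ≤ (p : ℝ) - 1 := by nlinarith
    have h5 : 0 < (1 - 2 * δ) * y := by nlinarith
    rw [div_le_div_iff₀ (by linarith) hy0]
    have h6 : (1 + 4 * δ) * ((1 - 2 * δ) * y) ≤ (1 + 4 * δ) * ((p : ℝ) - 1) :=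
      mul_le_mul_of_nonneg_left h4 (by linarith)
    nlinarith [mul_nonneg hδ.le hy0.le, mul_nonneg (mul_nonneg hδ.le hy0.le)
      (by linarith : 0 ≤ 1 / 4 - δ)]
  have h4 : (1 - 4 * δ) / y ≤ Real.log p / (Λ * Real.log Λ) := by
    have hp0 : 0 < (1 - δ) * y := by nlinarith
    have h5 : Real.log y - 2 * δ ≤ Real.log p := by
      have h6 := Real.log_le_log hp0 h1.le
      rw [Real.log_mul (by linarith) hy0.ne'] at h6
      have h7 : -(2 * δ) ≤ Real.log (1 - δ) := by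
        have h8 := Real.log_le_sub_one_of_pos (x := (1 - δ)⁻¹) (inv_pos.2 (by linarith))
        rw [Real.log_inv] at h8
        have h9 : (1 - δ)⁻¹ - 1 ≤ 2 * δ := by
          have h10 : (1 - δ)⁻¹ ≤ 1 + 2 * δ := by
            rw [inv_le_comm₀ (by linarith) (by linarith), inv_le_iff_one_le_mul₀ (by linarith)]
            nlinarith
          linarith
        linarith
      linarith
    have h6 : Real.log Λ ≤ Real.log y + δ := by
      have h7 := log_tangent (a := Λ) (b := y) (by linarith) hy0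
      have h8 : (Λ - y) / y ≤ δ := by
        rw [div_le_iff₀ hy0]; linarith [hΛ.2]
      linarith
    have h7 : Λ * Real.log Λ ≤ ((1 + δ) * y) * (Real.log y + δ) :=
      mul_le_mul (by nlinarith [hΛ.2]) h6 hlΛ.le (by positivity)
    rw [div_le_div_iff₀ hy0 (by positivity)]
    calc (1 - 4 * δ) * (Λ * Real.log Λ) ≤ (1 - 4 * δ) * (((1 + δ) * y) * (Real.log y + δ)) :=
          mul_le_mul_of_nonneg_left h7 (by linarith)
      _ = ((1 - 4 * δ) * (1 + δ) * (Real.log y + δ)) * y := by ring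
      _ ≤ (Real.log y - 2 * δ) * y := by
          refine mul_le_mul_of_nonneg_right ?_ hy0.le
          have h8 : (1 - 4 * δ) * (1 + δ) ≤ 1 - 3 * δ := by nlinarith
          have h9 : (1 - 4 * δ) * (1 + δ) * (Real.log y + δ) ≤ (1 - 3 * δ) * (Real.log y + δ) :=
            mul_le_mul_of_nonneg_right h8 (by linarith)
          nlinarith
      _ ≤ Real.log p * y := mul_le_mul_of_nonneg_right h5 hy0.le
  have h5 : 8 * δ / y = (1 + 4 * δ) / y - (1 - 4 * δ) / y := by ring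
  rw [h5]
  linarith

/-- removal of a set of primes from `n₀` -/
lemma removal {n₀ k : ℕ} (hn₀ : n₀ ≠ 0) (hpf : n₀.primeFactors = Nat.primesLE k) {S : Finset ℕ}
    (hS : S ⊆ Nat.primesLE k) (hS1 : ∀ p ∈ S, n₀.factorization p = 1) :
    (∏ p ∈ S, p) ∣ n₀ ∧ 0 < n₀ / ∏ p ∈ S, p ∧
      (n₀ / ∏ p ∈ S, p).primeFactors = Nat.primesLE k \ S ∧
      (∀ p ∈ Nat.primesLE k \ S, (n₀ / ∏ p ∈ S, p).factorization p = n₀.factorization p) := by
  have hpr : ∀ p ∈ S, p.Prime := fun p hp => (Nat.mem_primesLE.1 (hS hp)).2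
  have hd : (∏ p ∈ S, p) ∣ n₀ :=
    Finset.prod_primes_dvd n₀ (fun p hp => (hpr p hp).prime) (fun p hp =>
      Nat.dvd_of_mem_primeFactors (by rw [hpf]; exact hS hp))
  have hD0 : ∏ p ∈ S, p ≠ 0 := prod_ne_zero_iff.2 fun p hp => (hpr p hp).ne_zero
  have hpos : 0 < n₀ / ∏ p ∈ S, p :=
    Nat.div_pos (Nat.le_of_dvd (Nat.pos_of_ne_zero hn₀) hd) (Nat.pos_of_ne_zero hD0)
  have hDf : ∀ p : ℕ, (∏ p ∈ S, p).factorization p = if p ∈ S then 1 else 0 := by
    intro p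
    rw [Nat.factorization_prod fun q hq => (hpr q hq).ne_zero, Finsupp.coe_finsetSum,
      Finset.sum_apply]
    rw [Finset.sum_congr rfl fun q hq => by rw [(hpr q hq).factorization]]
    simp only [Finsupp.single_apply]
    rw [Finset.sum_ite_eq' S p (fun _ => 1)]
  have hfac : ∀ p : ℕ, (n₀ / ∏ p ∈ S, p).factorization p =
      n₀.factorization p - if p ∈ S then 1 else 0 := by
    intro p
    rw [Nat.factorization_div hd, Finsupp.tsub_apply, hDf]
  refine ⟨hd, hpos, ?_, ?_⟩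
  · ext p
    rw [← Nat.support_factorization, Finsupp.mem_support_iff, hfac, Finset.mem_sdiff, ← hpf,
      ← Nat.support_factorization n₀, Finsupp.mem_support_iff]
    by_cases hp : p ∈ S
    · simp [hp, hS1 p hp]
    · simp [hp]
  · intro p hp
    rw [hfac, if_neg (Finset.mem_sdiff.1 hp).2, Nat.sub_zero]

/-- The main inequality of the lower bound. -/
theorem removal_ineq {y δ b : ℝ} {k n₀ m : ℕ} (hk : k = ⌊y⌋₊) (hn₀ : n₀ ≠ 0)
    (hpf : n₀.primeFactors = Nat.primesLE k) {S : Finset ℕ}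
    (hS : ∀ p ∈ S, p.Prime ∧ (1 - δ) * y < p ∧ (p : ℝ) ≤ y)
    (hS1 : ∀ p ∈ S, n₀.factorization p = 1) (hcard : S.card ≤ m)
    (hδ : 0 < δ) (hδ4 : δ ≤ 1 / 4) (hy : 1 ≤ Real.log y) (hy1 : 1 ≤ δ * y)
    (hΛ : |Real.log n₀ - y| ≤ δ * y) (hm : 8 * δ * m / y ≤ y ^ (-b) / 2)
    (hm2 : m * Real.log y ≤ y / 4) {E : ℝ}
    (hE : (Real.log n₀ - theta y) / (y * Real.log y) + 1 / k + E ≤ y ^ (-b) / 2)
    (hJ : y ^ (-b) < JJ y) :
    2 ≤ Real.log (n₀ / ∏ p ∈ S, p : ℕ) ∧ Real.log (n₀ / ∏ p ∈ S, p : ℕ) ≤ 2 * y ∧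
    Real.eulerMascheroniConstant + Real.log (Real.log (Real.log (n₀ / ∏ p ∈ S, p : ℕ))) + E <
      ∑ p ∈ (n₀ / ∏ p ∈ S, p).primeFactors, -Real.log (1 - (p : ℝ)⁻¹) := by
  have hy0 : 0 < y := by
    by_contra hc
    push Not at hc
    nlinarith
  have hy4 : 4 ≤ y := by nlinarith
  have hSk : S ⊆ Nat.primesLE k := fun p hp => by
    obtain ⟨h1, -, h3⟩ := hS p hp
    exact Nat.mem_primesLE.2 ⟨by rw [hk]; exact Nat.le_floor h3, h1⟩
  obtain ⟨hd, hpos, hpf', -⟩ := removal hn₀ hpf hSk hS1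
  have hD0 : (∏ p ∈ S, p) ≠ 0 := prod_ne_zero_iff.2 fun p hp => (hS p hp).1.ne_zero
  have hD0' : ((∏ p ∈ S, p : ℕ) : ℝ) ≠ 0 := by exact_mod_cast hD0
  set Λ := Real.log n₀ with hΛdef
  have hlog : Real.log (n₀ / ∏ p ∈ S, p : ℕ) = Λ - ∑ p ∈ S, Real.log p := by
    rw [Nat.cast_div hd hD0', Real.log_div (by exact_mod_cast hn₀) hD0', Nat.cast_prod,
      Real.log_prod fun p hp => by exact_mod_cast (hS p hp).1.ne_zero]
  have hs0 : 0 ≤ ∑ p ∈ S, Real.log p := sum_nonneg fun p hp =>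
    Real.log_nonneg (by exact_mod_cast (hS p hp).1.one_lt.le)
  have hs1 : ∑ p ∈ S, Real.log p ≤ y / 4 := by
    calc ∑ p ∈ S, Real.log p ≤ ∑ p ∈ S, Real.log y := sum_le_sum fun p hp =>
          Real.log_le_log (by exact_mod_cast (hS p hp).1.pos) (hS p hp).2.2
      _ = S.card * Real.log y := by rw [sum_const, nsmul_eq_mul]
      _ ≤ m * Real.log y := by
          have : (S.card : ℝ) ≤ m := by exact_mod_cast hcard
          exact mul_le_mul_of_nonneg_right this (by linarith)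
      _ ≤ y / 4 := hm2
  have hΛ' := abs_le.1 hΛ
  have hΛ1 : 3 / 4 * y ≤ Λ := by nlinarith [hΛ'.1]
  have hΛ2 : Λ ≤ 5 / 4 * y := by nlinarith [hΛ'.2]
  set s := ∑ p ∈ S, Real.log p with hs
  rw [hlog]
  refine ⟨by linarith, by linarith, ?_⟩
  rw [hpf']
  have hΛ0 : 1 < Λ := by linarith
  have hy2 : 2 ≤ y := by linarith
  obtain ⟨τ, hτ0, hτ1, hM⟩ := mertens_formula hy2
  rw [← hk] at hM hτ1
  have h1 := loglog_tangent (a := Λ - s) (b := Λ) (by linarith) hΛ0
  have h2 := loglog_tangent (a := Λ) (b := y) hΛ0 (by linarith)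
  have h3 : ∑ p ∈ Nat.primesLE k \ S, -Real.log (1 - (p : ℝ)⁻¹) =
      LL k - ∑ p ∈ S, -Real.log (1 - (p : ℝ)⁻¹) := by
    unfold LL
    rw [← sum_sdiff hSk]
    ring
  have h4 : ∑ p ∈ S, (-Real.log (1 - (p : ℝ)⁻¹) - Real.log p / (Λ * Real.log Λ)) ≤
      8 * δ * m / y := by
    calc ∑ p ∈ S, (-Real.log (1 - (p : ℝ)⁻¹) - Real.log p / (Λ * Real.log Λ))
        ≤ ∑ p ∈ S, 8 * δ / y := sum_le_sum fun p hp =>
          prime_cost (hS p hp).1 hδ hδ4 hy hy1 (hS p hp).2.1 (hS p hp).2.2 hΛ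
      _ = S.card * (8 * δ / y) := by rw [sum_const, nsmul_eq_mul]
      _ ≤ m * (8 * δ / y) := by
          have : (S.card : ℝ) ≤ m := by exact_mod_cast hcard
          exact mul_le_mul_of_nonneg_right this (by positivity)
      _ = _ := by ring
  rw [sum_sub_distrib, ← sum_div, ← hs] at h4
  have h5 : (Λ - s - Λ) / (Λ * Real.log Λ) = -(s / (Λ * Real.log Λ)) := by ring
  rw [h5] at h1
  have h6 : (Λ - theta y) / (y * Real.log y) =
      (Λ - y) / (y * Real.log y) - (y * Real.log y)⁻¹ * (theta y - y) := by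
    rw [inv_mul_eq_div]; ring
  rw [h6] at hE
  rw [h3, hM]
  linarith

end Pool.Agent.U334.RN
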