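import Mathlib
import Pool.Agent.U334.RN.Up

set_option autoImplicit false

/-! The upper bound for the number of failures of Nicolas' inequality: the count. -/

namespace Pool.Agent.U334.RN

open Real Finset MeasureTheory Filter Topology Chebyshev

/-- product of the primes `≤ k` not dividing `n` -/
def DD (k n : ℕ) : ℕ := ∏ p ∈ AA k n, p

/-- product of the primes `≤ k` dividing `n` -/
def QQ (k n : ℕ) : ℕ := ∏ p ∈ PP k n, p

lemma QQ_DD (k n : ℕ) : QQ k n * DD k n = ∏ p ∈ Nat.primesLE k, p := by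
  unfold QQ DD PP AA
  exact prod_filter_mul_prod_filter_not _ _ _

lemma DD_pos (k n : ℕ) : 0 < DD k n :=
  prod_pos fun _ hp => (Nat.mem_primesLE.1 (mem_filter.1 hp).1).2.pos

lemma QQ_pos (k n : ℕ) : 0 < QQ k n :=
  prod_pos fun _ hp => (Nat.mem_primesLE.1 (mem_filter.1 hp).1).2.pos

lemma QQ_dvd (k n : ℕ) : QQ k n ∣ n :=
  Finset.prod_primes_dvd n (fun p hp => (Nat.mem_primesLE.1 (mem_filter.1 hp).1).2.prime)
    (fun p hp => (mem_filter.1 hp).2)

lemma log_prod_nat {s : Finset ℕ} (hs : ∀ p ∈ s, p ≠ 0) :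
    Real.log ((∏ p ∈ s, p : ℕ) : ℝ) = ∑ p ∈ s, Real.log p := by
  rw [Nat.cast_prod, Real.log_prod fun p hp => by exact_mod_cast hs p hp]

lemma log_QQ (k n : ℕ) : Real.log (QQ k n) + Real.log (DD k n) = theta k := by
  rw [← Real.log_mul (by exact_mod_cast (QQ_pos k n).ne') (by exact_mod_cast (DD_pos k n).ne'),
    ← Nat.cast_mul, QQ_DD, theta_eq_sum_primesLE_log,
    log_prod_nat fun p hp => (Nat.mem_primesLE.1 hp).2.ne_zero]

lemma count_bound {X a E : ℝ} (hX : 1 ≤ X) (S : Finset ℕ)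
    (hS : ∀ n ∈ S, 8 ≤ n ∧ Real.log n ≤ X ∧ ((AA ⌊Real.log n⌋₊ n).card : ℝ) ≤ a ∧
      Real.log n - theta (Real.log n) ≤ E) :
    (S.card : ℝ) ≤ (X + 1) * (Real.exp (a * Real.log X) + 1) *
      (Real.exp (a * Real.log X + E) + 1) := by
  have hlX : 0 ≤ Real.log X := Real.log_nonneg hX
  set D0 := ⌊Real.exp (a * Real.log X)⌋₊ with hD0
  set M0 := ⌊Real.exp (a * Real.log X + E)⌋₊ with hM0
  have hD : ∀ n ∈ S, Real.log (DD ⌊Real.log n⌋₊ n) ≤ a * Real.log X := fun n hn => by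
    obtain ⟨h1, h2, h3, -⟩ := hS n hn
    have hy2 := log_ge_two h1
    unfold DD
    rw [log_prod_nat (s := AA ⌊Real.log n⌋₊ n)
      fun p hp => (Nat.mem_primesLE.1 (mem_filter.1 hp).1).2.ne_zero]
    calc ∑ p ∈ AA ⌊Real.log n⌋₊ n, Real.log p ≤ ∑ p ∈ AA ⌊Real.log n⌋₊ n, Real.log X := by
          refine sum_le_sum fun p hp => ?_
          have := Nat.mem_primesLE.1 (mem_filter.1 hp).1
          have hp0 : (0 : ℝ) < p := by exact_mod_cast this.2.pos
          refine Real.log_le_log hp0 (le_trans ?_ h2)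
          exact le_trans (by exact_mod_cast this.1) (Nat.floor_le (by linarith))
      _ = ((AA ⌊Real.log n⌋₊ n).card : ℝ) * Real.log X := by rw [sum_const, nsmul_eq_mul]
      _ ≤ a * Real.log X := mul_le_mul_of_nonneg_right h3 hlX
  have key : S.card ≤ ((range (⌊X⌋₊ + 1)) ×ˢ ((range (D0 + 1)) ×ˢ (range (M0 + 1)))).card := by
    refine card_le_card_of_injOn (fun n => (⌊Real.log n⌋₊, DD ⌊Real.log n⌋₊ n,
      n / QQ ⌊Real.log n⌋₊ n)) (fun n hn => ?_) (fun n hn m hm hnm => ?_)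
    · obtain ⟨h1, h2, h3, h4⟩ := hS n hn
      have hy2 := log_ge_two h1
      simp only [coe_product, coe_range, Set.mem_prod, Set.mem_Iio, Nat.lt_succ_iff]
      refine ⟨Nat.floor_le_floor h2, ?_, ?_⟩
      · refine Nat.le_floor ?_
        rw [← Real.log_le_iff_le_exp (by exact_mod_cast DD_pos _ _)]
        exact hD n hn
      · refine Nat.le_floor ?_
        have hd := QQ_dvd ⌊Real.log n⌋₊ n
        have hq := QQ_pos ⌊Real.log n⌋₊ n
        have hpos : 0 < n / QQ ⌊Real.log n⌋₊ n :=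
          Nat.div_pos (Nat.le_of_dvd (by omega) hd) hq
        rw [← Real.log_le_iff_le_exp (by exact_mod_cast hpos), Nat.cast_div hd
          (by exact_mod_cast hq.ne'), Real.log_div (by exact_mod_cast (by omega : n ≠ 0))
          (by exact_mod_cast hq.ne')]
        have h5 := log_QQ ⌊Real.log n⌋₊ n
        rw [← theta_eq_theta_coe_floor] at h5
        have h6 := hD n hn
        linarith
    · simp only [Prod.mk.injEq] at hnm
      obtain ⟨e1, e2, e3⟩ := hnm
      have hq := QQ_DD ⌊Real.log n⌋₊ n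
      have hq' := QQ_DD ⌊Real.log m⌋₊ m
      rw [← e1] at hq' e2 e3
      rw [← e2, ← hq] at hq'
      have e4 : QQ ⌊Real.log n⌋₊ m = QQ ⌊Real.log n⌋₊ n :=
        Nat.eq_of_mul_eq_mul_right (DD_pos _ _) hq'
      rw [e4] at e3
      have hd := QQ_dvd ⌊Real.log n⌋₊ n
      have hd' := QQ_dvd ⌊Real.log n⌋₊ m
      rw [e4] at hd'
      rw [← Nat.div_mul_cancel hd, e3, Nat.div_mul_cancel hd']
  rw [card_product, card_product, card_range, card_range, card_range] at key
  have key' : (S.card : ℝ) ≤ (⌊X⌋₊ + 1 : ℝ) * ((D0 + 1) * (M0 + 1)) := by exact_mod_cast key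
  have b1 : (⌊X⌋₊ : ℝ) ≤ X := Nat.floor_le (by linarith)
  have b2 : (D0 : ℝ) ≤ Real.exp (a * Real.log X) := Nat.floor_le (Real.exp_pos _).le
  have b3 : (M0 : ℝ) ≤ Real.exp (a * Real.log X + E) := Nat.floor_le (Real.exp_pos _).le
  calc (S.card : ℝ) ≤ (⌊X⌋₊ + 1 : ℝ) * ((D0 + 1) * (M0 + 1)) := key'
    _ ≤ (X + 1) * ((Real.exp (a * Real.log X) + 1) * (Real.exp (a * Real.log X + E) + 1)) := by
        gcongr
    _ = _ := by ring

lemma ka_le {t : ℝ} (ht : 2 ≤ t) : ka t ≤ 6 * (t ^ 2)⁻¹ := by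
  have hL := log_ge_half ht
  have hL0 : 0 < Real.log t := by linarith
  have ht0 : 0 < t := by linarith
  unfold ka
  rw [div_le_iff₀ (by positivity)]
  have : 6 * (t ^ 2)⁻¹ * (t * Real.log t) ^ 2 = 6 * Real.log t ^ 2 := by
    field_simp
  rw [this]
  nlinarith

theorem JJ_le_rpow {C θ' : ℝ} (hC : 0 ≤ C) (h1 : θ' < 1)
    (h : ∀ t : ℝ, 2 ≤ t → |theta t - t| ≤ C * t ^ θ') {y : ℝ} (hy : 2 ≤ y) :
    |JJ y| ≤ 6 * C / (1 - θ') * y ^ (θ' - 1) := by
  have hi := integrableOn_Ioi_rpow_of_lt (a := θ' - 2) (by linarith) (by linarith : 0 < y)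
  have hv := integral_Ioi_rpow_of_lt (a := θ' - 2) (by linarith) (by linarith : 0 < y)
  have h2 : |JJ y| ≤ ∫ t in Set.Ioi y, 6 * C * t ^ (θ' - 2) := by
    unfold JJ
    rw [← Real.norm_eq_abs]
    refine norm_integral_le_of_norm_le (hi.const_mul _) ?_
    refine (ae_restrict_iff' measurableSet_Ioi).2 (Eventually.of_forall fun t ht => ?_)
    have ht2 : 2 ≤ t := hy.trans (le_of_lt ht)
    have ht0 : 0 < t := by linarith
    unfold gg
    rw [Real.norm_eq_abs, abs_mul, abs_of_nonneg (ka_nonneg (by linarith)), abs_sub_comm]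
    calc |theta t - t| * ka t ≤ (C * t ^ θ') * (6 * (t ^ 2)⁻¹) :=
          mul_le_mul (h t ht2) (ka_le ht2) (ka_nonneg (by linarith)) (by positivity)
      _ = 6 * C * t ^ (θ' - 2) := by
          rw [Real.rpow_sub ht0, ← Real.rpow_natCast t 2]
          push_cast
          rw [div_eq_mul_inv]
          ring
  rw [integral_const_mul, hv] at h2
  refine h2.trans (le_of_eq ?_)
  have e : θ' - 2 + 1 = θ' - 1 := by ring
  rw [e]
  have h3 : θ' - 1 ≠ 0 := by linarith
  have h4 : 1 - θ' ≠ 0 := by linarith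
  have h5 : -y ^ (θ' - 1) / (θ' - 1) = y ^ (θ' - 1) / (1 - θ') := by
    rw [div_eq_div_iff h3 h4]; ring
  rw [h5]
  ring

/-- the number of `n ≤ x` failing Nicolas' inequality -/
noncomputable def NN (x : ℝ) : ℕ := by
  classical exact ((Finset.Icc 3 ⌊x⌋₊).filter fun n => Vio n).card

theorem NN_le_of_theta {C θ' : ℝ} (hC : 0 ≤ C) (h0 : 0 ≤ θ') (h1 : θ' < 1)
    (h : ∀ t : ℝ, 2 ≤ t → |theta t - t| ≤ C * t ^ θ') :
    ∃ C' : ℝ, 0 < C' ∧ ∀ x : ℝ, Real.exp 3 ≤ x → (NN x : ℝ) ≤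
      Real.exp (2 * Real.log (Real.log x) + 2 * C' * (Real.log x) ^ ((1 + θ') / 2) *
        Real.log (Real.log x) + C * (Real.log x) ^ θ' + 4) := by
  classical
  set C1 : ℝ := 6 * C / (1 - θ') + 2 with hC1
  have hC1p : 0 < C1 := by
    have : 0 ≤ 6 * C / (1 - θ') := div_nonneg (by positivity) (by linarith)
    linarith
  refine ⟨2 * √C1 + 1, by positivity, fun x hx => ?_⟩
  have hx0 : 0 < x := lt_of_lt_of_le (Real.exp_pos _) hx
  set X := Real.log x with hX
  have hX3 : 3 ≤ X := (Real.le_log_iff_exp_le hx0).2 hx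
  have hlX : 0 ≤ Real.log X := Real.log_nonneg (by linarith)
  set S := (Finset.Icc 8 ⌊x⌋₊).filter fun n => Vio n with hSdef
  set a : ℝ := (2 * √C1 + 1) * X ^ ((1 + θ') / 2) with ha
  have hcard : NN x ≤ 5 + S.card := by
    unfold NN
    have hsub : ((Finset.Icc 3 ⌊x⌋₊).filter fun n => Vio n) ⊆ (Finset.Icc 3 7) ∪ S := by
      intro n hn
      rw [mem_filter, mem_Icc] at hn
      rw [mem_union, hSdef, mem_filter, mem_Icc, mem_Icc]
      by_cases h8 : 8 ≤ n
      · exact Or.inr ⟨⟨h8, hn.1.2⟩, hn.2⟩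
      · exact Or.inl ⟨hn.1.1, by omega⟩
    refine (card_le_card hsub).trans ((card_union_le _ _).trans ?_)
    simp
  have hS : ∀ n ∈ S, 8 ≤ n ∧ Real.log n ≤ X ∧ ((AA ⌊Real.log n⌋₊ n).card : ℝ) ≤ a ∧
      Real.log n - theta (Real.log n) ≤ C * X ^ θ' := by
    intro n hn
    rw [hSdef, mem_filter, mem_Icc] at hn
    obtain ⟨⟨h8, hnx⟩, hv⟩ := hn
    have hn0 : (0 : ℝ) < n := by exact_mod_cast (by omega : 0 < n)
    have hnx' : (n : ℝ) ≤ x := le_trans (by exact_mod_cast hnx) (Nat.floor_le hx0.le)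
    have hlog : Real.log n ≤ X := Real.log_le_log hn0 hnx'
    have hy2 := log_ge_two h8
    set y := Real.log n with hy
    have hy0 : 0 < y := by linarith
    refine ⟨h8, hlog, ?_, ?_⟩
    · have hk : y / 2 ≤ ⌊y⌋₊ := by
        have h3 := Nat.lt_floor_add_one y
        have h4 : (2 : ℝ) ≤ ⌊y⌋₊ := by
          exact_mod_cast (Nat.le_floor (by exact_mod_cast hy2) : 2 ≤ ⌊y⌋₊)
        linarith
      have hk' : 1 / (⌊y⌋₊ : ℝ) ≤ 2 * y ^ (θ' - 1) := by
        have h3 : 1 / (⌊y⌋₊ : ℝ) ≤ 1 / (y / 2) := one_div_le_one_div_of_le (by linarith) hk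
        have h4 : 1 / (y / 2) = 2 * y ^ (-1 : ℝ) := by
          rw [Real.rpow_neg_one]; field_simp
        have h5 : y ^ (-1 : ℝ) ≤ y ^ (θ' - 1) :=
          Real.rpow_le_rpow_of_exponent_le (by linarith) (by linarith)
        linarith
      have hη : JJ y + 1 / ⌊y⌋₊ ≤ (√C1 * y ^ ((θ' - 1) / 2)) ^ 2 := by
        have h3 := JJ_le_rpow hC h1 h hy2
        have h4 := le_abs_self (JJ y)
        have h5 : (√C1 * y ^ ((θ' - 1) / 2)) ^ 2 = C1 * y ^ (θ' - 1) := by
          rw [mul_pow, Real.sq_sqrt hC1p.le, ← Real.rpow_natCast, ← Real.rpow_mul hy0.le]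
          congr 2
          push_cast
          ring
        rw [h5, hC1, add_mul]
        linarith
      have h3 := AA_card_le h8 hv (s := √C1 * y ^ ((θ' - 1) / 2)) (by positivity) hη
      rw [← hy] at h3
      have h4 : 2 * (√C1 * y ^ ((θ' - 1) / 2)) * y = 2 * √C1 * y ^ ((1 + θ') / 2) := by
        have : y ^ ((1 + θ') / 2) = y ^ ((θ' - 1) / 2) * y := by
          rw [← Real.rpow_add_one hy0.ne']
          congr 1
          ring
        rw [this]; ring
      have h5 : y ^ ((1 + θ') / 2) ≤ X ^ ((1 + θ') / 2) :=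
        Real.rpow_le_rpow hy0.le hlog (by linarith)
      have h6 : 1 ≤ X ^ ((1 + θ') / 2) := Real.one_le_rpow (by linarith) (by linarith)
      rw [h4] at h3
      calc ((AA ⌊y⌋₊ n).card : ℝ) ≤ 2 * √C1 * y ^ ((1 + θ') / 2) + 1 := h3
        _ ≤ 2 * √C1 * X ^ ((1 + θ') / 2) + X ^ ((1 + θ') / 2) := by gcongr
        _ = a := by rw [ha]; ring
    · have h3 := h y hy2
      rw [abs_sub_comm] at h3
      have h4 := le_abs_self (y - theta y)
      have h5 : y ^ θ' ≤ X ^ θ' := Real.rpow_le_rpow hy0.le hlog h0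
      have h6 : C * y ^ θ' ≤ C * X ^ θ' := mul_le_mul_of_nonneg_left h5 hC
      linarith
  have hb := count_bound (by linarith : 1 ≤ X) S hS
  have ha0 : 0 ≤ a := by positivity
  have hu : 0 ≤ a * Real.log X := by positivity
  have hE : 0 ≤ C * X ^ θ' := by positivity
  have e1 : ∀ u : ℝ, 0 ≤ u → Real.exp u + 1 ≤ Real.exp (u + 1) := fun u hu => by
    have h3 : 1 ≤ Real.exp u := Real.one_le_exp hu
    have h4 : 2 ≤ Real.exp 1 := by have := Real.add_one_le_exp (1 : ℝ); linarith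
    rw [Real.exp_add]
    nlinarith
  have e2 : X + 1 ≤ Real.exp (2 * Real.log X) := by
    have : Real.exp (2 * Real.log X) = X ^ 2 := by
      rw [mul_comm, Real.exp_mul, Real.exp_log (by linarith)]
      norm_num
    rw [this]
    nlinarith
  have e3 : (S.card : ℝ) ≤ Real.exp (2 * Real.log X + 2 * a * Real.log X + C * X ^ θ' + 2) := by
    calc (S.card : ℝ) ≤ (X + 1) * (Real.exp (a * Real.log X) + 1) *
          (Real.exp (a * Real.log X + C * X ^ θ') + 1) := hb
      _ ≤ Real.exp (2 * Real.log X) * Real.exp (a * Real.log X + 1) *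
          Real.exp (a * Real.log X + C * X ^ θ' + 1) := by
          have h3 := e1 _ hu
          have h4 := e1 (a * Real.log X + C * X ^ θ') (by positivity)
          gcongr
      _ = _ := by
          rw [← Real.exp_add, ← Real.exp_add]
          congr 1
          ring
  have e4 : (NN x : ℝ) ≤ 5 + S.card := by exact_mod_cast hcard
  set v := 2 * Real.log X + 2 * a * Real.log X + C * X ^ θ' + 2 with hv
  have hv0 : 0 ≤ v := by positivity
  have e5 : 5 + Real.exp v ≤ Real.exp (v + 2) := by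
    rw [Real.exp_add v 2]
    have h3 : 1 ≤ Real.exp v := Real.one_le_exp hv0
    have h4 : 6 ≤ Real.exp 2 := by
      have h5 := Real.exp_one_gt_d9
      have h6 : Real.exp 2 = Real.exp 1 * Real.exp 1 := by
        rw [← Real.exp_add]; norm_num
      rw [h6]; nlinarith
    nlinarith
  calc (NN x : ℝ) ≤ Real.exp (v + 2) := by linarith
    _ = _ := by
        congr 1
        rw [hv, ha]
        ring

lemma rpow_lo {a b : ℝ} (h : a < b) : (fun X : ℝ => X ^ a) =o[atTop] fun X => X ^ b := by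
  refine Asymptotics.isLittleO_of_tendsto' ?_ ?_
  · filter_upwards [eventually_gt_atTop 0] with X hX h0
    exact absurd h0 (Real.rpow_pos_of_pos hX b).ne'
  · refine (tendsto_rpow_neg_atTop (y := b - a) (by linarith)).congr' ?_
    filter_upwards [eventually_gt_atTop 0] with X hX
    rw [← Real.rpow_sub hX]
    congr 1
    ring

theorem NN_le_exp {C θ' ε : ℝ} (hC : 0 ≤ C) (h0 : 0 ≤ θ') (h1 : θ' < 1) (hε : 0 < ε)
    (h : ∀ t : ℝ, 2 ≤ t → |theta t - t| ≤ C * t ^ θ') :
    ∀ᶠ x : ℝ in atTop, (NN x : ℝ) ≤ Real.exp ((Real.log x) ^ ((1 + θ') / 2 + ε)) := by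
  obtain ⟨C', hC', hb⟩ := NN_le_of_theta hC h0 h1 h
  set α := (1 + θ') / 2 with hα
  have hα0 : 0 < α := by rw [hα]; linarith
  have l1 : (fun X : ℝ => 2 * Real.log X) =o[atTop] fun X => X ^ (α + ε) :=
    (isLittleO_log_rpow_atTop (by positivity)).const_mul_left 2
  have l2 : (fun X : ℝ => 2 * C' * X ^ α * Real.log X) =o[atTop] fun X => X ^ (α + ε) := by
    have h2 : (fun X : ℝ => X ^ α * Real.log X) =o[atTop] fun X => X ^ α * X ^ ε :=
      (Asymptotics.isBigO_refl _ _).mul_isLittleO (isLittleO_log_rpow_atTop hε)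
    have h3 : (fun X : ℝ => X ^ α * X ^ ε) =ᶠ[atTop] fun X => X ^ (α + ε) := by
      filter_upwards [eventually_gt_atTop 0] with X hX
      rw [Real.rpow_add hX]
    refine ((h2.congr' EventuallyEq.rfl h3).const_mul_left (2 * C')).congr_left fun X => ?_
    ring
  have l3 : (fun X : ℝ => C * X ^ θ') =o[atTop] fun X => X ^ (α + ε) := by
    refine Asymptotics.IsLittleO.const_mul_left ?_ C
    exact rpow_lo (by rw [hα]; linarith)
  have l4 : (fun _ : ℝ => (4 : ℝ)) =o[atTop] fun X => X ^ (α + ε) := by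
    refine Asymptotics.isLittleO_const_left.2 (Or.inr ?_)
    exact tendsto_norm_atTop_atTop.comp (tendsto_rpow_atTop (by positivity))
  have l5 := (((l1.add l2).add l3).add l4).def (c := 1) one_pos
  have l6 := Real.tendsto_log_atTop.eventually l5
  filter_upwards [l6, eventually_ge_atTop (Real.exp 3)] with x hx hx3
  have hx0 : 0 < x := lt_of_lt_of_le (Real.exp_pos _) hx3
  have hX3 : 3 ≤ Real.log x := (Real.le_log_iff_exp_le hx0).2 hx3
  refine (hb x hx3).trans (Real.exp_le_exp.2 ?_)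
  rw [one_mul, Real.norm_eq_abs, Real.norm_eq_abs,
    abs_of_nonneg (Real.rpow_nonneg (by linarith) _)] at hx
  exact (le_abs_self _).trans hx

end Pool.Agent.U334.RN
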