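import Mathlib
import Pool.Agent.U334.RN.Low
import Pool.Agent.U334.RN.Up2

set_option autoImplicit false

/-! Many failures of the inequalities of Nicolas and Robin: the count. -/

namespace Pool.Agent.U334.RN

open Real Finset MeasureTheory Filter Topology Chebyshev

/-- failure of Robin's inequality -/
def Rob (n : ℕ) : Prop :=
  Real.exp Real.eulerMascheroniConstant * n * Real.log (Real.log n) ≤ ∑ d ∈ n.divisors, (d : ℝ)

/-- the number of `n ≤ x` failing Robin's inequality -/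
noncomputable def VV (x : ℝ) : ℕ := by
  classical exact ((Finset.Icc 3 ⌊x⌋₊).filter fun n => Rob n).card

/-- `σ(n)/n` -/
lemma log_sigma {n : ℕ} (hn : n ≠ 0) : Real.log (∑ d ∈ n.divisors, (d : ℝ)) - Real.log n =
    ∑ p ∈ n.primeFactors, (-Real.log (1 - (p : ℝ)⁻¹) +
      Real.log (1 - ((p : ℝ) ^ (n.factorization p + 1))⁻¹)) := by
  have h1 := Nat.sum_divisors hn
  have h2 : (∑ d ∈ n.divisors, (d : ℝ)) =
      ∏ p ∈ n.primeFactors, ∑ k ∈ range (n.factorization p + 1), (p : ℝ) ^ k := by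
    have h1' := congrArg (Nat.cast : ℕ → ℝ) h1
    push_cast at h1'
    exact h1'
  have h3 : (n : ℝ) = ∏ p ∈ n.primeFactors, (p : ℝ) ^ (n.factorization p) := by
    have := Nat.prod_factorization_pow_eq_self hn
    rw [Nat.prod_factorization_eq_prod_primeFactors] at this
    exact_mod_cast this.symm
  have hpp : ∀ p ∈ n.primeFactors, (1 : ℝ) < p := fun p hp => by
    exact_mod_cast (Nat.prime_of_mem_primeFactors hp).one_lt
  have hg : ∀ p ∈ n.primeFactors, ∑ k ∈ range (n.factorization p + 1), (p : ℝ) ^ k =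
      ((p : ℝ) ^ (n.factorization p + 1) - 1) / (p - 1) := fun p hp =>
    geom_sum_eq (hpp p hp).ne' _
  have hpos : ∀ p ∈ n.primeFactors, 0 < ∑ k ∈ range (n.factorization p + 1), (p : ℝ) ^ k :=
    fun p hp => sum_pos (fun k _ => by have := hpp p hp; positivity) ⟨0, by simp⟩
  rw [h2, Real.log_prod fun p hp => (hpos p hp).ne']
  conv_lhs => rw [h3]
  rw [Real.log_prod fun p hp => by have := hpp p hp; positivity, ← sum_sub_distrib]
  refine sum_congr rfl fun p hp => ?_
  have hp1 := hpp p hp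
  have hp0 : 0 < (p : ℝ) := by linarith
  have hg' := hg p hp
  set a := n.factorization p with ha
  have e1 : 0 < 1 - (p : ℝ)⁻¹ := one_sub_inv_pos (Nat.prime_of_mem_primeFactors hp)
  have hpa : 1 < (p : ℝ) ^ (a + 1) := one_lt_pow₀ hp1 (Nat.succ_ne_zero a)
  have e2 : 0 < 1 - ((p : ℝ) ^ (a + 1))⁻¹ := by
    have := inv_lt_one_of_one_lt₀ hpa
    linarith
  rw [hg', ← Real.log_div (div_pos (by linarith) (by linarith)).ne' (by positivity),
    neg_add_eq_sub, ← Real.log_div e2.ne' e1.ne']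
  congr 1
  have e3 : (p : ℝ) - 1 ≠ 0 := by linarith
  field_simp
  try ring

/-- the loss in the passage from `n/φ(n)` to `σ(n)/n` -/
lemma sigma_loss {k : ℕ} (hk : 1 ≤ k) :
    ∑ p ∈ Nat.primesLE k, ((p : ℝ) ^ (p.log k + 1))⁻¹ ≤ 3 / √k := by
  set r := Nat.sqrt k with hr
  have hr1 : 1 ≤ r := Nat.sqrt_pos.2 hk
  have hk0 : (0 : ℝ) < k := by exact_mod_cast hk
  have hsk : 0 < √(k : ℝ) := Real.sqrt_pos.2 hk0
  have hrk : r ≤ k := Nat.sqrt_le_self k
  have hterm1 : ∀ p : ℕ, p.Prime → ((p : ℝ) ^ (p.log k + 1))⁻¹ ≤ 1 / k := fun p hp => by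
    rw [one_div]
    refine inv_anti₀ hk0 ?_
    exact_mod_cast (Nat.lt_pow_succ_log_self hp.one_lt k).le
  have hterm2 : ∀ p ∈ Nat.primesLE k, ((p : ℝ) ^ (p.log k + 1))⁻¹ ≤
      1 / ((p : ℝ) - 1) - 1 / p := fun p hp => by
    obtain ⟨h1, h2⟩ := Nat.mem_primesLE.1 hp
    have hp1 : (1 : ℝ) < p := by exact_mod_cast h2.one_lt
    have hlog : 1 ≤ p.log k := Nat.log_pos h2.one_lt h1
    have h3 : (p : ℝ) ^ 2 ≤ (p : ℝ) ^ (p.log k + 1) := pow_le_pow_right₀ hp1.le (by omega)
    have h4 : 1 / ((p : ℝ) - 1) - 1 / p = 1 / (((p : ℝ) - 1) * p) := by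
      have : (p : ℝ) - 1 ≠ 0 := by linarith
      have : (p : ℝ) ≠ 0 := by linarith
      field_simp
      ring
    rw [h4, one_div]
    refine inv_anti₀ (mul_pos (by linarith) (by linarith)) ?_
    nlinarith
  have hsplit : Nat.primesLE k = Nat.primesLE r ∪ (Ioc r k).filter Nat.Prime := by
    ext p
    simp only [mem_union, mem_filter, mem_Ioc, Nat.mem_primesLE]
    constructor
    · rintro ⟨h1, h2⟩
      by_cases h3 : p ≤ r
      · exact Or.inl ⟨h3, h2⟩
      · exact Or.inr ⟨⟨by omega, h1⟩, h2⟩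
    · rintro (⟨h1, h2⟩ | ⟨⟨h1, h2⟩, h3⟩)
      · exact ⟨h1.trans hrk, h2⟩
      · exact ⟨h2, h3⟩
  have hd : Disjoint (Nat.primesLE r) ((Ioc r k).filter Nat.Prime) := by
    rw [Finset.disjoint_left]
    intro p hp hp'
    have h1 := (Nat.mem_primesLE.1 hp).1
    have h2 := (mem_Ioc.1 (mem_filter.1 hp').1).1
    omega
  rw [hsplit, sum_union hd]
  have hr2 : (r : ℝ) ≤ √k := by
    refine Real.le_sqrt_of_sq_le ?_
    exact_mod_cast Nat.sqrt_le' k
  have hr3 : √k ≤ 2 * r := by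
    have h1 : √(k : ℝ) ≤ r + 1 := by
      refine Real.sqrt_le_iff.2 ⟨by positivity, ?_⟩
      exact_mod_cast (Nat.lt_succ_sqrt' k).le
    have h2 : (1 : ℝ) ≤ r := by exact_mod_cast hr1
    linarith
  have hsq : √(k : ℝ) * √k = k := Real.mul_self_sqrt hk0.le
  have b1 : ∑ p ∈ Nat.primesLE r, ((p : ℝ) ^ (p.log k + 1))⁻¹ ≤ 1 / √k := by
    calc ∑ p ∈ Nat.primesLE r, ((p : ℝ) ^ (p.log k + 1))⁻¹ ≤ ∑ p ∈ Nat.primesLE r, (1 : ℝ) / k :=
          sum_le_sum fun p hp => hterm1 p (Nat.mem_primesLE.1 hp).2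
      _ = (Nat.primesLE r).card * (1 / (k : ℝ)) := by rw [sum_const, nsmul_eq_mul]
      _ ≤ r * (1 / (k : ℝ)) := by
          have h1 : (Nat.primesLE r).card ≤ r := by
            rw [Nat.primesLE_eq_filter_Icc_one]
            refine (card_filter_le _ _).trans ?_
            simp
          have : ((Nat.primesLE r).card : ℝ) ≤ r := by exact_mod_cast h1
          exact mul_le_mul_of_nonneg_right this (by positivity)
      _ ≤ 1 / √k := by
          rw [mul_one_div, div_le_div_iff₀ hk0 hsk, one_mul]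
          calc (r : ℝ) * √k ≤ √k * √k := mul_le_mul_of_nonneg_right hr2 hsk.le
            _ = k := hsq
  have b2 : ∑ p ∈ (Ioc r k).filter Nat.Prime, ((p : ℝ) ^ (p.log k + 1))⁻¹ ≤ 2 / √k := by
    calc ∑ p ∈ (Ioc r k).filter Nat.Prime, ((p : ℝ) ^ (p.log k + 1))⁻¹
        ≤ ∑ p ∈ (Ioc r k).filter Nat.Prime, (1 / ((p : ℝ) - 1) - 1 / p) :=
          sum_le_sum fun p hp => by
            rw [mem_filter, mem_Ioc] at hp
            exact hterm2 p (Nat.mem_primesLE.2 ⟨hp.1.2, hp.2⟩)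
      _ ≤ ∑ p ∈ Ioc r k, (1 / ((p : ℝ) - 1) - 1 / p) := by
          refine sum_le_sum_of_subset_of_nonneg (filter_subset _ _) fun p hp _ => ?_
          have hp2 : 2 ≤ p := by have := (mem_Ioc.1 hp).1; omega
          exact (ee_nonneg hp2).trans (ee_le hp2)
      _ = 1 / r - 1 / k := sum_tele hr1 hrk
      _ ≤ 1 / r := by
          have : (0 : ℝ) ≤ 1 / k := by positivity
          linarith
      _ ≤ 2 / √k := by
          have hr0 : (0 : ℝ) < r := by exact_mod_cast hr1
          rw [div_le_div_iff₀ hr0 hsk]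
          linarith
  have : 3 / √(k : ℝ) = 1 / √k + 2 / √k := by ring
  linarith

lemma log_one_sub_ge {x : ℝ} (h0 : 0 ≤ x) (h1 : x ≤ 1 / 2) : -(2 * x) ≤ Real.log (1 - x) := by
  have h := Real.log_le_sub_one_of_pos (x := (1 - x)⁻¹) (inv_pos.2 (by linarith))
  rw [Real.log_inv] at h
  have h2 : (1 - x)⁻¹ ≤ 1 + 2 * x := by
    rw [inv_le_comm₀ (by linarith) (by linarith), inv_le_iff_one_le_mul₀ (by linarith)]
    nlinarith
  linarith

/-- every failure of Robin's inequality is a failure of Nicolas' inequality -/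
lemma rob_vio {n : ℕ} (hn : 3 ≤ n) (h : Rob n) : Vio n := by
  unfold Rob at h
  unfold Vio
  have hn0 : (0 : ℝ) < n := by exact_mod_cast (by omega : 0 < n)
  have ht : (0 : ℝ) < Nat.totient n := by exact_mod_cast Nat.totient_pos.2 (by omega)
  have hS : (0 : ℝ) < ∑ d ∈ n.divisors, (d : ℝ) :=
    sum_pos (fun d hd => by exact_mod_cast Nat.pos_of_mem_divisors hd)
      ⟨1, Nat.one_mem_divisors.2 (by omega)⟩
  -- `σ(n) φ(n) < n^2`
  have h1 : Real.log (∑ d ∈ n.divisors, (d : ℝ)) - Real.log n <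
      Real.log n - Real.log (Nat.totient n) := by
    rw [log_sigma (by omega), log_ratio (by omega)]
    refine sum_lt_sum_of_nonempty ⟨n.minFac, ?_⟩ fun p hp => ?_
    · exact Nat.mem_primeFactors.2 ⟨Nat.minFac_prime (by omega), Nat.minFac_dvd n, by omega⟩
    · have hp1 : (1 : ℝ) < p := by exact_mod_cast (Nat.prime_of_mem_primeFactors hp).one_lt
      have hpa : 1 < (p : ℝ) ^ (n.factorization p + 1) := one_lt_pow₀ hp1 (Nat.succ_ne_zero _)
      have h2 := inv_lt_one_of_one_lt₀ hpa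
      have h3 : 0 < ((p : ℝ) ^ (n.factorization p + 1))⁻¹ := by positivity
      have h4 : Real.log (1 - ((p : ℝ) ^ (n.factorization p + 1))⁻¹) < 0 :=
        Real.log_neg (by linarith) (by linarith)
      linarith
  have h2 : (∑ d ∈ n.divisors, (d : ℝ)) * Nat.totient n < n * n := by
    rw [← Real.log_lt_log_iff (by positivity) (by positivity), Real.log_mul hS.ne' ht.ne',
      Real.log_mul hn0.ne' hn0.ne']
    linarith
  have h3 : (Real.exp Real.eulerMascheroniConstant * n * Real.log (Real.log n)) *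
      Nat.totient n ≤ (∑ d ∈ n.divisors, (d : ℝ)) * Nat.totient n :=
    mul_le_mul_of_nonneg_right h ht.le
  have h4 : n * (Real.exp Real.eulerMascheroniConstant * Real.log (Real.log n) *
      Nat.totient n) < n * n := by
    calc n * (Real.exp Real.eulerMascheroniConstant * Real.log (Real.log n) *
        Nat.totient n) = (Real.exp Real.eulerMascheroniConstant * n * Real.log (Real.log n)) *
          Nat.totient n := by ring
      _ < _ := lt_of_le_of_lt h3 h2
  exact lt_of_mul_lt_mul_left h4 hn0.le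

lemma VV_le_NN (x : ℝ) : VV x ≤ NN x := by
  classical
  unfold VV NN
  refine card_le_card fun n hn => ?_
  rw [mem_filter, mem_Icc] at hn ⊢
  exact ⟨hn.1, rob_vio hn.1.1 hn.2⟩

/-- an upper bound for `loglog log n` gives a failure of Nicolas' inequality -/
lemma vio_of {n : ℕ} (hn : 1 ≤ n) (h2 : 2 ≤ Real.log n)
    (h : Real.eulerMascheroniConstant + Real.log (Real.log (Real.log n)) <
      ∑ p ∈ n.primeFactors, -Real.log (1 - (p : ℝ)⁻¹)) : Vio n := by
  rw [← log_ratio hn] at h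
  have hn0 : (0 : ℝ) < n := by exact_mod_cast hn
  have ht : (0 : ℝ) < Nat.totient n := by exact_mod_cast Nat.totient_pos.2 hn
  have hl : 0 < Real.log (Real.log n) := Real.log_pos (by linarith)
  unfold Vio
  rw [← Real.log_lt_log_iff (by positivity) hn0, Real.log_mul (by positivity) ht.ne',
    Real.log_mul (Real.exp_pos _).ne' hl.ne', Real.log_exp]
  linarith

/-- a criterion for a failure of Robin's inequality -/
lemma rob_of {n k : ℕ} (hn : 1 ≤ n) (hk : 1 ≤ k) (h2 : 2 ≤ Real.log n)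
    (hf : ∀ p ∈ n.primeFactors, p ∈ Nat.primesLE k ∧ n.factorization p = p.log k)
    (h : Real.eulerMascheroniConstant + Real.log (Real.log (Real.log n)) + 6 / √k <
      ∑ p ∈ n.primeFactors, -Real.log (1 - (p : ℝ)⁻¹)) : Rob n := by
  have hn0 : (0 : ℝ) < n := by exact_mod_cast hn
  have hl : 0 < Real.log (Real.log n) := Real.log_pos (by linarith)
  have hS : (0 : ℝ) < ∑ d ∈ n.divisors, (d : ℝ) :=
    sum_pos (fun d hd => by exact_mod_cast Nat.pos_of_mem_divisors hd)
      ⟨1, Nat.one_mem_divisors.2 (by omega)⟩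
  have h1 := log_sigma (n := n) (by omega)
  rw [sum_add_distrib] at h1
  have h3 : -(6 / √(k : ℝ)) ≤
      ∑ p ∈ n.primeFactors, Real.log (1 - ((p : ℝ) ^ (n.factorization p + 1))⁻¹) := by
    have h4 : ∑ p ∈ n.primeFactors, -(2 * ((p : ℝ) ^ (p.log k + 1))⁻¹) ≤
        ∑ p ∈ n.primeFactors, Real.log (1 - ((p : ℝ) ^ (n.factorization p + 1))⁻¹) := by
      refine sum_le_sum fun p hp => ?_
      rw [(hf p hp).2]
      have hp2 : (2 : ℝ) ≤ p := by exact_mod_cast (Nat.prime_of_mem_primeFactors hp).two_le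
      refine log_one_sub_ge (by positivity) ?_
      rw [inv_le_comm₀ (by positivity) (by norm_num)]
      calc (1 / 2 : ℝ)⁻¹ = 2 := by norm_num
        _ ≤ (p : ℝ) ^ 1 := by simpa using hp2
        _ ≤ (p : ℝ) ^ (p.log k + 1) := pow_le_pow_right₀ (by linarith) (by omega)
    refine le_trans ?_ h4
    rw [sum_neg_distrib, ← mul_sum, neg_le_neg_iff]
    have h5 : ∑ p ∈ n.primeFactors, ((p : ℝ) ^ (p.log k + 1))⁻¹ ≤
        ∑ p ∈ Nat.primesLE k, ((p : ℝ) ^ (p.log k + 1))⁻¹ :=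
      sum_le_sum_of_subset_of_nonneg (fun p hp => (hf p hp).1) fun p _ _ => by positivity
    have h6 := sigma_loss hk
    have h7 : 6 / √(k : ℝ) = 2 * (3 / √k) := by ring
    rw [h7]
    linarith
  unfold Rob
  rw [← Real.log_le_log_iff (by positivity) hS, Real.log_mul (by positivity) hl.ne',
    Real.log_mul (Real.exp_pos _).ne' hn0.ne', Real.log_exp]
  linarith

/-- the count of the integers obtained by removal -/
lemma count_removal {k n₀ : ℕ} (hn₀ : n₀ ≠ 0) (hpf : n₀.primeFactors = Nat.primesLE k)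
    {T : Finset ℕ} (hT : T ⊆ Nat.primesLE k) (hT1 : ∀ p ∈ T, n₀.factorization p = 1)
    {x : ℝ} {P : ℕ → Prop} [DecidablePred P]
    (h : ∀ S ⊆ T, 3 ≤ n₀ / ∏ p ∈ S, p ∧ ((n₀ / ∏ p ∈ S, p : ℕ) : ℝ) ≤ x ∧
      P (n₀ / ∏ p ∈ S, p)) :
    2 ^ T.card ≤ ((Finset.Icc 3 ⌊x⌋₊).filter fun n => P n).card := by
  rw [← card_powerset]
  refine card_le_card_of_injOn (fun S => n₀ / ∏ p ∈ S, p) (fun S hS => ?_)
    (fun S hS S' hS' he => ?_)
  · have hS' : S ⊆ T := by simpa using hS
    obtain ⟨h1, h2, h3⟩ := h S hS'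
    simp only [coe_filter, mem_Icc, Set.mem_ofPred_eq]
    exact ⟨⟨h1, Nat.le_floor h2⟩, h3⟩
  · have hS1 : S ⊆ T := by simpa using hS
    have hS2 : S' ⊆ T := by simpa using hS'
    have h1 := (removal hn₀ hpf (hS1.trans hT) fun p hp => hT1 p (hS1 hp)).2.2.1
    have h2 := (removal hn₀ hpf (hS2.trans hT) fun p hp => hT1 p (hS2 hp)).2.2.1
    have he' : n₀ / ∏ p ∈ S, p = n₀ / ∏ p ∈ S', p := he
    rw [he', h2] at h1
    have h3 : Nat.primesLE k \ (Nat.primesLE k \ S) = Nat.primesLE k \ (Nat.primesLE k \ S') := by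
      rw [h1]
    rwa [Finset.sdiff_sdiff_eq_self (hS1.trans hT), Finset.sdiff_sdiff_eq_self (hS2.trans hT)] at h3

end Pool.Agent.U334.RN
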