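import Mathlib
import Pool.Agent.U334.RN.Low2

set_option autoImplicit false

/-! Many failures of the inequalities of Nicolas and Robin: assembly. -/

namespace Pool.Agent.U334.RN

open Real Finset MeasureTheory Filter Topology Chebyshev

/-- many primes in `((1 - δ) y, y]` -/
lemma primes_many {y δ : ℝ} {m : ℕ} (hδ : 0 < δ) (hδ4 : δ ≤ 1 / 4) (hy : 1 ≤ Real.log y)
    (hy0 : 0 < y)
    (h1 : |theta y - y| ≤ δ * y / 4) (h2 : |theta ((1 - δ) * y) - (1 - δ) * y| ≤ δ * y / 4)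
    (hm : (m : ℝ) ≤ δ * y / (2 * Real.log y)) :
    ∃ T : Finset ℕ, T.card = m ∧ ∀ p ∈ T, p.Prime ∧ (1 - δ) * y < p ∧ (p : ℝ) ≤ y := by
  set z := (1 - δ) * y with hz
  have hz0 : 0 < z := mul_pos (by linarith) hy0
  have hzy : z ≤ y := by nlinarith
  set I := (Nat.primesLE ⌊y⌋₊).filter (fun p : ℕ => z < p) with hI
  have hI1 : ∀ p ∈ I, p.Prime ∧ z < p ∧ (p : ℝ) ≤ y := fun p hp => by
    rw [hI, mem_filter, Nat.mem_primesLE] at hp
    exact ⟨hp.1.2, hp.2, le_trans (by exact_mod_cast hp.1.1) (Nat.floor_le hy0.le)⟩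
  have hsplit : theta y = theta z + ∑ p ∈ I, Real.log p := by
    rw [theta_eq_sum_primesLE y, theta_eq_sum_primesLE z,
      ← sum_filter_add_sum_filter_not (Nat.primesLE ⌊y⌋₊) (fun p : ℕ => z < p), add_comm]
    congr 1
    refine sum_congr ?_ fun _ _ => rfl
    ext p
    rw [mem_filter, Nat.mem_primesLE, Nat.mem_primesLE, not_lt, Nat.le_floor_iff hz0.le,
      Nat.le_floor_iff hy0.le]
    constructor
    · rintro ⟨⟨_, h4⟩, h5⟩; exact ⟨h5, h4⟩
    · rintro ⟨h5, h4⟩; exact ⟨⟨h5.trans hzy, h4⟩, h5⟩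
  have hle : ∑ p ∈ I, Real.log p ≤ I.card * Real.log y := by
    calc ∑ p ∈ I, Real.log p ≤ ∑ p ∈ I, Real.log y := sum_le_sum fun p hp =>
          Real.log_le_log (by exact_mod_cast (hI1 p hp).1.pos) (hI1 p hp).2.2
      _ = _ := by rw [sum_const, nsmul_eq_mul]
  have h3 := (abs_le.1 h1).1
  have h4 := (abs_le.1 h2).2
  have h5 : δ * y / 2 ≤ I.card * Real.log y := by
    have h6 : y - z = δ * y := by rw [hz]; ring
    linarith
  have h6 : m ≤ I.card := by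
    have h7 : (m : ℝ) ≤ I.card := by
      refine hm.trans ?_
      rw [div_le_iff₀ (by linarith)]
      linarith
    exact_mod_cast h7
  obtain ⟨T, hT, hTc⟩ := Finset.exists_subset_card_eq h6
  exact ⟨T, hTc, fun p hp => hI1 p (hT hp)⟩

/-- common part of the two steps -/
lemma step_aux {y δ b E : ℝ} {k n₀ m : ℕ} (hk : k = ⌊y⌋₊) (hn₀ : n₀ ≠ 0)
    (hpf : n₀.primeFactors = Nat.primesLE k)
    (hfac : ∀ p : ℕ, p.Prime → (1 - δ) * y < p → (p : ℝ) ≤ y → n₀.factorization p = 1)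
    (hδ : 0 < δ) (hδ4 : δ ≤ 1 / 4) (hy : 1 ≤ Real.log y) (hy1 : 1 ≤ δ * y)
    (h1 : |theta y - y| ≤ δ * y / 4) (h2 : |theta ((1 - δ) * y) - (1 - δ) * y| ≤ δ * y / 4)
    (hmc : (m : ℝ) ≤ δ * y / (2 * Real.log y))
    (hΛ : |Real.log n₀ - y| ≤ δ * y) (hm : 8 * δ * m / y ≤ y ^ (-b) / 2)
    (hm2 : m * Real.log y ≤ y / 4)
    (hE : (Real.log n₀ - theta y) / (y * Real.log y) + 1 / k + E ≤ y ^ (-b) / 2)
    (hJ : y ^ (-b) < JJ y) {P : ℕ → Prop} [DecidablePred P]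
    (hP : ∀ n : ℕ, 1 ≤ n → 2 ≤ Real.log n → (∀ p ∈ n.primeFactors, p ∈ Nat.primesLE k ∧
      n.factorization p = n₀.factorization p) →
      Real.eulerMascheroniConstant + Real.log (Real.log (Real.log n)) + E <
      ∑ p ∈ n.primeFactors, -Real.log (1 - (p : ℝ)⁻¹) → P n) :
    2 ^ m ≤ ((Finset.Icc 3 ⌊Real.exp (2 * y)⌋₊).filter fun n => P n).card := by
  have hy0 : 0 < y := by
    by_contra hc
    push Not at hc
    nlinarith
  obtain ⟨T, hTc, hT⟩ := primes_many hδ hδ4 hy hy0 h1 h2 hmc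
  have hTk : T ⊆ Nat.primesLE k := fun p hp => by
    obtain ⟨h1, -, h3⟩ := hT p hp
    exact Nat.mem_primesLE.2 ⟨by rw [hk]; exact Nat.le_floor h3, h1⟩
  have hT1 : ∀ p ∈ T, n₀.factorization p = 1 := fun p hp =>
    hfac p (hT p hp).1 (hT p hp).2.1 (hT p hp).2.2
  rw [← hTc]
  refine count_removal hn₀ hpf hTk hT1 fun S hS => ?_
  obtain ⟨r1, r2, r3⟩ := removal_ineq (S := S) (m := m) hk hn₀ hpf (fun p hp => hT p (hS hp))
    (fun p hp => hT1 p (hS hp)) (by rw [← hTc]; exact card_le_card hS) hδ hδ4 hy hy1 hΛ hm hm2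
    hE hJ
  obtain ⟨-, q2, q3, q4⟩ := removal hn₀ hpf (hS.trans hTk) fun p hp => hT1 p (hS hp)
  have hpos : (0 : ℝ) < ((n₀ / ∏ p ∈ S, p : ℕ) : ℝ) := by exact_mod_cast q2
  refine ⟨?_, ?_, ?_⟩
  · by_contra hc
    have h3 : ((n₀ / ∏ p ∈ S, p : ℕ) : ℝ) ≤ 2 := by
      have : n₀ / ∏ p ∈ S, p ≤ 2 := by omega
      exact_mod_cast this
    have h4 := Real.log_le_log hpos h3
    have h5 := Real.log_two_lt_d9
    linarith
  · rw [← Real.log_le_iff_le_exp hpos]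
    exact r2
  · refine hP _ q2 r1 (fun p hp => ?_) r3
    rw [q3] at hp
    exact ⟨(Finset.mem_sdiff.1 hp).1, q4 p hp⟩

/-- many failures of Nicolas' inequality -/
lemma step_N {y δ b : ℝ} {m : ℕ} (hδ : 0 < δ) (hδ4 : δ ≤ 1 / 4)
    (hy : 1 ≤ Real.log y) (hy1 : 1 ≤ δ * y)
    (h1 : |theta y - y| ≤ δ * y / 4) (h2 : |theta ((1 - δ) * y) - (1 - δ) * y| ≤ δ * y / 4)
    (hmc : (m : ℝ) ≤ δ * y / (2 * Real.log y)) (hm : 8 * δ * m / y ≤ y ^ (-b) / 2)
    (hm2 : m * Real.log y ≤ y / 4) (hE : 1 / (⌊y⌋₊ : ℝ) ≤ y ^ (-b) / 2)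
    (hJ : y ^ (-b) < JJ y) : 2 ^ m ≤ NN (Real.exp (2 * y)) := by
  classical
  have hlog : Real.log (primorial ⌊y⌋₊) = theta y := (theta_eq_log_primorial y).symm
  have hy0 : 0 < δ * y := by linarith
  have h := step_aux (y := y) (δ := δ) (b := b) (E := 0) (k := ⌊y⌋₊) (n₀ := primorial ⌊y⌋₊)
    (m := m) rfl (primorial_ne_zero _) (primeFactors_primorial _) ?_ hδ hδ4 hy hy1 h1 h2 hmc
    (by rw [hlog]; linarith) hm hm2 (by rw [hlog]; simpa using hE) hJ (P := Vio)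
    (fun n hn h2 _ h => vio_of hn h2 (by simpa using h))
  · unfold NN
    exact h
  · intro p hp hpl hpy
    have hpk : p ∈ Nat.primesLE ⌊y⌋₊ := Nat.mem_primesLE.2 ⟨Nat.le_floor hpy, hp⟩
    rw [primorial_eq_prod_primesLE, Nat.factorization_prod fun q hq =>
      (Nat.mem_primesLE.1 hq).2.ne_zero, Finsupp.coe_finsetSum, Finset.sum_apply,
      Finset.sum_congr rfl fun q hq => by rw [(Nat.mem_primesLE.1 hq).2.factorization]]
    simp only [Finsupp.single_apply]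
    rw [Finset.sum_ite_eq' _ p (fun _ => 1), if_pos hpk]

/-- many failures of Robin's inequality -/
lemma step_V {y δ b C : ℝ} {m : ℕ} (hδ : 0 < δ) (hδ4 : δ ≤ 1 / 4)
    (hy : 1 ≤ Real.log y) (hy1 : 1 ≤ δ * y)
    (h1 : |theta y - y| ≤ δ * y / 4) (h2 : |theta ((1 - δ) * y) - (1 - δ) * y| ≤ δ * y / 4)
    (hmc : (m : ℝ) ≤ δ * y / (2 * Real.log y)) (hm : 8 * δ * m / y ≤ y ^ (-b) / 2)
    (hm2 : m * Real.log y ≤ y / 4) (hC : psi y - theta y ≤ C * √y) (hC2 : C * √y ≤ δ * y / 2)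
    (hE : C * √y / (y * Real.log y) + 1 / (⌊y⌋₊ : ℝ) + 6 / √(⌊y⌋₊ : ℝ) ≤ y ^ (-b) / 2)
    (hJ : y ^ (-b) < JJ y) : 2 ^ m ≤ VV (Real.exp (2 * y)) := by
  classical
  have hlog : Real.log (Nat.lcmUpto ⌊y⌋₊) = psi y := by
    rw [← psi_eq_log_lcmUpto, ← psi_eq_psi_coe_floor]
  have hy0 : 0 < y := by
    by_contra hc
    push Not at hc
    nlinarith
  have hy4 : 4 ≤ y := by nlinarith
  have hk1 : 1 ≤ ⌊y⌋₊ := Nat.le_floor (by push_cast; linarith)
  have hpt := theta_le_psi y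
  have h1' := abs_le.1 h1
  have h := step_aux (y := y) (δ := δ) (b := b) (E := 6 / √(⌊y⌋₊ : ℝ)) (k := ⌊y⌋₊)
    (n₀ := Nat.lcmUpto ⌊y⌋₊)
    (m := m) rfl (Nat.lcmUpto_ne_zero _) (Nat.primeFactors_lcmUpto _) ?_ hδ hδ4 hy hy1 h1 h2 hmc
    (by rw [hlog, abs_le]; constructor <;> linarith) hm hm2 ?_ hJ (P := Rob)
    (fun n hn h2 hf h => rob_of hn hk1 h2 (fun p hp => ⟨(hf p hp).1, ?_⟩) h)
  · unfold VV
    exact h
  · intro p hp hpl hpy
    rw [Nat.factorization_lcmUpto _ hp]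
    have hpk : p ≤ ⌊y⌋₊ := Nat.le_floor hpy
    have hpp : ⌊y⌋₊ < p ^ 2 := by
      rw [Nat.floor_lt hy0.le]
      push_cast
      have h3 : 3 / 4 * y < p := by nlinarith
      nlinarith
    have hb : p.log ⌊y⌋₊ < 2 := Nat.log_lt_of_lt_pow (by omega) hpp
    have hb' : 0 < p.log ⌊y⌋₊ := Nat.log_pos hp.one_lt hpk
    omega
  · rw [hlog]
    have h3 : (psi y - theta y) / (y * Real.log y) ≤ C * √y / (y * Real.log y) :=
      div_le_div_of_nonneg_right hC (by positivity)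
    linarith
  · rw [(hf p hp).2, Nat.factorization_lcmUpto _ (Nat.prime_of_mem_primeFactors hp)]

lemma ev_small {K a b c : ℝ} (hK : 0 ≤ K) (hab : a < b) (hc : 0 < c) :
    ∀ᶠ y : ℝ in atTop, K * y ^ a ≤ c * y ^ b := by
  have h := ((rpow_lo hab).const_mul_left K).def (c := c) hc
  filter_upwards [h, eventually_ge_atTop 1] with y hy hy1
  have h1 : 0 ≤ K * y ^ a := by positivity
  have h2 : 0 ≤ y ^ b := by positivity
  rwa [Real.norm_of_nonneg h1, Real.norm_of_nonneg h2] at hy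

/-- growth: `exp ((2 y)^α) ≤ 2 ^ ⌊y^β / (16 log y)⌋` -/
lemma growth {α β : ℝ} (hα : 0 < α) (hαβ : α < β) : ∀ᶠ y : ℝ in atTop,
    Real.exp ((2 * y) ^ α) ≤ (2 : ℝ) ^ ⌊y ^ β / (16 * Real.log y)⌋₊ := by
  set γ := (α + β) / 2 with hγ
  have hαγ : α < γ := by rw [hγ]; linarith
  have hγβ : γ < β := by rw [hγ]; linarith
  -- `y^γ ≤ y^β / (16 log y)`
  have l1 : ∀ᶠ y : ℝ in atTop, Real.log y ≤ 1 / 16 * y ^ (β - γ) := by
    have h := (isLittleO_log_rpow_atTop (by linarith : 0 < β - γ)).def (c := 1 / 16) (by norm_num)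
    filter_upwards [h, eventually_ge_atTop 1] with y hy hy1
    rw [Real.norm_eq_abs, Real.norm_eq_abs, abs_of_nonneg (Real.log_nonneg hy1),
      abs_of_nonneg (by positivity)] at hy
    exact hy
  have l2 : ∀ᶠ y : ℝ in atTop, (2 * y) ^ α ≤ 1 / 4 * y ^ γ := by
    have h := ((rpow_lo hαγ).const_mul_left (2 ^ α)).def (c := 1 / 4) (by norm_num)
    filter_upwards [h, eventually_ge_atTop 1] with y hy hy1
    rw [Real.norm_eq_abs, Real.norm_eq_abs, abs_of_nonneg (by positivity),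
      abs_of_nonneg (by positivity)] at hy
    rw [Real.mul_rpow (by norm_num) (by linarith)]
    exact hy
  have l3 : ∀ᶠ y : ℝ in atTop, (4 : ℝ) ≤ y ^ γ :=
    (tendsto_rpow_atTop (by linarith : 0 < γ)).eventually_ge_atTop 4
  filter_upwards [l1, l2, l3, eventually_gt_atTop 2] with y h1 h2 h3 h4
  have hy0 : 0 < y := by linarith
  have hL : 0 < Real.log y := Real.log_pos (by linarith)
  have h5 : y ^ γ ≤ y ^ β / (16 * Real.log y) := by
    rw [le_div_iff₀ (by positivity)]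
    have h6 : y ^ β = y ^ γ * y ^ (β - γ) := by
      rw [← Real.rpow_add hy0]
      congr 1
      ring
    rw [h6]
    exact mul_le_mul_of_nonneg_left (by linarith) (by positivity)
  have h6 : y ^ γ - 1 ≤ ⌊y ^ β / (16 * Real.log y)⌋₊ := by
    have := Nat.lt_floor_add_one (y ^ β / (16 * Real.log y))
    linarith
  have h7 : (2 : ℝ) ^ ⌊y ^ β / (16 * Real.log y)⌋₊ =
      Real.exp (⌊y ^ β / (16 * Real.log y)⌋₊ * Real.log 2) := by
    rw [← Real.rpow_natCast, Real.rpow_def_of_pos (by norm_num), mul_comm]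
  rw [h7]
  refine Real.exp_le_exp.2 ?_
  have := Real.log_two_gt_d9
  nlinarith

/-- the general lower bound -/
theorem many {b β : ℝ} (hb : 0 < b) (hb1 : b < 1) (hβ : 0 < β) (hβ1 : β ≤ 1) {δ : ℝ → ℝ}
    (hδ : ∀ᶠ y : ℝ in atTop, 0 < δ y ∧ δ y ≤ 1 / 4 ∧ 1 ≤ δ y * y ∧
      |theta y - y| ≤ δ y * y / 4 ∧ |theta ((1 - δ y) * y) - (1 - δ y) * y| ≤ δ y * y / 4 ∧
      δ y * y ^ β ≤ y * y ^ (-b) ∧ y ^ β ≤ 8 * (δ y * y))
    (hJ : ∀ y₀ : ℝ, ∃ y, y₀ ≤ y ∧ y ^ (-b) < JJ y) {α : ℝ} (hα : 0 < α) (hαβ : α < β) :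
    (∀ x₀ : ℝ, ∃ x, x₀ ≤ x ∧ Real.exp ((Real.log x) ^ α) ≤ (NN x : ℝ)) ∧
    (b < 1 / 2 → (∀ᶠ y : ℝ in atTop, ∀ C : ℝ, C ≤ y ^ (1 / 8 : ℝ) → C * √y ≤ δ y * y / 2) →
      ∀ x₀ : ℝ, ∃ x, x₀ ≤ x ∧ Real.exp ((Real.log x) ^ α) ≤ (VV x : ℝ)) := by
  have hk : ∀ᶠ y : ℝ in atTop, 1 / (⌊y⌋₊ : ℝ) ≤ 2 * y ^ (-1 : ℝ) := by
    filter_upwards [eventually_ge_atTop 2] with y hy
    have h3 := Nat.lt_floor_add_one y
    have h4 : (2 : ℝ) ≤ ⌊y⌋₊ := by
      exact_mod_cast (Nat.le_floor (by exact_mod_cast hy) : 2 ≤ ⌊y⌋₊)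
    rw [Real.rpow_neg_one, ← div_eq_mul_inv, div_le_div_iff₀ (by linarith) (by linarith)]
    linarith
  have hkb : ∀ᶠ y : ℝ in atTop, 2 * y ^ (-1 : ℝ) ≤ y ^ (-b) / 6 := by
    have h := ((rpow_lo (by linarith : (-1 : ℝ) < -b)).const_mul_left 2).def (c := 1 / 6)
      (by norm_num)
    filter_upwards [h, eventually_ge_atTop 1] with y hy hy1
    rw [Real.norm_eq_abs, Real.norm_eq_abs, abs_of_nonneg (by positivity),
      abs_of_nonneg (by positivity)] at hy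
    linarith
  have hbase : ∀ᶠ y : ℝ in atTop, 1 ≤ Real.log y ∧
      ((⌊y ^ β / (16 * Real.log y)⌋₊ : ℝ) ≤ y ^ β / (16 * Real.log y)) ∧ 1 ≤ y := by
    filter_upwards [Real.tendsto_log_atTop.eventually_ge_atTop 1, eventually_ge_atTop 1]
      with y h1 h2
    exact ⟨h1, Nat.floor_le (by positivity), h2⟩
  -- the conditions on `m`
  have hmm : ∀ y : ℝ, 0 < δ y → δ y ≤ 1 / 4 → δ y * y ^ β ≤ y * y ^ (-b) →
      y ^ β ≤ 8 * (δ y * y) → 1 ≤ Real.log y → 1 ≤ y → ∀ m : ℕ,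
      (m : ℝ) ≤ y ^ β / (16 * Real.log y) →
      (m : ℝ) ≤ δ y * y / (2 * Real.log y) ∧ 8 * δ y * m / y ≤ y ^ (-b) / 2 ∧
      m * Real.log y ≤ y / 4 := by
    intro y d1 d2 d3 d4 hL hy1 m hm
    have hy0 : 0 < y := by linarith
    have hL0 : 0 < Real.log y := by linarith
    refine ⟨hm.trans ?_, ?_, ?_⟩
    · rw [div_le_div_iff₀ (by positivity) (by positivity)]
      nlinarith
    · rw [div_le_iff₀ hy0]
      have h1 : (m : ℝ) ≤ y ^ β / 16 := by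
        refine hm.trans ?_
        rw [div_le_div_iff₀ (by positivity) (by norm_num)]
        have : 0 ≤ y ^ β := by positivity
        nlinarith
      have h2 : 8 * δ y * m ≤ 8 * δ y * (y ^ β / 16) :=
        mul_le_mul_of_nonneg_left h1 (by linarith)
      linarith
    · have h1 : m * Real.log y ≤ (y ^ β / (16 * Real.log y)) * Real.log y :=
        mul_le_mul_of_nonneg_right hm hL0.le
      have h2 : (y ^ β / (16 * Real.log y)) * Real.log y = y ^ β / 16 := by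
        field_simp
      have h3 : y ^ β ≤ y := by
        calc y ^ β ≤ y ^ (1 : ℝ) := Real.rpow_le_rpow_of_exponent_le hy1 hβ1
          _ = y := Real.rpow_one y
      linarith
  constructor
  · intro x₀
    obtain ⟨Y, hY⟩ := eventually_atTop.1 (((hδ.and hk).and (hkb.and hbase)).and
      (growth hα hαβ))
    obtain ⟨y, hy, hJy⟩ := hJ (max Y (max (Real.log x₀) 1))
    have hyY : Y ≤ y := (le_max_left _ _).trans hy
    have hyx : Real.log x₀ ≤ y := ((le_max_left _ _).trans (le_max_right _ _)).trans hy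
    have hy1 : 1 ≤ y := ((le_max_right _ _).trans (le_max_right _ _)).trans hy
    obtain ⟨⟨⟨⟨d1, d2, d3, d4, d5, d6, d7⟩, k1⟩, k2, g1, g2, -⟩, gr⟩ := hY y hyY
    obtain ⟨m1, m2, m3⟩ := hmm y d1 d2 d6 d7 g1 hy1 _ g2
    have hb0 : 0 < y ^ (-b) := by positivity
    have hstep := step_N d1 d2 g1 d3 d4 d5 m1 m2 m3 (by linarith) hJy
    refine ⟨Real.exp (2 * y), ?_, ?_⟩
    · by_cases hx : 0 < x₀
      · rw [← Real.log_le_iff_le_exp hx]; linarith
      · exact (not_lt.1 hx).trans (Real.exp_pos _).le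
    · rw [Real.log_exp]
      refine gr.trans ?_
      exact_mod_cast hstep
  · intro hbh hCδ x₀
    obtain ⟨C, hC⟩ := psi_sub_theta_le_mul_sqrt
    have hC1 : ∀ᶠ y : ℝ in atTop, C ≤ y ^ (1 / 8 : ℝ) :=
      (tendsto_rpow_atTop (by norm_num : (0 : ℝ) < 1 / 8)).eventually_ge_atTop C
    have hCb : ∀ᶠ y : ℝ in atTop, |C| * y ^ (-(1 / 2) : ℝ) ≤ y ^ (-b) / 6 := by
      filter_upwards [ev_small (abs_nonneg C) (by linarith : (-(1 / 2) : ℝ) < -b)
        (by norm_num : (0 : ℝ) < 1 / 6)] with y hy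
      linarith
    have h6b : ∀ᶠ y : ℝ in atTop, 12 * y ^ (-(1 / 2) : ℝ) ≤ y ^ (-b) / 6 := by
      have h := ((rpow_lo (by linarith : (-(1 / 2) : ℝ) < -b)).const_mul_left 12).def
        (c := 1 / 6) (by norm_num)
      filter_upwards [h, eventually_ge_atTop 1] with y hy hy1
      rw [Real.norm_eq_abs, Real.norm_eq_abs, abs_of_nonneg (by positivity),
        abs_of_nonneg (by positivity)] at hy
      linarith
    have h6k : ∀ᶠ y : ℝ in atTop, 6 / √(⌊y⌋₊ : ℝ) ≤ 12 * y ^ (-(1 / 2) : ℝ) := by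
      filter_upwards [eventually_ge_atTop 2] with y hy
      have h3 := Nat.lt_floor_add_one y
      have h4 : (2 : ℝ) ≤ ⌊y⌋₊ := by
        exact_mod_cast (Nat.le_floor (by exact_mod_cast hy) : 2 ≤ ⌊y⌋₊)
      have h5 : √y ≤ 2 * √(⌊y⌋₊ : ℝ) := by
        have h7 : y ≤ 2 ^ 2 * ⌊y⌋₊ := by linarith
        calc √y ≤ √(2 ^ 2 * ⌊y⌋₊) := Real.sqrt_le_sqrt h7
          _ = 2 * √(⌊y⌋₊ : ℝ) := by
              rw [Real.sqrt_mul (by norm_num), Real.sqrt_sq (by norm_num)]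
      have h6 : y ^ (-(1 / 2) : ℝ) = (√y)⁻¹ := by
        rw [Real.rpow_neg (by linarith), ← Real.sqrt_eq_rpow]
      have h7 : 0 < √(⌊y⌋₊ : ℝ) := Real.sqrt_pos.2 (by linarith)
      have h8 : 0 < √y := Real.sqrt_pos.2 (by linarith)
      rw [h6, ← div_eq_mul_inv, div_le_div_iff₀ h7 h8]
      linarith
    obtain ⟨Y, hY⟩ := eventually_atTop.1 ((((hδ.and hk).and (hkb.and hbase)).and
      (growth hα hαβ)).and ((hC1.and hCδ).and ((hCb.and h6b).and h6k)))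
    obtain ⟨y, hy, hJy⟩ := hJ (max Y (max (Real.log x₀) 1))
    have hyY : Y ≤ y := (le_max_left _ _).trans hy
    have hyx : Real.log x₀ ≤ y := ((le_max_left _ _).trans (le_max_right _ _)).trans hy
    have hy1 : 1 ≤ y := ((le_max_right _ _).trans (le_max_right _ _)).trans hy
    obtain ⟨⟨⟨⟨⟨d1, d2, d3, d4, d5, d6, d7⟩, k1⟩, k2, g1, g2, -⟩, gr⟩,
      ⟨c1, c2⟩, ⟨c3, c4⟩, c5⟩ := hY y hyY
    obtain ⟨m1, m2, m3⟩ := hmm y d1 d2 d6 d7 g1 hy1 _ g2
    have hb0 : 0 < y ^ (-b) := by positivity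
    have hy0 : 0 < y := by linarith
    have e1 : C * √y / (y * Real.log y) ≤ y ^ (-b) / 6 := by
      have h3 : C * √y / (y * Real.log y) ≤ |C| * y ^ (-(1 / 2) : ℝ) := by
        have h6 : y ^ (-(1 / 2) : ℝ) = √y / y := by
          rw [Real.rpow_neg hy0.le, ← Real.sqrt_eq_rpow, Real.sqrt_div_self]
        rw [h6, div_le_iff₀ (by positivity)]
        have h7 : |C| * (√y / y) * (y * Real.log y) = |C| * √y * Real.log y := by
          field_simp
        rw [h7]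
        have h8 : C * √y ≤ |C| * √y := mul_le_mul_of_nonneg_right (le_abs_self C) (by positivity)
        have h9 : 0 ≤ |C| * √y := by positivity
        nlinarith
      exact h3.trans c3
    have hstep := step_V (C := C) d1 d2 g1 d3 d4 d5 m1 m2 m3 (hC y) (c2 C c1) (by linarith) hJy
    refine ⟨Real.exp (2 * y), ?_, ?_⟩
    · by_cases hx : 0 < x₀
      · rw [← Real.log_le_iff_le_exp hx]; linarith
      · exact (not_lt.1 hx).trans (Real.exp_pos _).le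
    · rw [Real.log_exp]
      refine gr.trans ?_
      exact_mod_cast hstep

end Pool.Agent.U334.RN
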