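import Mathlib
import Pool.Agent.U334.RN.Mer2

set_option autoImplicit false

/-! From the remainder term `JJ` in the theorem of Mertens to the integral of `(t - θ(t)) / t^2`. -/

namespace Pool.Agent.U334.RN

open Real Finset MeasureTheory Filter Topology Chebyshev

/-- `(t - θ(t)) / t^2` -/
noncomputable def hh (t : ℝ) : ℝ := (t - theta t) / t ^ 2

/-- the tail integral of `hh` -/
noncomputable def Pf (y : ℝ) : ℝ := ∫ t in Set.Ioi y, hh t

lemma hh_meas : Measurable hh := by
  unfold hh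
  have := theta_meas
  fun_prop

lemma hh_intOn_two : IntegrableOn hh (Set.Ioi 2) := by
  obtain ⟨C, hC, h⟩ := theta_real 2
  refine Integrable.mono' (((int_logpow 0 (y := 2) (by norm_num)).1).const_mul C)
    hh_meas.aestronglyMeasurable ?_
  refine (ae_restrict_iff' measurableSet_Ioi).2 (Eventually.of_forall fun t ht => ?_)
  have ht2 : 2 ≤ t := le_of_lt ht
  have ht0 : 0 < t := by linarith
  have hL := log_ge_half ht2
  have hL0 : 0 < Real.log t := by linarith
  unfold hh
  rw [norm_div, Real.norm_eq_abs, Real.norm_eq_abs, abs_of_nonneg (by positivity : 0 ≤ t ^ 2),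
    abs_sub_comm, div_le_iff₀ (by positivity)]
  refine (h t ht2).trans (le_of_eq ?_)
  simp only [zero_add]
  field_simp

lemma hh_intOn : IntegrableOn hh (Set.Ioi 1) := by
  have h : Set.Ioi (1 : ℝ) = Set.Ioc 1 2 ∪ Set.Ioi 2 := by
    rw [Set.Ioc_union_Ioi_eq_Ioi (by norm_num)]
  rw [h]
  refine IntegrableOn.union ?_ hh_intOn_two
  have h1 : IntegrableOn (fun t : ℝ => (t - theta t) / t ^ 2) (Set.Icc 1 2) := by
    have h2 : IntegrableOn (fun t : ℝ => t - theta t) (Set.Icc 1 2) :=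
      (continuousOn_id.integrableOn_Icc).sub
        ((theta_mono.monotoneOn (Set.Icc 1 2)).integrableOn_isCompact isCompact_Icc)
    have h3 : ContinuousOn (fun t : ℝ => (t ^ 2)⁻¹) (Set.Icc 1 2) := by
      refine ContinuousOn.inv₀ (by fun_prop) fun t ht => ?_
      have : 0 < t := by linarith [ht.1]
      positivity
    refine (h2.continuousOn_mul h3 isCompact_Icc).congr_fun (fun t _ => ?_) measurableSet_Icc
    simp only [smul_eq_mul, div_eq_inv_mul]
  exact h1.mono_set Set.Ioc_subset_Icc_self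

lemma hh_intOn' {y : ℝ} (hy : 1 ≤ y) : IntegrableOn hh (Set.Ioi y) :=
  hh_intOn.mono_set (Set.Ioi_subset_Ioi hy)

/-- `log^2 t / (1 + log t)` -/
noncomputable def aa (t : ℝ) : ℝ := Real.log t ^ 2 / (1 + Real.log t)

/-- derivative of `aa` -/
noncomputable def aa' (t : ℝ) : ℝ := (Real.log t ^ 2 + 2 * Real.log t) / (t * (1 + Real.log t) ^ 2)

lemma hasDerivAt_aa {t : ℝ} (ht : 1 < t) : HasDerivAt aa (aa' t) t := by
  have h0 : t ≠ 0 := by linarith
  have hl : 0 < Real.log t := Real.log_pos ht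
  have h1 : (1 + Real.log t) ≠ 0 := by linarith
  have h := ((Real.hasDerivAt_log h0).pow 2).div ((Real.hasDerivAt_log h0).const_add 1) h1
  refine h.congr_deriv ?_
  simp only [aa', Pi.pow_apply]
  push_cast
  field_simp
  ring

lemma aa_nonneg {t : ℝ} (ht : 1 ≤ t) : 0 ≤ aa t := by
  have hl : 0 ≤ Real.log t := Real.log_nonneg ht
  unfold aa
  positivity

lemma aa_le {t : ℝ} (ht : 1 ≤ t) : aa t ≤ Real.log t := by
  have hl : 0 ≤ Real.log t := Real.log_nonneg ht
  unfold aa
  rw [div_le_iff₀ (by linarith)]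
  nlinarith

lemma aa'_nonneg {t : ℝ} (ht : 1 ≤ t) : 0 ≤ aa' t := by
  have hl : 0 ≤ Real.log t := Real.log_nonneg ht
  unfold aa'
  have : 0 < t := by linarith
  positivity

lemma aa'_le {t : ℝ} (ht : 1 ≤ t) : aa' t ≤ t⁻¹ := by
  have hl : 0 ≤ Real.log t := Real.log_nonneg ht
  have ht0 : 0 < t := by linarith
  unfold aa'
  rw [div_le_iff₀ (by positivity), ← mul_assoc, inv_mul_cancel₀ ht0.ne']
  nlinarith

lemma aa_gg {t : ℝ} (ht : 1 < t) : aa t * gg t = hh t := by
  have ht0 : t ≠ 0 := by linarith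
  have hl : 0 < Real.log t := Real.log_pos ht
  have h1 : (1 + Real.log t) ≠ 0 := by linarith
  unfold aa gg hh ka
  field_simp

lemma aa'_contAt {t : ℝ} (ht : 1 < t) : ContinuousAt aa' t := by
  have h0 : t ≠ 0 := by linarith
  have hl : 0 < Real.log t := Real.log_pos ht
  have h1 : (1 + Real.log t) ≠ 0 := by linarith
  have hc := Real.continuousAt_log h0
  unfold aa'
  refine ContinuousAt.div ?_ ?_ (mul_ne_zero h0 (pow_ne_zero 2 h1))
  · exact (hc.pow 2).add (continuousAt_const.mul hc)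
  · exact continuousAt_id.mul ((continuousAt_const.add hc).pow 2)

lemma JJ_eq {y t : ℝ} (hy : 2 ≤ y) (ht : y ≤ t) : JJ t = JJ y - ∫ s in y..t, gg s := by
  unfold JJ
  rw [← intervalIntegral.integral_Ioi_sub_Ioi (gg_intOn hy) ht]
  ring

lemma theta_contAt {t : ℝ} (ht : ∀ n : ℕ, t ≠ n) (h0 : 0 < t) : ContinuousAt theta t := by
  have h1 : (⌊t⌋₊ : ℝ) < t := lt_of_le_of_ne (Nat.floor_le h0.le) (Ne.symm (ht _))
  have h2 : t < ⌊t⌋₊ + 1 := Nat.lt_floor_add_one t
  have h3 : theta =ᶠ[𝓝 t] fun _ => theta t := by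
    filter_upwards [Ioo_mem_nhds h1 h2] with s hs
    have h4 : ⌊s⌋₊ = ⌊t⌋₊ :=
      (Nat.floor_eq_iff ((Nat.cast_nonneg _).trans hs.1.le)).2 ⟨hs.1.le, hs.2⟩
    rw [theta_eq_theta_coe_floor s, h4, ← theta_eq_theta_coe_floor]
  exact (continuousAt_const (y := theta t)).congr h3.symm

lemma gg_contAt {t : ℝ} (ht : ∀ n : ℕ, t ≠ n) (h1 : 1 < t) : ContinuousAt gg t := by
  unfold gg
  exact (continuousAt_id.sub (theta_contAt ht (by linarith))).mul (ka_cont h1)

lemma JJ_contOn {y z : ℝ} (hy : 2 ≤ y) (hyz : y ≤ z) : ContinuousOn JJ (Set.Icc y z) := by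
  have h1 : ContinuousOn (fun t => JJ y - ∫ s in y..t, gg s) (Set.Icc y z) := by
    refine continuousOn_const.sub ?_
    have := intervalIntegral.continuousOn_primitive_interval' (μ := volume)
      (gg_int (by linarith) hyz) (Set.left_mem_uIcc)
    rwa [Set.uIcc_of_le hyz] at this
  exact h1.congr fun t ht => JJ_eq hy ht.1

lemma JJ_hasDerivAt {y t : ℝ} (hy : 2 ≤ y) (hyt : y < t) (ht : ∀ n : ℕ, t ≠ n) :
    HasDerivAt JJ (-gg t) t := by
  have h1 : HasDerivAt (fun u => JJ y - ∫ s in y..u, gg s) (-gg t) t := by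
    have h2 := intervalIntegral.integral_hasDerivAt_right (gg_int (by linarith) hyt.le)
      (gg_meas.stronglyMeasurable.stronglyMeasurableAtFilter) (gg_contAt ht (by linarith))
    simpa using h2.const_sub (JJ y)
  refine h1.congr_of_eventuallyEq ?_
  filter_upwards [Ioi_mem_nhds hyt] with u hu
  exact JJ_eq hy (le_of_lt hu)

/-- partial integration -/
theorem int_hh {y z : ℝ} (hy : 2 ≤ y) (hyz : y ≤ z) :
    ∫ t in y..z, hh t = aa y * JJ y - aa z * JJ z + ∫ t in y..z, aa' t * JJ t := by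
  have hi1 : IntervalIntegrable (fun t => aa' t * JJ t) volume y z := by
    refine ContinuousOn.intervalIntegrable ?_
    rw [Set.uIcc_of_le hyz]
    exact ContinuousOn.mul (fun t ht => (aa'_contAt (by linarith [ht.1])).continuousWithinAt)
      (JJ_contOn hy hyz)
  have hi2 : IntervalIntegrable hh volume y z := by
    rw [intervalIntegrable_iff_integrableOn_Ioc_of_le hyz]
    exact (hh_intOn' (by linarith : (1 : ℝ) ≤ y)).mono_set fun t ht => ht.1
  have h := integral_eq_of_hasDerivAt_off_countable_of_le (fun t => aa t * JJ t)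
    (fun t => aa' t * JJ t - hh t) hyz (s := Set.range (fun n : ℕ => (n : ℝ)))
    (Set.countable_range _) ?_ ?_ (hi1.sub hi2)
  · rw [intervalIntegral.integral_sub hi1 hi2] at h
    linarith
  · exact ContinuousOn.mul
      (fun t ht => (hasDerivAt_aa (by linarith [ht.1])).continuousAt.continuousWithinAt)
      (JJ_contOn hy hyz)
  · intro t ht
    have ht1 : ∀ n : ℕ, t ≠ n := fun n hn => ht.2 ⟨n, hn.symm⟩
    have h1 := (hasDerivAt_aa (t := t) (by linarith [ht.1.1])).mul (JJ_hasDerivAt hy ht.1.1 ht1)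
    refine h1.congr_deriv ?_
    rw [← aa_gg (by linarith [ht.1.1] : 1 < t)]
    ring

/-- an upper bound for `JJ` gives an upper bound for `Pf` -/
theorem Pf_le_of_JJ_le {b y₀ : ℝ} (hb : 0 < b) (hy₀ : 2 ≤ y₀)
    (h : ∀ y, y₀ ≤ y → JJ y ≤ y ^ (-b)) {y : ℝ} (hy : y₀ ≤ y) :
    Pf y ≤ Real.log y * y ^ (-b) + y ^ (-b) / b := by
  have hy2 : 2 ≤ y := hy₀.trans hy
  have hy0 : 0 < y := by linarith
  have hlim1 : Tendsto (fun z => ∫ t in y..z, hh t) atTop (𝓝 (Pf y)) :=
    intervalIntegral_tendsto_integral_Ioi y (hh_intOn' (by linarith)) tendsto_id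
  have hlim2 : Tendsto (fun z => aa z * JJ z) atTop (𝓝 0) := by
    obtain ⟨C, hC, hJ⟩ := JJ_bound 1
    have hb0 : Tendsto (fun z : ℝ => C * (Real.log z)⁻¹) atTop (𝓝 0) := by
      simpa using (Real.tendsto_log_atTop.inv_tendsto_atTop).const_mul C
    refine squeeze_zero_norm' ?_ hb0
    filter_upwards [eventually_ge_atTop 2] with z hz
    have hL := log_ge_half hz
    have hL0 : 0 < Real.log z := by linarith
    rw [norm_mul, Real.norm_eq_abs, Real.norm_eq_abs, abs_of_nonneg (aa_nonneg (by linarith))]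
    calc aa z * |JJ z| ≤ Real.log z * (C / Real.log z ^ 2) :=
          mul_le_mul (aa_le (by linarith)) (hJ z hz) (abs_nonneg _) hL0.le
      _ = C * (Real.log z)⁻¹ := by
          field_simp
  have hup : ∀ z, y ≤ z → ∫ t in y..z, hh t ≤
      Real.log y * y ^ (-b) + y ^ (-b) / b - aa z * JJ z := by
    intro z hz
    rw [int_hh hy2 hz]
    have h1 : aa y * JJ y ≤ Real.log y * y ^ (-b) := by
      have h2 : aa y * JJ y ≤ aa y * y ^ (-b) :=
        mul_le_mul_of_nonneg_left (h y hy) (aa_nonneg (by linarith))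
      exact h2.trans (mul_le_mul_of_nonneg_right (aa_le (by linarith)) (by positivity))
    have h2 : ∫ t in y..z, aa' t * JJ t ≤ ∫ t in y..z, t ^ (-b - 1) := by
      refine intervalIntegral.integral_mono_on hz ?_ ?_ fun t ht => ?_
      · refine ContinuousOn.intervalIntegrable ?_
        rw [Set.uIcc_of_le hz]
        exact ContinuousOn.mul (fun t ht => (aa'_contAt (by linarith [ht.1])).continuousWithinAt)
          (JJ_contOn hy2 hz)
      · refine ContinuousOn.intervalIntegrable ?_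
        rw [Set.uIcc_of_le hz]
        exact fun t ht => (Real.continuousAt_rpow_const _ _
          (Or.inl (by linarith [ht.1] : t ≠ 0))).continuousWithinAt
      · have ht0 : 0 < t := by linarith [ht.1]
        have h3 : aa' t * JJ t ≤ aa' t * t ^ (-b) :=
          mul_le_mul_of_nonneg_left (h t (hy.trans ht.1)) (aa'_nonneg (by linarith [ht.1]))
        have h4 : aa' t * t ^ (-b) ≤ t⁻¹ * t ^ (-b) :=
          mul_le_mul_of_nonneg_right (aa'_le (by linarith [ht.1])) (by positivity)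
        have h5 : t⁻¹ * t ^ (-b) = t ^ (-b - 1) := by
          rw [Real.rpow_sub_one ht0.ne']
          field_simp
        linarith
    have h3 : ∫ t in y..z, t ^ (-b - 1) ≤ y ^ (-b) / b := by
      rw [integral_rpow (Or.inr ⟨by linarith, by
        rw [Set.uIcc_of_le hz]
        intro h0
        linarith [h0.1]⟩)]
      have e : -b - 1 + 1 = -b := by ring
      rw [e]
      have h4 : 0 ≤ z ^ (-b) := Real.rpow_nonneg (by linarith) _
      have h5 : (z ^ (-b) - y ^ (-b)) / (-b) = (y ^ (-b) - z ^ (-b)) / b := by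
        rw [div_neg, ← neg_div, neg_sub]
      rw [h5]
      exact div_le_div_of_nonneg_right (by linarith) hb.le
    linarith
  have hlim3 : Tendsto (fun z => Real.log y * y ^ (-b) + y ^ (-b) / b - aa z * JJ z) atTop
      (𝓝 (Real.log y * y ^ (-b) + y ^ (-b) / b)) := by
    simpa using hlim2.const_sub (Real.log y * y ^ (-b) + y ^ (-b) / b)
  refine le_of_tendsto_of_tendsto hlim1 hlim3 ?_
  filter_upwards [eventually_ge_atTop y] with z hz
  exact hup z hz

lemma Pf_bdd {y : ℝ} (hy : 1 ≤ y) : |Pf y| ≤ ∫ t in Set.Ioi 1, |hh t| := by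
  unfold Pf
  rw [← Real.norm_eq_abs]
  refine (norm_integral_le_integral_norm _).trans ?_
  refine setIntegral_mono_set hh_intOn.norm (Eventually.of_forall fun t => norm_nonneg _) ?_
  exact (Set.Ioi_subset_Ioi hy).eventuallyLE

/-- if `JJ y ≤ y^(-b)` for all large `y` then `Pf y ≤ C y^(-b')` for all `y ≥ 1` -/
theorem Pf_le_rpow {b b' y₀ : ℝ} (hb' : 0 < b') (hbb : b' < b) (hy₀ : 2 ≤ y₀)
    (h : ∀ y, y₀ ≤ y → JJ y ≤ y ^ (-b)) :
    ∃ C : ℝ, 0 < C ∧ ∀ y : ℝ, 1 ≤ y → Pf y ≤ C * y ^ (-b') := by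
  set B := ∫ t in Set.Ioi 1, |hh t| with hB
  have hB0 : 0 ≤ B := integral_nonneg fun t => abs_nonneg _
  have hbb' : 0 < b - b' := by linarith
  have hb0 : 0 < b := by linarith
  have hy00 : 0 < y₀ := by linarith
  refine ⟨B * y₀ ^ b' + 1 / (b - b') + 1 / b + 1, by positivity, fun y hy => ?_⟩
  have hy0 : 0 < y := by linarith
  have hyb : 0 < y ^ (-b') := by positivity
  by_cases hyy : y₀ ≤ y
  · have h1 := Pf_le_of_JJ_le (by linarith) hy₀ h hyy
    have h2 : y ^ (-b) ≤ y ^ (-b') := Real.rpow_le_rpow_of_exponent_le hy (by linarith)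
    have h3 : Real.log y * y ^ (-b) ≤ 1 / (b - b') * y ^ (-b') := by
      have h4 : Real.log y ≤ y ^ (b - b') / (b - b') := Real.log_le_rpow_div hy0.le hbb'
      have h5 : y ^ (b - b') * y ^ (-b) = y ^ (-b') := by
        rw [← Real.rpow_add hy0]
        congr 1
        ring
      calc Real.log y * y ^ (-b) ≤ y ^ (b - b') / (b - b') * y ^ (-b) :=
            mul_le_mul_of_nonneg_right h4 (by positivity)
        _ = 1 / (b - b') * (y ^ (b - b') * y ^ (-b)) := by ring
        _ = _ := by rw [h5]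
    have h4 : y ^ (-b) / b ≤ 1 / b * y ^ (-b') := by
      rw [div_eq_inv_mul, one_div]
      exact mul_le_mul_of_nonneg_left h2 (by
        have : 0 < b := by linarith
        positivity)
    have h5 : 0 ≤ B * y₀ ^ b' := by positivity
    nlinarith [mul_nonneg h5 hyb.le]
  · have h1 := (le_abs_self _).trans (Pf_bdd hy)
    have h2 : 1 ≤ y₀ ^ b' * y ^ (-b') := by
      rw [Real.rpow_neg hy0.le, ← div_eq_mul_inv, le_div_iff₀ (by positivity), one_mul]
      exact Real.rpow_le_rpow hy0.le (by linarith) hb'.le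
    have h3 : B ≤ B * (y₀ ^ b' * y ^ (-b')) := by nlinarith
    have h4 : 0 ≤ (1 / (b - b') + 1 / b + 1) * y ^ (-b') := by
      have : 0 < b := by linarith
      positivity
    calc Pf y ≤ B := h1
      _ ≤ B * (y₀ ^ b' * y ^ (-b')) := h3
      _ ≤ B * (y₀ ^ b' * y ^ (-b')) + (1 / (b - b') + 1 / b + 1) * y ^ (-b') := by linarith
      _ = _ := by ring

end Pool.Agent.U334.RN
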