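import Mathlib
import Pool.Agent.U334.RN.Osc1
import Pool.Agent.TH988.RB.Lan

set_option autoImplicit false

/-! Laplace transforms of the Chebyshev functions. -/

namespace Pool.Agent.U334.RN

open Real Finset MeasureTheory Filter Topology Chebyshev
open Pool.Agent.W263.BSD

/-- change of variables `t = exp u` -/
lemma exp_image (u : ℝ) : Real.exp '' Set.Ioi u = Set.Ioi (Real.exp u) := by
  ext t
  simp only [Set.mem_image, Set.mem_Ioi]
  constructor
  · rintro ⟨v, hv, rfl⟩
    exact Real.exp_lt_exp.2 hv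
  · intro ht
    have h0 : 0 < t := lt_trans (Real.exp_pos u) ht
    exact ⟨Real.log t, (Real.lt_log_iff_exp_lt h0).2 ht, Real.exp_log h0⟩

lemma int_exp (g : ℝ → ℝ) (u : ℝ) : ∫ t in Set.Ioi (Real.exp u), g t =
    ∫ v in Set.Ioi u, Real.exp v * g (Real.exp v) := by
  rw [← exp_image, integral_image_eq_integral_abs_deriv_smul measurableSet_Ioi
    (fun x _ => (Real.hasDerivAt_exp x).hasDerivWithinAt) Real.exp_injective.injOn]
  refine setIntegral_congr_fun measurableSet_Ioi fun v _ => ?_
  simp only [smul_eq_mul, abs_of_pos (Real.exp_pos v)]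

lemma intOn_exp (g : ℝ → ℝ) (u : ℝ) : IntegrableOn g (Set.Ioi (Real.exp u)) ↔
    IntegrableOn (fun v => Real.exp v * g (Real.exp v)) (Set.Ioi u) := by
  rw [← exp_image, integrableOn_image_iff_integrableOn_abs_deriv_smul measurableSet_Ioi
    (fun x _ => (Real.hasDerivAt_exp x).hasDerivWithinAt) Real.exp_injective.injOn]
  refine integrableOn_congr_fun (fun v _ => ?_) measurableSet_Ioi
  simp only [smul_eq_mul, abs_of_pos (Real.exp_pos v)]

/-- `(e^u - θ(e^u)) e^(-u)` -/
noncomputable def fT (u : ℝ) : ℝ := (Real.exp u - theta (Real.exp u)) * Real.exp (-u)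

/-- `ψ(e^u) e^(-u)` -/
noncomputable def fS (u : ℝ) : ℝ := psi (Real.exp u) * Real.exp (-u)

/-- `(ψ(e^u) - θ(e^u)) e^(-u)` -/
noncomputable def fB (u : ℝ) : ℝ := (psi (Real.exp u) - theta (Real.exp u)) * Real.exp (-u)

lemma psi_meas : Measurable psi := psi_mono.measurable

lemma fT_meas : Measurable fT := by
  unfold fT
  exact (measurable_exp.sub (theta_meas.comp measurable_exp)).mul (measurable_exp.comp measurable_neg)

lemma fS_meas : Measurable fS := by
  unfold fS
  exact (psi_meas.comp measurable_exp).mul (measurable_exp.comp measurable_neg)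

lemma fB_meas : Measurable fB := by
  unfold fB
  exact ((psi_meas.comp measurable_exp).sub (theta_meas.comp measurable_exp)).mul
    (measurable_exp.comp measurable_neg)

lemma fT_eq (v : ℝ) : fT v = Real.exp v * hh (Real.exp v) := by
  unfold fT hh
  rw [Real.exp_neg]
  have := (Real.exp_pos v).ne'
  field_simp

lemma Pf_exp (u : ℝ) : Pf (Real.exp u) = ∫ v in Set.Ioi u, fT v := by
  unfold Pf
  rw [int_exp]
  exact setIntegral_congr_fun measurableSet_Ioi fun v _ => (fT_eq v).symm

lemma fT_int : IntegrableOn fT (Set.Ioi 0) := by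
  have h := (intOn_exp hh 0).1 (by rw [Real.exp_zero]; exact hh_intOn)
  exact h.congr_fun (fun v _ => (fT_eq v).symm) measurableSet_Ioi

lemma exp_int {s : ℝ} (hs : 0 < s) : IntegrableOn (fun u => Real.exp (-(s * u))) (Set.Ioi 0) := by
  have := integrableOn_exp_mul_Ioi (a := -s) (by linarith) 0
  simpa using this

/-- Laplace transform of a tail integral -/
theorem lap_tail {f : ℝ → ℝ} (hf : Measurable f) (hi : IntegrableOn f (Set.Ioi 0)) {s : ℝ}
    (hs : 0 < s) : LInt (fun u => ∫ v in Set.Ioi u, f v) s ∧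
      lap (fun u => ∫ v in Set.Ioi u, f v) s = ((∫ v in Set.Ioi 0, f v) - lap f s) / s := by
  set μ := volume.restrict (Set.Ioi (0 : ℝ)) with hμ
  set G : ℝ → ℝ → ℝ := fun u v => if u < v then Real.exp (-(s * u)) * f v else 0 with hG
  have hprod : Integrable (Function.uncurry G) (μ.prod μ) := by
    have h1 : Integrable (fun z : ℝ × ℝ => Real.exp (-(s * z.1)) * f z.2) (μ.prod μ) :=
      Integrable.mul_prod (exp_int hs) hi
    have h2 : Function.uncurry G = Set.indicator {z : ℝ × ℝ | z.1 < z.2}
        (fun z : ℝ × ℝ => Real.exp (-(s * z.1)) * f z.2) := by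
      funext z
      simp only [Function.uncurry, hG, Set.indicator, Set.mem_ofPred_eq]
    rw [h2]
    exact h1.indicator (measurableSet_lt measurable_fst measurable_snd)
  have hin1 : ∀ u, 0 < u → ∫ v, G u v ∂μ = (∫ v in Set.Ioi u, f v) * Real.exp (-(s * u)) := by
    intro u hu
    have h1 : (fun v => G u v) = Set.indicator (Set.Ioi u) (fun v => Real.exp (-(s * u)) * f v) := by
      funext v
      simp only [hG, Set.indicator, Set.mem_Ioi]
    rw [h1, integral_indicator measurableSet_Ioi, hμ, Measure.restrict_restrict measurableSet_Ioi,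
      Set.Ioi_inter_Ioi, sup_eq_left.2 hu.le, integral_const_mul]
    ring
  have hin2 : ∀ v, 0 < v → ∫ u, G u v ∂μ = (f v - f v * Real.exp (-(s * v))) / s := by
    intro v hv
    have h1 : (fun u => G u v) = Set.indicator (Set.Iio v) (fun u => Real.exp (-(s * u)) * f v) := by
      funext u
      simp only [hG, Set.indicator, Set.mem_Iio]
    rw [h1, integral_indicator measurableSet_Iio, hμ, Measure.restrict_restrict measurableSet_Iio,
      Set.Iio_inter_Ioi, integral_mul_const, ← integral_Ioc_eq_integral_Ioo,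
      ← intervalIntegral.integral_of_le hv.le]
    have h2 : ∫ u in (0 : ℝ)..v, Real.exp (-(s * u)) = (1 - Real.exp (-(s * v))) / s := by
      have h3 : ∀ u ∈ Set.uIcc 0 v, HasDerivAt (fun u => -Real.exp (-(s * u)) / s)
          (Real.exp (-(s * u))) u := by
        intro u _
        have h4 := (((hasDerivAt_id u).const_mul s).neg.exp).neg.div_const s
        refine h4.congr_deriv ?_
        simp only [id, Pi.neg_apply]
        field_simp
      rw [intervalIntegral.integral_eq_sub_of_hasDerivAt h3
        (Continuous.intervalIntegrable (by fun_prop) _ _)]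
      simp
      ring
    rw [h2]
    ring
  have hL : Integrable (fun u => ∫ v, G u v ∂μ) μ := hprod.integral_prod_left
  constructor
  · unfold LInt IntegrableOn
    refine hL.congr ?_
    refine (ae_restrict_iff' measurableSet_Ioi).2 (Eventually.of_forall fun u hu => ?_)
    exact hin1 u hu
  · have h1 : lap (fun u => ∫ v in Set.Ioi u, f v) s = ∫ u, ∫ v, G u v ∂μ ∂μ := by
      unfold lap
      refine integral_congr_ae ?_
      refine (ae_restrict_iff' measurableSet_Ioi).2 (Eventually.of_forall fun u hu => ?_)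
      exact (hin1 u hu).symm
    rw [h1, integral_integral_swap hprod]
    have h2 : ∫ v, ∫ u, G u v ∂μ ∂μ = ∫ v, (f v - f v * Real.exp (-(s * v))) / s ∂μ := by
      refine integral_congr_ae ?_
      refine (ae_restrict_iff' measurableSet_Ioi).2 (Eventually.of_forall fun u hu => ?_)
      exact hin2 u hu
    rw [h2, integral_div, integral_sub hi]
    · rfl
    · have : LInt f 0 := by
        unfold LInt
        simpa using hi
      exact this.mono hf hs.le

theorem lap_Pf {s : ℝ} (hs : 0 < s) : LInt (fun u => Pf (Real.exp u)) s ∧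
    lap (fun u => Pf (Real.exp u)) s = (lap fT 0 - lap fT s) / s := by
  have h := lap_tail fT_meas fT_int hs
  have h1 : (fun u => Pf (Real.exp u)) = fun u => ∫ v in Set.Ioi u, fT v := funext Pf_exp
  rw [h1]
  refine ⟨h.1, ?_⟩
  rw [h.2]
  congr 2
  unfold lap
  simp

lemma LInt_one {s : ℝ} (hs : 0 < s) : LInt (fun _ => 1) s := by
  unfold LInt
  simpa using exp_int hs

lemma lap_one {s : ℝ} (hs : 0 < s) : lap (fun _ => 1) s = 1 / s := by
  unfold lap
  have h := integral_exp_mul_Ioi (a := -s) (by linarith) 0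
  simp only [one_mul]
  have h2 : (fun u : ℝ => Real.exp (-(s * u))) = fun u => Real.exp (-s * u) := by
    funext u; ring_nf
  rw [h2, h]
  simp

lemma fS_le (u : ℝ) : 0 ≤ fS u ∧ fS u ≤ Real.log 4 + 4 := by
  unfold fS
  refine ⟨mul_nonneg (psi_nonneg _) (Real.exp_pos _).le, ?_⟩
  have h := psi_le_const_mul_self (Real.exp_pos u).le
  calc psi (Real.exp u) * Real.exp (-u) ≤ ((Real.log 4 + 4) * Real.exp u) * Real.exp (-u) :=
        mul_le_mul_of_nonneg_right h (Real.exp_pos _).le
    _ = Real.log 4 + 4 := by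
        rw [mul_assoc, ← Real.exp_add]; simp

lemma LInt_fS {s : ℝ} (hs : 0 < s) : LInt fS s := by
  unfold LInt
  refine Integrable.mono' ((exp_int hs).const_mul (Real.log 4 + 4)) ?_ ?_
  · exact (fS_meas.mul (by fun_prop)).aestronglyMeasurable
  · refine Eventually.of_forall fun u => ?_
    rw [norm_mul, Real.norm_eq_abs, Real.norm_eq_abs, abs_of_nonneg (fS_le u).1,
      abs_of_pos (Real.exp_pos _)]
    exact mul_le_mul_of_nonneg_right (fS_le u).2 (Real.exp_pos _).le

lemma fB_nonneg (u : ℝ) : 0 ≤ fB u :=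
  mul_nonneg (sub_nonneg.2 (theta_le_psi _)) (Real.exp_pos _).le

lemma LInt_fB {s : ℝ} (hs : -(1 / 2) < s) : LInt fB s := by
  obtain ⟨C, hC⟩ := psi_sub_theta_le_mul_sqrt
  unfold LInt
  refine Integrable.mono' ((exp_int (s := s + 1 / 2) (by linarith)).const_mul C) ?_ ?_
  · exact (fB_meas.mul (by fun_prop)).aestronglyMeasurable
  · refine Eventually.of_forall fun u => ?_
    rw [norm_mul, Real.norm_eq_abs, Real.norm_eq_abs, abs_of_nonneg (fB_nonneg u),
      abs_of_pos (Real.exp_pos _)]
    unfold fB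
    have h := hC (Real.exp u)
    have h1 : √(Real.exp u) = Real.exp (u / 2) := by
      rw [Real.sqrt_eq_iff_mul_self_eq (Real.exp_pos _).le (Real.exp_pos _).le, ← Real.exp_add]
      congr 1
      ring
    rw [h1] at h
    calc (psi (Real.exp u) - theta (Real.exp u)) * Real.exp (-u) * Real.exp (-(s * u))
        ≤ (C * Real.exp (u / 2)) * Real.exp (-u) * Real.exp (-(s * u)) := by gcongr
      _ = C * Real.exp (-((s + 1 / 2) * u)) := by
          rw [mul_assoc, mul_assoc, ← Real.exp_add, ← Real.exp_add]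
          congr 2
          ring

lemma fT_split (u : ℝ) : fT u = (1 - fS u) + fB u := by
  unfold fT fS fB
  have : Real.exp u * Real.exp (-u) = 1 := by rw [← Real.exp_add]; simp
  linear_combination this

lemma lap_fT {s : ℝ} (hs : 0 < s) : lap fT s = 1 / s - lap fS s + lap fB s := by
  have h1 : fT = fun u => (1 - fS u) + fB u := funext fT_split
  rw [h1, lap_add ((LInt_one hs).sub (LInt_fS hs)) (LInt_fB (by linarith)),
    lap_sub (LInt_one hs) (LInt_fS hs), lap_one hs]

/-- the Laplace transform of `ψ` -/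
theorem lap_fS {s : ℝ} (hs : 0 < s) : (lap fS s : ℂ) =
    -(deriv riemannZeta (1 + s) / riemannZeta (1 + s)) / (1 + s) := by
  have hre : (1 : ℝ) < ((1 : ℂ) + s).re := by simp; linarith
  have h1 := LSeries_eq_mul_integral_of_nonneg (fun n => ArithmeticFunction.vonMangoldt n)
    (r := 1) zero_le_one (s := (1 : ℂ) + s) hre ?_ (fun n => ArithmeticFunction.vonMangoldt_nonneg)
  · rw [ArithmeticFunction.LSeries_vonMangoldt_eq_deriv_riemannZeta_div hre] at h1
    have hne : (1 : ℂ) + s ≠ 0 := by
      intro h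
      have := congrArg Complex.re h
      simp at this
      linarith
    have h2 : ∫ t in Set.Ioi (1 : ℝ), (∑ k ∈ Icc 1 ⌊t⌋₊,
        ((ArithmeticFunction.vonMangoldt k : ℝ) : ℂ)) * (t : ℂ) ^ (-((1 : ℂ) + s + 1)) =
        ((∫ t in Set.Ioi (1 : ℝ), psi t * t ^ (-(s + 2)) : ℝ) : ℂ) := by
      rw [← integral_complex_ofReal]
      refine setIntegral_congr_fun measurableSet_Ioi fun t ht => ?_
      have ht0 : (0 : ℝ) ≤ t := by
        have : (1 : ℝ) < t := ht
        linarith
      rw [← Complex.ofReal_sum]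
      have e1 : ∑ k ∈ Icc 1 ⌊t⌋₊, ArithmeticFunction.vonMangoldt k = psi t := by
        unfold Chebyshev.psi
        rfl
      have e2 : (-((1 : ℂ) + s + 1)) = ((-(s + 2) : ℝ) : ℂ) := by push_cast; ring
      rw [e1, e2, ← Complex.ofReal_cpow ht0, ← Complex.ofReal_mul]
    rw [h2] at h1
    have h3 : ∫ t in Set.Ioi (1 : ℝ), psi t * t ^ (-(s + 2)) = lap fS s := by
      have h4 := int_exp (fun t => psi t * t ^ (-(s + 2))) 0
      rw [Real.exp_zero] at h4
      rw [h4]
      unfold lap
      refine setIntegral_congr_fun measurableSet_Ioi fun u _ => ?_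
      simp only [fS]
      rw [← Real.exp_mul, mul_assoc, ← Real.exp_add, mul_left_comm, ← Real.exp_add]
      congr 2
      ring
    rw [h3] at h1
    field_simp
    rw [← neg_div]
    rw [h1]
    ring
  · have h4 : (fun n : ℕ => ∑ k ∈ Icc 1 n, ArithmeticFunction.vonMangoldt k) =
        fun n : ℕ => psi n := by
      funext n
      unfold Chebyshev.psi
      rw [Nat.floor_natCast]
      rfl
    rw [h4]
    refine Asymptotics.IsBigO.of_bound (Real.log 4 + 4) (Eventually.of_forall fun n => ?_)
    rw [Real.norm_eq_abs, Real.norm_eq_abs, abs_of_nonneg (psi_nonneg _), Real.rpow_one,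
      abs_of_nonneg (Nat.cast_nonneg n)]
    exact psi_le_const_mul_self (Nat.cast_nonneg n)

/-- `ζ₁'(1+w)/ζ₁(1+w)` -/
noncomputable def Gc (w : ℂ) : ℂ := deriv riemannZeta₁ (1 + w) / riemannZeta₁ (1 + w)

lemma zeta1_ne {s : ℝ} (hs : 0 < s) : riemannZeta₁ (1 + s) ≠ 0 := by
  have h1 : (1 : ℂ) + s ≠ 1 := by
    intro h
    have := congrArg Complex.re h
    simp at this
    linarith
  intro h
  have h2 := riemannZeta_eq_inv_sub_mul h1
  rw [h, mul_zero] at h2
  exact riemannZeta_ne_zero_of_one_lt_re (by simp; linarith) h2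

theorem lap_fT_eq {s : ℝ} (hs : 0 < s) : (lap fT s : ℂ) =
    1 / (1 + s) + Gc s / (1 + s) + lapC fB s := by
  have h1 : (1 : ℂ) + s ≠ 1 := by
    intro h
    have := congrArg Complex.re h
    simp at this
    linarith
  have hs0 : (s : ℂ) ≠ 0 := by exact_mod_cast hs.ne'
  have hs1 : (1 : ℂ) + s ≠ 0 := by
    intro h
    have := congrArg Complex.re h
    simp at this
    linarith
  have hz := zeta1_ne hs
  rw [lap_fT hs, lapC_ofReal]
  push_cast
  rw [lap_fS hs, deriv_riemannZeta_eq_neg_inv_sub_sq_mul_add h1, riemannZeta_eq_inv_sub_mul h1]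
  unfold Gc
  have e : (1 : ℂ) + s - 1 = s := by ring
  rw [e]
  field_simp
  ring

end Pool.Agent.U334.RN
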