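import Mathlib
import Pool.Agent.U334.RN.Osc2
import Pool.Agent.Helper791_Cyc.E2

set_option autoImplicit false

/-! Oscillation of the remainder term in the theorem of Mertens. -/

namespace Pool.Agent.U334.RN

open Real Finset MeasureTheory Filter Topology Chebyshev
open Pool.Agent.W263.BSD

lemma zeta1_real_ne {s : ℝ} (hs : -1 < s) : riemannZeta₁ (1 + (s : ℂ)) ≠ 0 := fun h =>
  Pool.Agent.Helper791.Cyc.E2_z1_zero_im (s := 1 + (s : ℂ)) (by simp; linarith) h (by simp)

lemma analyticAt_z1 (w : ℂ) : AnalyticAt ℂ (fun w : ℂ => riemannZeta₁ (1 + w)) w := by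
  have h1 : AnalyticAt ℂ riemannZeta₁ (1 + w) :=
    differentiable_riemannZeta₁.analyticAt _
  exact h1.comp_of_eq (analyticAt_const.add analyticAt_id) rfl

lemma analyticAt_dz1 (w : ℂ) : AnalyticAt ℂ (fun w : ℂ => deriv riemannZeta₁ (1 + w)) w := by
  have h1 : AnalyticAt ℂ (deriv riemannZeta₁) (1 + w) :=
    (differentiable_riemannZeta₁.analyticAt _).deriv
  exact h1.comp_of_eq (analyticAt_const.add analyticAt_id) rfl

lemma analyticAt_lapC {f : ℝ → ℝ} (hf : Measurable f) (h0 : ∀ u, 0 < u → 0 ≤ f u)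
    {w0 : ℝ} (h : ∀ w > w0, LInt f w) {z : ℂ} (hz : w0 < z.re) : AnalyticAt ℂ (lapC f) z := by
  have hd : DifferentiableOn ℂ (lapC f) {z : ℂ | w0 < z.re} := fun z hz =>
    (lapC_differentiableAt_pos hf h0 h hz).differentiableWithinAt
  exact hd.analyticAt ((isOpen_lt continuous_const Complex.continuous_re).mem_nhds hz)

lemma analyticAt_fB {z : ℂ} (hz : -(1 / 2) < z.re) : AnalyticAt ℂ (lapC fB) z :=
  analyticAt_lapC fB_meas (fun u _ => fB_nonneg u) (fun _ hw => LInt_fB hw) hz

/-- the analytic continuation of the Laplace transform of `fT` -/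
noncomputable def Ac (w : ℂ) : ℂ := 1 / (1 + w) + Gc w / (1 + w) + lapC fB w

lemma analyticAt_Ac {w : ℝ} (hw : -(1 / 2) < w) : AnalyticAt ℂ Ac (w : ℂ) := by
  have h1 : (1 : ℂ) + w ≠ 0 := by
    intro h
    have := congrArg Complex.re h
    simp at this
    linarith
  have ha : AnalyticAt ℂ (fun w : ℂ => 1 + w) (w : ℂ) := analyticAt_const.add analyticAt_id
  unfold Ac
  refine ((analyticAt_const.div ha h1).add (AnalyticAt.div ?_ ha h1)).add
    (analyticAt_fB (by simpa using hw))
  unfold Gc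
  exact (analyticAt_dz1 _).div (analyticAt_z1 _) (zeta1_real_ne (by linarith))

/-- its restriction to the real axis -/
noncomputable def Ar (w : ℝ) : ℝ := (Ac w).re

lemma analyticAt_Ar {w : ℝ} (hw : -(1 / 2) < w) : AnalyticAt ℝ Ar w :=
  (analyticAt_Ac hw).re_ofReal

lemma lap_fT_Ar {s : ℝ} (hs : 0 < s) : lap fT s = Ar s := by
  have h := lap_fT_eq hs
  unfold Ar Ac
  rw [← h, Complex.ofReal_re]

lemma lap_fT_cont : Tendsto (fun s => lap fT s) (𝓝[>] 0) (𝓝 (lap fT 0)) := by
  unfold lap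
  refine tendsto_integral_filter_of_dominated_convergence (fun u => |fT u|) ?_ ?_ ?_ ?_
  · refine Eventually.of_forall fun s => ?_
    exact (fT_meas.mul (by fun_prop)).aestronglyMeasurable
  · filter_upwards [self_mem_nhdsWithin] with s hs
    refine (ae_restrict_iff' measurableSet_Ioi).2 (Eventually.of_forall fun u hu => ?_)
    rw [norm_mul, Real.norm_eq_abs, Real.norm_eq_abs, abs_of_pos (Real.exp_pos _)]
    have h1 : Real.exp (-(s * u)) ≤ 1 := by
      rw [Real.exp_le_one_iff]
      have : 0 < s * u := mul_pos hs hu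
      linarith
    nlinarith [abs_nonneg (fT u)]
  · exact fT_int.norm
  · refine Eventually.of_forall fun u => ?_
    have hc : Continuous fun s : ℝ => fT u * Real.exp (-(s * u)) := by fun_prop
    exact (hc.tendsto 0).mono_left nhdsWithin_le_nhds

lemma lap_fT_zero : lap fT 0 = Ar 0 := by
  have h1 := lap_fT_cont
  have h2 : Tendsto Ar (𝓝[>] 0) (𝓝 (Ar 0)) :=
    ((analyticAt_Ar (w := 0) (by norm_num)).continuousAt.tendsto).mono_left nhdsWithin_le_nhds
  have h3 : Tendsto (fun s => lap fT s) (𝓝[>] 0) (𝓝 (Ar 0)) := by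
    refine h2.congr' ?_
    filter_upwards [self_mem_nhdsWithin] with s hs
    exact (lap_fT_Ar hs).symm
  exact tendsto_nhds_unique h1 h3

lemma analyticAt_dslope {f : ℝ → ℝ} {z₀ w : ℝ} (h0 : AnalyticAt ℝ f z₀) (hw : AnalyticAt ℝ f w) :
    AnalyticAt ℝ (dslope f z₀) w := by
  by_cases h : w = z₀
  · subst h
    obtain ⟨p, hp⟩ := h0
    exact ⟨_, hp.has_fpower_series_dslope_fslope⟩
  · have h1 : AnalyticAt ℝ (fun z => (z - z₀)⁻¹ * (f z - f z₀)) w :=
      ((analyticAt_id.sub analyticAt_const).inv (sub_ne_zero.2 h)).mul (hw.sub analyticAt_const)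
    refine h1.congr ?_
    filter_upwards [isOpen_ne.mem_nhds h] with z hz
    rw [dslope_of_ne _ hz, slope_def_field, div_eq_inv_mul]

/-- `C e^(-b u) - Pf (e^u)` -/
noncomputable def ff (C b : ℝ) (u : ℝ) : ℝ := C * Real.exp (-(b * u)) - Pf (Real.exp u)

lemma Pf_exp_meas : Measurable fun u => Pf (Real.exp u) := by
  have h1 : (fun u => Pf (Real.exp u)) = fun u => ∫ v, (Set.indicator {z : ℝ × ℝ | z.1 < z.2}
      (fun z : ℝ × ℝ => fT z.2)) (u, v) := by
    funext u
    rw [Pf_exp, ← integral_indicator measurableSet_Ioi]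
    congr 1
  rw [h1]
  have h2 : StronglyMeasurable (Set.indicator {z : ℝ × ℝ | z.1 < z.2}
      (fun z : ℝ × ℝ => fT z.2)) :=
    (Measurable.indicator (fT_meas.comp measurable_snd)
      (measurableSet_lt measurable_fst measurable_snd)).stronglyMeasurable
  exact (h2.integral_prod_right').measurable

lemma ff_meas (C b : ℝ) : Measurable (ff C b) := by
  unfold ff
  have := Pf_exp_meas
  fun_prop

lemma LInt_exp {b s : ℝ} (hs : -b < s) : LInt (fun u => Real.exp (-(b * u))) s := by
  unfold LInt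
  refine (exp_int (s := b + s) (by linarith)).congr_fun (fun u _ => ?_) measurableSet_Ioi
  simp only
  rw [← Real.exp_add]
  congr 1
  ring

lemma lap_exp {b s : ℝ} (hs : -b < s) : lap (fun u => Real.exp (-(b * u))) s = 1 / (b + s) := by
  unfold lap
  have h := integral_exp_mul_Ioi (a := -(b + s)) (by linarith) 0
  have h2 : (fun u : ℝ => Real.exp (-(b * u)) * Real.exp (-(s * u))) =
      fun u => Real.exp (-(b + s) * u) := by
    funext u
    rw [← Real.exp_add]
    congr 1
    ring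
  rw [h2, h]
  simp
  rw [neg_div, ← div_neg]
  ring_nf

lemma ff_pos {C b s : ℝ} (hb : 0 < b) (hs : 0 < s) : LInt (ff C b) s ∧
    lap (ff C b) s = C / (b + s) + dslope Ar 0 s := by
  have h1 : LInt (fun u => C * Real.exp (-(b * u))) s :=
    (LInt_exp (by linarith : -b < s)).const_mul C
  have h2 := lap_Pf hs
  refine ⟨h1.sub h2.1, ?_⟩
  unfold ff
  rw [lap_sub h1 h2.1, lap_const_mul, lap_exp (by linarith), h2.2, lap_fT_zero, lap_fT_Ar hs,
    dslope_of_ne _ hs.ne', slope_def_field, sub_zero]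
  ring

/-- Landau's lemma applied to `ff` -/
theorem ff_landau {C b a : ℝ} (hb : 0 < b) (hab : -b ≤ a) (ha : -(1 / 2) ≤ a)
    (h : ∀ y : ℝ, 1 ≤ y → Pf y ≤ C * y ^ (-b)) :
    (∀ u, 0 < u → 0 ≤ ff C b u) ∧ (∀ w > a, LInt (ff C b) w) ∧
      ∀ w > a, lap (ff C b) w = C / (b + w) + dslope Ar 0 w := by
  have h0 : ∀ u, 0 < u → 0 ≤ ff C b u := fun u hu => by
    unfold ff
    have h1 := h (Real.exp u) (Real.one_le_exp hu.le)
    rw [← Real.exp_mul] at h1
    have h2 : u * -b = -(b * u) := by ring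
    rw [h2] at h1
    linarith
  have h1 := Pool.Agent.TH988.RB.landau_lap (ff_meas C b) h0 (a := a) (w1 := 0)
    (fun w hw => (ff_pos hb hw).1) (g := fun w => C / (b + w) + dslope Ar 0 w) ?_
    (fun w hw _ => (ff_pos hb hw).2)
  · exact ⟨h0, h1⟩
  · intro w hw
    have hw' : a < w := hw
    refine AnalyticAt.add ?_ (analyticAt_dslope (analyticAt_Ar (by norm_num))
      (analyticAt_Ar (by linarith)))
    exact analyticAt_const.div (analyticAt_const.add analyticAt_id)
      (by have : 0 < b + w := by linarith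
          exact this.ne')

/-- `f' = f K` with `K` continuous forces `f = 0` near a zero of the analytic function `f`. -/
lemma ode_zero {f K : ℂ → ℂ} {z₀ : ℂ} (hf : AnalyticAt ℂ f z₀) (h0 : f z₀ = 0)
    (hK : ContinuousAt K z₀) (h : ∀ᶠ z in 𝓝 z₀, deriv f z = f z * K z) :
    ∀ᶠ z in 𝓝 z₀, f z = 0 := by
  by_contra hne
  obtain ⟨n, g, hg, hg0, hev⟩ := hf.exists_eventuallyEq_pow_smul_nonzero_iff.2 hne
  have hn : n ≠ 0 := by
    rintro rfl
    have h1 := hev.self_of_nhds
    rw [h0] at h1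
    simp at h1
    exact hg0 h1.symm
  obtain ⟨m, rfl⟩ := Nat.exists_eq_succ_of_ne_zero hn
  have hd : ∀ᶠ z in 𝓝 z₀, deriv f z =
      (m + 1 : ℂ) * (z - z₀) ^ m * g z + (z - z₀) ^ (m + 1) * deriv g z := by
    have h1 : ∀ᶠ z in 𝓝 z₀, f =ᶠ[𝓝 z] fun z => (z - z₀) ^ (m + 1) • g z :=
      hev.eventually_nhds
    filter_upwards [h1, hg.eventually_analyticAt] with z hz hgz
    rw [hz.deriv_eq]
    have h2 : HasDerivAt (fun z => (z - z₀) ^ (m + 1) • g z)
        (((m + 1 : ℕ) : ℂ) * (z - z₀) ^ m * 1 * g z + (z - z₀) ^ (m + 1) * deriv g z) z := by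
      have h3 := (((hasDerivAt_id z).sub_const z₀).pow (m + 1)).mul
        hgz.differentiableAt.hasDerivAt
      refine h3.congr_deriv ?_
      simp
    rw [h2.deriv]
    push_cast
    ring
  have h2 : ∀ᶠ z in 𝓝[≠] z₀, (m + 1 : ℂ) * g z = (z - z₀) * (g z * K z - deriv g z) := by
    filter_upwards [hd.filter_mono nhdsWithin_le_nhds, h.filter_mono nhdsWithin_le_nhds,
      hev.filter_mono nhdsWithin_le_nhds, self_mem_nhdsWithin] with z h3 h4 h5 h6
    have h7 : z - z₀ ≠ 0 := sub_ne_zero.2 h6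
    have h8 : (z - z₀) ^ m ≠ 0 := pow_ne_zero m h7
    rw [h3, h5, smul_eq_mul, Nat.succ_eq_add_one] at h4
    have h9 : (z - z₀) ^ m * ((m + 1 : ℂ) * g z) =
        (z - z₀) ^ m * ((z - z₀) * (g z * K z - deriv g z)) := by
      linear_combination h4
    exact mul_left_cancel₀ h8 h9
  have hgc : ContinuousAt g z₀ := hg.continuousAt
  have hdgc : ContinuousAt (deriv g) z₀ := hg.deriv.continuousAt
  have l1 : Tendsto (fun z => (m + 1 : ℂ) * g z) (𝓝[≠] z₀) (𝓝 ((m + 1 : ℂ) * g z₀)) :=
    ((continuousAt_const.mul hgc).tendsto).mono_left nhdsWithin_le_nhds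
  have l2 : Tendsto (fun z => (z - z₀) * (g z * K z - deriv g z)) (𝓝[≠] z₀) (𝓝 0) := by
    have hc : ContinuousAt (fun z => (z - z₀) * (g z * K z - deriv g z)) z₀ :=
      (continuousAt_id.sub continuousAt_const).mul ((hgc.mul hK).sub hdgc)
    have h3 := hc.tendsto.mono_left (nhdsWithin_le_nhds (s := {z₀}ᶜ))
    simpa using h3
  have h3 := tendsto_nhds_unique (l1.congr' h2) l2
  have h4 : (m + 1 : ℂ) ≠ 0 := by exact_mod_cast Nat.succ_ne_zero m
  exact (mul_ne_zero h4 hg0) h3

/-- **Oscillation**, part 1. -/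
theorem osc_zero {ρ : ℂ} (hρ : riemannZeta ρ = 0) (h2 : 1 / 2 < ρ.re) {b : ℝ}
    (hb : 1 - ρ.re < b) (y₀ : ℝ) : ∃ y : ℝ, y₀ ≤ y ∧ y ^ (-b) < JJ y := by
  by_contra hcon
  push Not at hcon
  have hρ1 : ρ ≠ 1 := by
    rintro rfl
    exact riemannZeta_one_ne_zero hρ
  have hre1 : ρ.re < 1 := by
    by_contra hc
    exact riemannZeta_ne_zero_of_one_le_re (not_lt.1 hc) hρ
  obtain ⟨b', hb1, hb2⟩ : ∃ b', 1 - ρ.re < b' ∧ b' < min b (1 / 2) :=
    exists_between (lt_min hb (by linarith))
  have hb0 : 0 < b' := by linarith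
  obtain ⟨C, hC, hP⟩ := Pf_le_rpow (b := b) (b' := b') (y₀ := max y₀ 2) hb0
    (lt_of_lt_of_le hb2 (min_le_left _ _)) (le_max_right _ _)
    (fun y hy => hcon y ((le_max_left _ _).trans hy))
  have hb2' : b' < 1 / 2 := lt_of_lt_of_le hb2 (min_le_right _ _)
  obtain ⟨hf0, hL, -⟩ := ff_landau (a := -b') hb0 le_rfl (by linarith) hP
  set U : Set ℂ := {z : ℂ | -b' < z.re} with hU
  have hUo : IsOpen U := isOpen_lt continuous_const Complex.continuous_re
  have hUp : IsPreconnected U := (convex_halfSpace_re_gt (-b')).isPreconnected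
  have hA0 : AnalyticOnNhd ℂ (lapC (ff C b')) U := fun z hz =>
    analyticAt_lapC (ff_meas C b') hf0 hL hz
  set E1 : ℂ → ℂ := fun w => w * (1 + w) * (b' + w) * riemannZeta₁ (1 + w) * lapC (ff C b') w
    with hE1
  set E2 : ℂ → ℂ := fun w => C * w * (1 + w) * riemannZeta₁ (1 + w) + (b' + w) *
    (riemannZeta₁ (1 + w) + deriv riemannZeta₁ (1 + w) + (1 + w) * riemannZeta₁ (1 + w) *
      (lapC fB w - lap fT 0)) with hE2
  have aid : ∀ z : ℂ, AnalyticAt ℂ (fun w : ℂ => w) z := fun z => analyticAt_id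
  have a1 : ∀ z : ℂ, AnalyticAt ℂ (fun w : ℂ => 1 + w) z := fun z =>
    analyticAt_const.add (aid z)
  have a2 : ∀ z : ℂ, AnalyticAt ℂ (fun w : ℂ => (b' : ℂ) + w) z := fun z =>
    analyticAt_const.add (aid z)
  have hA1 : AnalyticOnNhd ℂ E1 U := fun z hz =>
    ((((aid z).mul (a1 z)).mul (a2 z)).mul (analyticAt_z1 z)).mul (hA0 z hz)
  have hfB : ∀ z ∈ U, AnalyticAt ℂ (lapC fB) z := fun z hz =>
    analyticAt_fB (by have : -b' < z.re := hz; linarith)
  have hA2 : AnalyticOnNhd ℂ E2 U := fun z hz => by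
    refine AnalyticAt.add (((analyticAt_const.mul (aid z)).mul (a1 z)).mul (analyticAt_z1 z)) ?_
    refine (a2 z).mul (((analyticAt_z1 z).add (analyticAt_dz1 z)).add ?_)
    exact ((a1 z).mul (analyticAt_z1 z)).mul ((hfB z hz).sub analyticAt_const)
  have hreal : ∀ s : ℝ, 0 < s → E1 s = E2 s := by
    intro s hs
    have h3 := (ff_pos (C := C) hb0 hs).2
    have h4 : lap (ff C b') s = C / (b' + s) - (lap fT 0 - lap fT s) / s := by
      rw [h3, dslope_of_ne _ hs.ne', slope_def_field, sub_zero, lap_fT_zero, lap_fT_Ar hs]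
      ring
    have h5 := lap_fT_eq hs
    have hs0 : (s : ℂ) ≠ 0 := by exact_mod_cast hs.ne'
    have hs1 : (1 : ℂ) + s ≠ 0 := by
      intro h
      have := congrArg Complex.re h
      simp at this
      linarith
    have hs2 : (b' : ℂ) + s ≠ 0 := by
      intro h
      have := congrArg Complex.re h
      simp at this
      linarith
    have hz := zeta1_real_ne (s := s) (by linarith)
    simp only [hE1, hE2]
    rw [lapC_ofReal (ff C b'), h4]
    push_cast
    rw [h5]
    unfold Gc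
    field_simp
    ring
  have hfreq : ∃ᶠ z in 𝓝[≠] (1 : ℂ), E1 z = E2 z := by
    have ht : Tendsto (fun t : ℝ => (t : ℂ)) (𝓝[>] 1) (𝓝[≠] (1 : ℂ)) := by
      refine tendsto_nhdsWithin_of_tendsto_nhds_of_eventually_within _ ?_ ?_
      · have := (Complex.continuous_ofReal.tendsto (1 : ℝ)).mono_left
          (nhdsWithin_le_nhds (s := Set.Ioi 1))
        simpa using this
      · filter_upwards [self_mem_nhdsWithin] with t ht
        have ht' : (1 : ℝ) < t := ht
        intro h
        have h' : (t : ℂ) = 1 := h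
        have : t = 1 := by exact_mod_cast h'
        linarith
    refine ht.frequently (Eventually.frequently ?_)
    filter_upwards [self_mem_nhdsWithin] with t ht
    have ht' : (1 : ℝ) < t := ht
    exact hreal t (by linarith)
  have h1U : (1 : ℂ) ∈ U := by
    show -b' < (1 : ℂ).re
    simp
    linarith
  have heq := hA1.eqOn_of_preconnected_of_frequently_eq hA2 hUp h1U hfreq
  -- at the zero
  have hwU : ρ - 1 ∈ U := by
    show -b' < (ρ - 1).re
    simp
    linarith
  have hz1 : riemannZeta₁ ρ = 0 := by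
    have := riemannZeta_eq_inv_sub_mul hρ1
    rw [hρ] at this
    rcases mul_eq_zero.1 this.symm with h | h
    · exact absurd h (inv_ne_zero (sub_ne_zero.2 hρ1))
    · exact h
  set H : ℂ → ℂ := fun z => ((z - 1) * z * (b' + (z - 1)) * lapC (ff C b') (z - 1)
    - C * (z - 1) * z - (b' + (z - 1)) * (1 + z * (lapC fB (z - 1) - lap fT 0))) /
      (b' + (z - 1)) with hH
  have hbne : (b' : ℂ) + (ρ - 1) ≠ 0 := by
    intro h
    have := congrArg Complex.re h
    simp at this
    linarith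
  have hKc : ContinuousAt H ρ := by
    have c0 : ContinuousAt (fun z : ℂ => z - 1) ρ := continuousAt_id.sub continuousAt_const
    have c1 : ContinuousAt (fun z => lapC (ff C b') (z - 1)) ρ :=
      ContinuousAt.comp_of_eq (g := lapC (ff C b')) (hA0 _ hwU).continuousAt c0 rfl
    have c2 : ContinuousAt (fun z => lapC fB (z - 1)) ρ :=
      ContinuousAt.comp_of_eq (g := lapC fB) (hfB _ hwU).continuousAt c0 rfl
    have c3 : ContinuousAt (fun z : ℂ => z) ρ := continuousAt_id
    refine ContinuousAt.div ?_ (continuousAt_const.add c0) hbne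
    exact (((((c0.mul c3).mul (continuousAt_const.add c0)).mul c1).sub
      ((continuousAt_const.mul c0).mul c3)).sub
      ((continuousAt_const.add c0).mul (continuousAt_const.add (c3.mul
        (c2.sub continuousAt_const)))))
  have hode : ∀ᶠ z in 𝓝 ρ, deriv riemannZeta₁ z = riemannZeta₁ z * H z := by
    have n1 : ∀ᶠ z in 𝓝 ρ, z - 1 ∈ U := by
      have hc : ContinuousAt (fun z : ℂ => z - 1) ρ := continuousAt_id.sub continuousAt_const
      exact hc.eventually (hUo.mem_nhds hwU)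
    have n2 : ∀ᶠ z in 𝓝 ρ, (b' : ℂ) + (z - 1) ≠ 0 := by
      have hc : ContinuousAt (fun z : ℂ => (b' : ℂ) + (z - 1)) ρ :=
        continuousAt_const.add (continuousAt_id.sub continuousAt_const)
      exact hc.eventually_ne hbne
    filter_upwards [n1, n2] with z hz hzb
    have h3 := heq hz
    simp only [hE1, hE2] at h3
    have e : 1 + (z - 1) = z := by ring
    rw [e] at h3
    simp only [hH]
    rw [← mul_div_assoc, eq_div_iff hzb]
    linear_combination (-1 : ℂ) * h3
  have hloc := ode_zero (differentiable_riemannZeta₁.analyticAt ρ) hz1 hKc hode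
  have hall : riemannZeta₁ = fun _ => 0 := by
    have h3 : AnalyticOnNhd ℂ riemannZeta₁ Set.univ := fun z _ =>
      differentiable_riemannZeta₁.analyticAt z
    have h4 := h3.eqOn_zero_of_preconnected_of_eventuallyEq_zero isPreconnected_univ
      (Set.mem_univ ρ) hloc
    funext z
    exact h4 (Set.mem_univ z)
  have h5 := congrFun hall 1
  rw [riemannZeta₁_one] at h5
  exact one_ne_zero h5

end Pool.Agent.U334.RN
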