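import Mathlib
import Pool.Agent.U334.RN.Osc3

set_option autoImplicit false

/-! Oscillation of the remainder term in the theorem of Mertens: the bias of the squares. -/

namespace Pool.Agent.U334.RN

open Real Finset MeasureTheory Filter Topology Chebyshev
open Pool.Agent.W263.BSD

lemma psi_theta_lower : ∃ t₀ : ℝ, 1 ≤ t₀ ∧ ∀ t, t₀ ≤ t → √t / 4 ≤ psi t - theta t := by
  have h1 : ∀ᶠ x : ℝ in atTop, x / 4 ≤ (x - 1) * Real.log 2 - Real.log (x + 2) := by
    have l1 : (fun x : ℝ => Real.log (x + 2)) =o[atTop] fun x => x := by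
      have h2 : (fun x : ℝ => Real.log (x + 2)) =o[atTop] fun x => x + 2 :=
        (Real.isLittleO_log_id_atTop).comp_tendsto (tendsto_atTop_add_const_right atTop 2 tendsto_id)
      refine h2.trans_isBigO ?_
      refine Asymptotics.IsBigO.of_bound 3 ?_
      filter_upwards [eventually_ge_atTop 1] with x hx
      rw [Real.norm_eq_abs, Real.norm_eq_abs, abs_of_pos (by linarith), abs_of_pos (by linarith)]
      linarith
    have l2 := l1.def (c := 1 / 100) (by norm_num)
    filter_upwards [l2, eventually_ge_atTop 100] with x hx hx2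
    rw [Real.norm_eq_abs, Real.norm_eq_abs, abs_of_pos (by linarith : 0 < x),
      abs_of_nonneg (Real.log_nonneg (by linarith))] at hx
    have := Real.log_two_gt_d9
    nlinarith
  obtain ⟨x₀, hx₀⟩ := eventually_atTop.1 h1
  refine ⟨max 1 (x₀ ^ 2), le_max_left _ _, fun t ht => ?_⟩
  have ht1 : 1 ≤ t := (le_max_left _ _).trans ht
  have ht2 : x₀ ^ 2 ≤ t := (le_max_right _ _).trans ht
  have hs : x₀ ≤ √t := Real.le_sqrt_of_sq_le ht2
  have h2 := hx₀ (√t) hs
  have h3 := psi_ge' (Real.sqrt_nonneg t)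
  have h4 := psi_sub_theta_ge_psi_add_psi_add_psi (x := t) (by linarith)
  have h5 : t ^ (2 : ℝ)⁻¹ = √t := by
    rw [Real.sqrt_eq_rpow]; norm_num
  rw [h5] at h4
  have h6 := psi_nonneg (t ^ (3 : ℝ)⁻¹)
  have h7 := psi_nonneg (t ^ (7 : ℝ)⁻¹)
  linarith

/-- the Laplace transform of `fB` is unbounded near `-1/2` -/
lemma lap_fB_lower : ∃ c : ℝ, 0 < c ∧ ∀ w : ℝ, -(1 / 2) < w → w ≤ 0 →
    c / (w + 1 / 2) ≤ lap fB w := by
  obtain ⟨t₀, ht₀, h⟩ := psi_theta_lower
  set u₀ := Real.log t₀ with hu₀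
  have hu0 : 0 ≤ u₀ := Real.log_nonneg ht₀
  refine ⟨Real.exp (-u₀) / 4, by positivity, fun w hw hw0 => ?_⟩
  have hL : LInt fB w := LInt_fB hw
  have hint : IntegrableOn (fun u => 1 / 4 * Real.exp (-(w + 1 / 2) * u)) (Set.Ioi u₀) :=
    (integrableOn_exp_mul_Ioi (by linarith) u₀).const_mul _
  have h1 : ∫ u in Set.Ioi u₀, 1 / 4 * Real.exp (-(w + 1 / 2) * u) ≤
      ∫ u in Set.Ioi u₀, fB u * Real.exp (-(w * u)) := by
    refine setIntegral_mono_on hint (hL.mono_set (Set.Ioi_subset_Ioi hu0)) measurableSet_Ioi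
      fun u hu => ?_
    have hu' : t₀ ≤ Real.exp u := by
      rw [← Real.log_le_iff_le_exp (by linarith)]
      exact le_of_lt hu
    have h2 := h (Real.exp u) hu'
    have h3 : √(Real.exp u) = Real.exp (u / 2) := by
      rw [Real.sqrt_eq_iff_mul_self_eq (Real.exp_pos _).le (Real.exp_pos _).le, ← Real.exp_add]
      congr 1
      ring
    rw [h3] at h2
    unfold fB
    calc 1 / 4 * Real.exp (-(w + 1 / 2) * u) =
          (Real.exp (u / 2) / 4) * Real.exp (-u) * Real.exp (-(w * u)) := by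
          have : Real.exp (-(w + 1 / 2) * u) =
              Real.exp (u / 2) * Real.exp (-u) * Real.exp (-(w * u)) := by
            rw [← Real.exp_add, ← Real.exp_add]
            congr 1
            ring
          rw [this]
          ring
      _ ≤ (psi (Real.exp u) - theta (Real.exp u)) * Real.exp (-u) * Real.exp (-(w * u)) := by
          gcongr
  have h2 : ∫ u in Set.Ioi u₀, fB u * Real.exp (-(w * u)) ≤ lap fB w := by
    unfold lap
    refine setIntegral_mono_set hL ?_ (Set.Ioi_subset_Ioi hu0).eventuallyLE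
    exact Eventually.of_forall fun u => mul_nonneg (fB_nonneg u) (Real.exp_pos _).le
  have h3 : ∫ u in Set.Ioi u₀, 1 / 4 * Real.exp (-(w + 1 / 2) * u) =
      1 / 4 * (Real.exp (-(w + 1 / 2) * u₀) / (w + 1 / 2)) := by
    rw [integral_const_mul, integral_exp_mul_Ioi (by linarith)]
    congr 1
    rw [div_neg, neg_div, neg_neg]
  have h4 : Real.exp (-u₀) ≤ Real.exp (-(w + 1 / 2) * u₀) := by
    apply Real.exp_le_exp.2
    nlinarith
  rw [h3] at h1
  have hw2 : 0 < w + 1 / 2 := by linarith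
  have h5 : Real.exp (-u₀) / 4 / (w + 1 / 2) ≤
      1 / 4 * (Real.exp (-(w + 1 / 2) * u₀) / (w + 1 / 2)) := by
    rw [div_div, mul_comm (1 / 4 : ℝ), div_mul_eq_mul_div, mul_one_div, div_div,
      mul_comm (4 : ℝ)]
    gcongr
  linarith

lemma Gc_bdd : ∃ B : ℝ, ∀ w : ℝ, -(1 / 2) ≤ w → w ≤ 0 → |(Gc (w : ℂ)).re| ≤ B := by
  have hc : ContinuousOn (fun w : ℝ => |(Gc (w : ℂ)).re|) (Set.Icc (-(1 / 2)) 0) := by
    intro w hw
    have h1 : ContinuousAt Gc (w : ℂ) := by
      unfold Gc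
      exact ((analyticAt_dz1 _).div (analyticAt_z1 _)
        (zeta1_real_ne (by linarith [hw.1]))).continuousAt
    have h2 : ContinuousAt (fun w : ℝ => Gc (w : ℂ)) w :=
      ContinuousAt.comp_of_eq h1 Complex.continuous_ofReal.continuousAt rfl
    exact ((Complex.continuous_re.continuousAt.comp h2).abs).continuousWithinAt
  obtain ⟨B, hB⟩ := (isCompact_Icc.image_of_continuousOn hc).bddAbove
  exact ⟨B, fun w h1 h2 => hB ⟨w, ⟨h1, h2⟩, rfl⟩⟩

lemma Ar_lower : ∃ c B : ℝ, 0 < c ∧ ∀ w : ℝ, -(1 / 2) < w → w ≤ 0 →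
    c / (w + 1 / 2) - B ≤ Ar w := by
  obtain ⟨c, hc, h1⟩ := lap_fB_lower
  obtain ⟨B, hB⟩ := Gc_bdd
  refine ⟨c, 2 * |B|, hc, fun w hw hw0 => ?_⟩
  have h2 := h1 w hw hw0
  have h3 := hB w hw.le hw0
  have h4 : Ar w = 1 / (1 + w) + (Gc (w : ℂ)).re / (1 + w) + lap fB w := by
    unfold Ar Ac
    rw [lapC_ofReal]
    have e1 : (1 : ℂ) + w = ((1 + w : ℝ) : ℂ) := by push_cast; rfl
    rw [e1, Complex.add_re, Complex.add_re, Complex.div_ofReal_re, Complex.div_ofReal_re,
      Complex.ofReal_re, Complex.one_re]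
  rw [h4]
  have hw1 : 1 / 2 < 1 + w := by linarith
  have h5 : |(Gc (w : ℂ)).re / (1 + w)| ≤ 2 * |B| := by
    rw [abs_div, abs_of_pos (by linarith : 0 < 1 + w), div_le_iff₀ (by linarith)]
    have := le_abs_self B
    nlinarith [abs_nonneg B]
  have h6 := neg_abs_le ((Gc (w : ℂ)).re / (1 + w))
  have h7 : 0 < 1 / (1 + w) := one_div_pos.2 (by linarith)
  linarith

/-- **Oscillation**, part 2. -/
theorem osc_half {b : ℝ} (hb : 1 / 2 < b) (y₀ : ℝ) : ∃ y : ℝ, y₀ ≤ y ∧ y ^ (-b) < JJ y := by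
  by_contra hcon
  push Not at hcon
  obtain ⟨b', hb1, hb2⟩ := exists_between hb
  have hb0 : 0 < b' := by linarith
  obtain ⟨C, hC, hP⟩ := Pf_le_rpow (b := b) (b' := b') (y₀ := max y₀ 2) hb0 hb2
    (le_max_right _ _) (fun y hy => hcon y ((le_max_left _ _).trans hy))
  obtain ⟨hf0, hL, hg⟩ := ff_landau (a := -(1 / 2)) hb0 (by linarith) le_rfl hP
  obtain ⟨c, B, hc, hA⟩ := Ar_lower
  -- for `-1/2 < w < 0` the transform is nonnegative
  have key : ∀ w : ℝ, -(1 / 2) < w → w ≤ -(1 / 4) → c / (w + 1 / 2) ≤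
      B + Ar 0 + C / (b' - 1 / 2) := by
    intro w hw hw0
    have h1 : 0 ≤ lap (ff C b') w := lap_nonneg hf0 w
    rw [hg w hw, dslope_of_ne _ (by linarith : w ≠ 0), slope_def_field, sub_zero] at h1
    have h2 := hA w hw (by linarith)
    have h3 : C / (b' + w) ≤ C / (b' - 1 / 2) :=
      div_le_div_of_nonneg_left hC.le (by linarith) (by linarith)
    have h4 : (Ar w - Ar 0) / w * (-w) = -(Ar w - Ar 0) := by
      have : w ≠ 0 := by linarith
      field_simp
    have h5 : 0 ≤ (C / (b' + w) + (Ar w - Ar 0) / w) * (-w) := mul_nonneg h1 (by linarith)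
    rw [add_mul, h4] at h5
    have h6 : 0 < C / (b' + w) := div_pos hC (by linarith)
    nlinarith
  set M := B + Ar 0 + C / (b' - 1 / 2) with hM
  have hM0 : 0 < M := by
    have h1 := key (-(1 / 4)) (by norm_num) le_rfl
    have h2 : 0 < c / (-(1 / 4) + 1 / 2) := div_pos hc (by norm_num)
    linarith
  set ε := min (1 / 4) (c / (2 * M)) with hε
  have hε0 : 0 < ε := lt_min (by norm_num) (by positivity)
  have h1 := key (-(1 / 2) + ε) (by linarith) (by
    have := min_le_left (1 / 4 : ℝ) (c / (2 * M))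
    linarith)
  have h2 : -(1 / 2) + ε + 1 / 2 = ε := by ring
  rw [h2, div_le_iff₀ hε0] at h1
  have h3 : M * ε ≤ M * (c / (2 * M)) :=
    mul_le_mul_of_nonneg_left (min_le_right _ _) hM0.le
  have h4 : M * (c / (2 * M)) = c / 2 := by
    field_simp
  linarith

end Pool.Agent.U334.RN
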