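import Mathlib
import Pool.Agent.U334.RN.Low3
import Pool.Agent.U334.RN.Osc4
import Pool.Agent.W190.A17

set_option autoImplicit false

/-! The number of failures of the inequalities of Nicolas and Robin and the zeros of zeta. -/

namespace Pool.Agent.U334.RN

open Real Finset MeasureTheory Filter Topology Chebyshev

lemma theta_of_free {ϑ θ' : ℝ} (h0 : 1 / 2 ≤ ϑ) (hz : ∀ s : ℂ, ϑ < s.re → riemannZeta s ≠ 0)
    (h1 : ϑ < θ') (h2 : θ' ≤ 1) :
    ∃ C : ℝ, 0 < C ∧ ∀ t : ℝ, 2 ≤ t → |theta t - t| ≤ C * t ^ θ' := by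
  obtain ⟨C, hC, h⟩ := Pool.Agent.W190.psi_of_free ϑ h0 hz θ' h1 h2
  obtain ⟨C', hC'⟩ := psi_sub_theta_le_mul_sqrt
  refine ⟨C + |C'|, by positivity, fun t ht => ?_⟩
  have h3 := h t (by linarith)
  have h4 := hC' t
  have h5 := theta_le_psi t
  have h6 : √t ≤ t ^ θ' := by
    rw [Real.sqrt_eq_rpow]
    exact Real.rpow_le_rpow_of_exponent_le (by linarith) (by linarith)
  have h7 : C' * √t ≤ |C'| * t ^ θ' := by
    calc C' * √t ≤ |C'| * √t := mul_le_mul_of_nonneg_right (le_abs_self _) (by positivity)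
      _ ≤ |C'| * t ^ θ' := mul_le_mul_of_nonneg_left h6 (abs_nonneg _)
  have h8 : theta t - t = (psi t - t) - (psi t - theta t) := by ring
  rw [h8]
  calc |(psi t - t) - (psi t - theta t)| ≤ |psi t - t| + |psi t - theta t| := abs_sub _ _
    _ ≤ C * t ^ θ' + |C'| * t ^ θ' := by
        refine add_le_add h3 ?_
        rw [abs_of_nonneg (by linarith)]
        linarith
    _ = _ := by ring

/-- the case of a power saving in the prime number theorem -/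
theorem many_A {θ' b C : ℝ} (h0 : 0 ≤ θ') (hb : 0 < b) (hb1 : b < 1) (hϑ : θ' < 1 - b / 2)
    (h : ∀ t : ℝ, 2 ≤ t → |theta t - t| ≤ C * t ^ θ')
    (hJ : ∀ y₀ : ℝ, ∃ y, y₀ ≤ y ∧ y ^ (-b) < JJ y) {α : ℝ} (hα : 0 < α) (hαβ : α < 1 - b / 2) :
    (∀ x₀ : ℝ, ∃ x, x₀ ≤ x ∧ Real.exp ((Real.log x) ^ α) ≤ (NN x : ℝ)) ∧
    (b < 1 / 2 → ∀ x₀ : ℝ, ∃ x, x₀ ≤ x ∧ Real.exp ((Real.log x) ^ α) ≤ (VV x : ℝ)) := by
  have hC : 0 ≤ C := by
    have h1 := (abs_nonneg _).trans (h 2 le_rfl)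
    have h2 : (0 : ℝ) < 2 ^ θ' := by positivity
    exact nonneg_of_mul_nonneg_left h1 h2
  have hm := many (b := b) (β := 1 - b / 2) hb hb1 (by linarith) (by linarith)
    (δ := fun y => y ^ (-(b / 2))) ?_ hJ hα hαβ
  · refine ⟨hm.1, fun hb2 => hm.2 hb2 ?_⟩
    filter_upwards [ev_small (K := 1) (a := 5 / 8) (b := 1 - b / 2) (c := 1 / 2) zero_le_one
      (by linarith) (by norm_num), eventually_ge_atTop 1] with y hy hy1 C' hC'
    have hy0 : 0 < y := by linarith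
    have e1 : y ^ (-(b / 2)) * y = y ^ (1 - b / 2) := by
      rw [← Real.rpow_add_one hy0.ne']
      congr 1
      ring
    have e2 : y ^ (1 / 8 : ℝ) * √y = y ^ (5 / 8 : ℝ) := by
      rw [Real.sqrt_eq_rpow, ← Real.rpow_add hy0]
      norm_num
    rw [e1]
    have e3 : C' * √y ≤ y ^ (1 / 8 : ℝ) * √y := mul_le_mul_of_nonneg_right hC' (by positivity)
    linarith
  · have t1 : Tendsto (fun y : ℝ => y ^ (-(b / 2))) atTop (𝓝 0) :=
      tendsto_rpow_neg_atTop (by linarith)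
    have t2 : ∀ᶠ y : ℝ in atTop, y ^ (-(b / 2)) ≤ 1 / 4 :=
      (t1.eventually_lt_const (by norm_num : (0 : ℝ) < 1 / 4)).mono fun y hy => hy.le
    filter_upwards [t2, ev_small (K := C) (a := θ') (b := 1 - b / 2) (c := 1 / 4) hC hϑ
      (by norm_num), eventually_ge_atTop 4] with y hy1 hy2 hy4
    have hy0 : 0 < y := by linarith
    have e1 : y ^ (-(b / 2)) * y = y ^ (1 - b / 2) := by
      rw [← Real.rpow_add_one hy0.ne']
      congr 1
      ring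
    have e2 : 0 < y ^ (-(b / 2)) := by positivity
    rw [e1]
    refine ⟨e2, hy1, Real.one_le_rpow (by linarith) (by linarith), ?_, ?_, ?_, ?_⟩
    · have := h y (by linarith)
      linarith
    · have h3 : 2 ≤ (1 - y ^ (-(b / 2))) * y := by nlinarith
      have h4 := h _ h3
      have h5 : ((1 - y ^ (-(b / 2))) * y) ^ θ' ≤ y ^ θ' :=
        Real.rpow_le_rpow (by linarith) (by nlinarith) h0
      have h6 := mul_le_mul_of_nonneg_left h5 hC
      linarith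
    · rw [← Real.rpow_add hy0]
      have e3 : y * y ^ (-b) = y ^ (1 + -b) := by
        rw [Real.rpow_add hy0, Real.rpow_one]
      rw [e3]
      refine le_of_eq ?_
      congr 1
      ring
    · have : 0 ≤ y ^ (1 - b / 2) := by positivity
      linarith

/-- the case without assumption on the prime number theorem -/
theorem many_B {b : ℝ} (hb : 0 < b) (hb1 : b < 1)
    (hJ : ∀ y₀ : ℝ, ∃ y, y₀ ≤ y ∧ y ^ (-b) < JJ y) {α : ℝ} (hα : 0 < α) (hαβ : α < 1 - b) :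
    (b < 1 / 2 → ∀ x₀ : ℝ, ∃ x, x₀ ≤ x ∧ Real.exp ((Real.log x) ^ α) ≤ (VV x : ℝ)) := by
  have hm := many (b := b) (β := 1 - b) hb hb1 (by linarith) (by linarith)
    (δ := fun _ => 1 / 4) ?_ hJ hα hαβ
  · refine fun hb2 => hm.2 hb2 ?_
    filter_upwards [ev_small (K := 1) (a := 5 / 8) (b := 1) (c := 1 / 8) zero_le_one
      (by norm_num) (by norm_num), eventually_ge_atTop 1] with y hy hy1 C' hC'
    have hy0 : 0 < y := by linarith
    have e2 : y ^ (1 / 8 : ℝ) * √y = y ^ (5 / 8 : ℝ) := by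
      rw [Real.sqrt_eq_rpow, ← Real.rpow_add hy0]
      norm_num
    have e3 : C' * √y ≤ y ^ (1 / 8 : ℝ) * √y := mul_le_mul_of_nonneg_right hC' (by positivity)
    rw [Real.rpow_one] at hy
    linarith
  · obtain ⟨C, hC, h⟩ := theta_real 1
    have t1 : ∀ᶠ y : ℝ in atTop, 16 * C ≤ Real.log y :=
      Real.tendsto_log_atTop.eventually_ge_atTop _
    have t2 : ∀ᶠ y : ℝ in atTop, 16 * C ≤ Real.log (3 / 4 * y) :=
      (Real.tendsto_log_atTop.comp (tendsto_id.const_mul_atTop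
        (by norm_num : (0 : ℝ) < 3 / 4))).eventually_ge_atTop _
    filter_upwards [t1, t2, eventually_ge_atTop 4] with y h1 h2 hy4
    have hy0 : 0 < y := by linarith
    refine ⟨by norm_num, le_rfl, by linarith, ?_, ?_, ?_, ?_⟩
    · have h3 := h y (by linarith)
      rw [pow_one] at h3
      refine h3.trans ?_
      have hL : 0 < Real.log y := Real.log_pos (by linarith)
      rw [← mul_div_assoc, div_le_iff₀ hL]
      nlinarith
    · have e : (1 - 1 / 4 : ℝ) * y = 3 / 4 * y := by ring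
      rw [e]
      have h3 := h (3 / 4 * y) (by linarith)
      rw [pow_one] at h3
      refine h3.trans ?_
      have hL : 0 < Real.log (3 / 4 * y) := Real.log_pos (by linarith)
      rw [← mul_div_assoc, div_le_iff₀ hL]
      nlinarith
    · have e3 : y * y ^ (-b) = y ^ (1 - b) := by
        rw [sub_eq_add_neg, Real.rpow_add hy0, Real.rpow_one]
      rw [e3]
      have : 0 ≤ y ^ (1 - b) := by positivity
      linarith
    · have e3 : y ^ (1 - b) ≤ y := by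
        calc y ^ (1 - b) ≤ y ^ (1 : ℝ) :=
              Real.rpow_le_rpow_of_exponent_le (by linarith) (by linarith)
          _ = y := Real.rpow_one y
      linarith

/-- a zero to the right of `ϑ` gives many failures of Robin's inequality -/
theorem zero_many {ϑ : ℝ} (hϑ : 1 / 2 ≤ ϑ) {ρ : ℂ} (hρ : riemannZeta ρ = 0) (hρϑ : ϑ < ρ.re) :
    ∃ α : ℝ, (1 + ϑ) / 2 < α ∧
      ∀ x₀ : ℝ, ∃ x, x₀ ≤ x ∧ Real.exp ((Real.log x) ^ α) ≤ (VV x : ℝ) := by
  set Z : Set ℝ := {β | ∃ ρ : ℂ, riemannZeta ρ = 0 ∧ ρ.re = β} with hZ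
  have hZb : BddAbove Z := ⟨1, by
    rintro β ⟨ρ, h1, rfl⟩
    by_contra hc
    exact riemannZeta_ne_zero_of_one_le_re (not_le.1 hc).le h1⟩
  have hZn : Z.Nonempty := ⟨ρ.re, ρ, hρ, rfl⟩
  set Θ := sSup Z with hΘ
  have hΘ1 : Θ ≤ 1 := csSup_le hZn (by
    rintro β ⟨ρ, h1, rfl⟩
    by_contra hc
    exact riemannZeta_ne_zero_of_one_le_re (not_le.1 hc).le h1)
  have hϑΘ : ϑ < Θ := lt_of_lt_of_le hρϑ (le_csSup hZb ⟨ρ, hρ, rfl⟩)
  have hex : ∀ c, c < Θ → ∃ ρ : ℂ, riemannZeta ρ = 0 ∧ c < ρ.re := fun c hc => by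
    obtain ⟨β, ⟨ρ, h1, rfl⟩, h2⟩ := exists_lt_of_lt_csSup hZn hc
    exact ⟨ρ, h1, h2⟩
  rcases lt_or_eq_of_le hΘ1 with h1 | h1
  · -- `Θ < 1`
    obtain ⟨b, hb1, hb2⟩ : ∃ b, 1 - Θ < b ∧ b < min (min (1 - ϑ) (2 * (1 - Θ))) (1 / 2) :=
      exists_between (lt_min (lt_min (by linarith) (by linarith)) (by linarith))
    have hb3 : b < 1 - ϑ := lt_of_lt_of_le hb2 ((min_le_left _ _).trans (min_le_left _ _))
    have hb4 : b < 2 * (1 - Θ) := lt_of_lt_of_le hb2 ((min_le_left _ _).trans (min_le_right _ _))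
    have hb5 : b < 1 / 2 := lt_of_lt_of_le hb2 (min_le_right _ _)
    obtain ⟨ρ', hρ', hρb⟩ := hex (1 - b) (by linarith)
    obtain ⟨θ', h2, h3⟩ : ∃ θ', Θ < θ' ∧ θ' < 1 - b / 2 := exists_between (by linarith)
    obtain ⟨C, hC, hT⟩ := theta_of_free (ϑ := Θ) (θ' := θ') (by linarith)
      (fun s hs h0 => absurd (le_csSup hZb ⟨s, h0, rfl⟩) (not_le.2 hs)) h2 (by linarith)
    obtain ⟨α, hα1, hα2⟩ : ∃ α, (1 + ϑ) / 2 < α ∧ α < 1 - b / 2 := exists_between (by linarith)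
    refine ⟨α, hα1, ?_⟩
    exact (many_A (by linarith) (by linarith) (by linarith) h3 hT
      (osc_zero hρ' (by linarith) (by linarith)) (by linarith) hα2).2 hb5
  · -- `Θ = 1`
    obtain ⟨b, hb1, hb2⟩ : ∃ b, 0 < b ∧ b < min ((1 - ϑ) / 2) (1 / 2) :=
      exists_between (lt_min (by linarith) (by norm_num))
    have hb3 : b < (1 - ϑ) / 2 := lt_of_lt_of_le hb2 (min_le_left _ _)
    have hb5 : b < 1 / 2 := lt_of_lt_of_le hb2 (min_le_right _ _)
    obtain ⟨ρ', hρ', hρb⟩ := hex (1 - b) (by linarith)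
    obtain ⟨α, hα1, hα2⟩ : ∃ α, (1 + ϑ) / 2 < α ∧ α < 1 - b := exists_between (by linarith)
    refine ⟨α, hα1, ?_⟩
    exact many_B hb1 (by linarith) (osc_zero hρ' (by linarith) (by linarith)) (by linarith) hα2 hb5

/-- the upper bound -/
theorem NN_of_free {ϑ : ℝ} (h0 : 1 / 2 ≤ ϑ) (h1 : ϑ < 1)
    (hz : ∀ s : ℂ, ϑ < s.re → riemannZeta s ≠ 0) {ε : ℝ} (hε : 0 < ε) :
    ∀ᶠ x : ℝ in atTop, (NN x : ℝ) ≤ Real.exp ((Real.log x) ^ ((1 + ϑ) / 2 + ε)) := by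
  obtain ⟨θ', h2, h3⟩ : ∃ θ', ϑ < θ' ∧ θ' < min (ϑ + ε) 1 :=
    exists_between (lt_min (by linarith) h1)
  have h4 : θ' < ϑ + ε := lt_of_lt_of_le h3 (min_le_left _ _)
  have h5 : θ' < 1 := lt_of_lt_of_le h3 (min_le_right _ _)
  obtain ⟨C, hC, hT⟩ := theta_of_free h0 hz h2 h5.le
  filter_upwards [NN_le_exp hC.le (by linarith) h5 (half_pos hε) hT,
    Real.tendsto_log_atTop.eventually_ge_atTop 1] with x hx hx1
  refine hx.trans (Real.exp_le_exp.2 ?_)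
  exact Real.rpow_le_rpow_of_exponent_le hx1 (by linarith)

/-- eventual upper bounds with smaller exponents exclude frequent lower bounds -/
lemma exclude {V : ℝ → ℕ} {α β : ℝ} (hαβ : β < α)
    (h : ∀ᶠ x : ℝ in atTop, (V x : ℝ) ≤ Real.exp ((Real.log x) ^ β))
    (hl : ∀ x₀ : ℝ, ∃ x, x₀ ≤ x ∧ Real.exp ((Real.log x) ^ α) ≤ (V x : ℝ)) : False := by
  obtain ⟨Y, hY⟩ := eventually_atTop.1 (h.and (Real.tendsto_log_atTop.eventually_gt_atTop 1))
  obtain ⟨x, hx, hx2⟩ := hl Y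
  obtain ⟨h1, h2⟩ := hY x hx
  have h3 : (Real.log x) ^ β < (Real.log x) ^ α := Real.rpow_lt_rpow_of_exponent_lt h2 hαβ
  have h4 := Real.exp_lt_exp.2 h3
  linarith

theorem tfae {ϑ : ℝ} (h0 : 1 / 2 ≤ ϑ) (h1 : ϑ < 1) : List.TFAE [
    ∀ s : ℂ, ϑ < s.re → riemannZeta s ≠ 0,
    ∀ ε : ℝ, 0 < ε → ∀ᶠ x : ℝ in atTop, (NN x : ℝ) ≤ Real.exp ((Real.log x) ^ ((1 + ϑ) / 2 + ε)),
    ∀ ε : ℝ, 0 < ε → ∀ᶠ x : ℝ in atTop,
      (VV x : ℝ) ≤ Real.exp ((Real.log x) ^ ((1 + ϑ) / 2 + ε))] := by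
  tfae_have 1 → 2 := fun h ε hε => NN_of_free h0 h1 h hε
  tfae_have 2 → 3 := fun h ε hε => by
    filter_upwards [h ε hε] with x hx
    exact le_trans (by exact_mod_cast VV_le_NN x) hx
  tfae_have 3 → 1 := fun h s hs hz => by
    obtain ⟨α, hα, hl⟩ := zero_many h0 hz hs
    refine exclude (V := VV) (α := α) (β := (1 + ϑ) / 2 + (α - (1 + ϑ) / 2) / 2) (by linarith)
      (h _ (by linarith)) hl
  tfae_finish

theorem nicolas_lower {ε : ℝ} (hε : 0 < ε) :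
    ∀ x₀ : ℝ, ∃ x, x₀ ≤ x ∧ Real.exp ((Real.log x) ^ (3 / 4 - ε)) ≤ (NN x : ℝ) := by
  have key : ∃ α : ℝ, 3 / 4 - ε ≤ α ∧
      ∀ x₀ : ℝ, ∃ x, x₀ ≤ x ∧ Real.exp ((Real.log x) ^ α) ≤ (NN x : ℝ) := by
    by_cases hz : ∀ s : ℂ, 1 / 2 < s.re → riemannZeta s ≠ 0
    · obtain ⟨b, hb1, hb2⟩ : ∃ b : ℝ, 1 / 2 < b ∧ b < min 1 (1 / 2 + ε) :=
        exists_between (lt_min (by norm_num) (by linarith))
      have hb3 : b < 1 := lt_of_lt_of_le hb2 (min_le_left _ _)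
      have hb4 : b < 1 / 2 + ε := lt_of_lt_of_le hb2 (min_le_right _ _)
      obtain ⟨θ', h2, h3⟩ : ∃ θ' : ℝ, 1 / 2 < θ' ∧ θ' < 1 - b / 2 := exists_between (by linarith)
      obtain ⟨C, hC, hT⟩ := theta_of_free le_rfl hz h2 (by linarith)
      obtain ⟨α, hα1, hα2⟩ : ∃ α, max (3 / 4 - ε) (1 / 8) < α ∧ α < 1 - b / 2 :=
        exists_between (max_lt (by linarith) (by linarith))
      have hα3 := (le_max_left (3 / 4 - ε) (1 / 8)).trans hα1.le
      have hα4 : 0 < α := by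
        have := (le_max_right (3 / 4 - ε) (1 / 8)).trans hα1.le
        linarith
      exact ⟨α, hα3, (many_A (by linarith) (by linarith) hb3 h3 hT (osc_half hb1) hα4 hα2).1⟩
    · push Not at hz
      obtain ⟨s, hs, hs0⟩ := hz
      obtain ⟨α, hα, hl⟩ := zero_many le_rfl hs0 hs
      refine ⟨α, by linarith, fun x₀ => ?_⟩
      obtain ⟨x, hx, hx2⟩ := hl x₀
      exact ⟨x, hx, hx2.trans (by exact_mod_cast VV_le_NN x)⟩
  obtain ⟨α, hα, hl⟩ := key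
  intro x₀
  obtain ⟨x, hx, hx2⟩ := hl (max x₀ (Real.exp 1))
  refine ⟨x, (le_max_left _ _).trans hx, le_trans (Real.exp_le_exp.2 ?_) hx2⟩
  have hx1 : 1 ≤ Real.log x := by
    have h1 : Real.exp 1 ≤ x := (le_max_right _ _).trans hx
    rw [Real.le_log_iff_exp_le (lt_of_lt_of_le (Real.exp_pos _) h1)]
    exact h1
  exact Real.rpow_le_rpow_of_exponent_le hx1 hα

lemma iff_V {ϑ : ℝ} (h0 : 1 / 2 ≤ ϑ) (h1 : ϑ < 1) :
    (∀ s : ℂ, ϑ < s.re → riemannZeta s ≠ 0) ↔ ∀ ε : ℝ, 0 < ε → ∀ᶠ x : ℝ in atTop,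
      (VV x : ℝ) ≤ Real.exp ((Real.log x) ^ ((1 + ϑ) / 2 + ε)) := (tfae h0 h1).out 0 2

theorem half_plane :
    (∃ σ₀ : ℝ, 1 / 2 < σ₀ ∧ σ₀ < 1 ∧ ∀ s : ℂ, σ₀ ≤ s.re → riemannZeta s ≠ 0) ↔
      ∃ δ : ℝ, 0 < δ ∧ ∀ᶠ x : ℝ in atTop, (VV x : ℝ) ≤ Real.exp ((Real.log x) ^ (1 - δ)) := by
  constructor
  · rintro ⟨σ, h1, h2, h⟩
    refine ⟨(1 - σ) / 4, by linarith, ?_⟩
    have h3 := (iff_V h1.le h2).1 (fun s hs => h s hs.le) ((1 - σ) / 4) (by linarith)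
    refine h3.mono fun x hx => hx.trans (le_of_eq ?_)
    congr 2
    ring
  · rintro ⟨δ, hδ, h⟩
    set ϑ := max (1 / 2) (1 - 2 * δ) with hϑ
    have h1 : 1 / 2 ≤ ϑ := le_max_left _ _
    have h2 : 1 - 2 * δ ≤ ϑ := le_max_right _ _
    have h3 : ϑ < 1 := max_lt (by norm_num) (by linarith)
    have h4 := (iff_V h1 h3).2 (fun ε hε => by
      filter_upwards [h, Real.tendsto_log_atTop.eventually_ge_atTop 1] with x hx hx1
      refine hx.trans (Real.exp_le_exp.2 ?_)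
      exact Real.rpow_le_rpow_of_exponent_le hx1 (by linarith))
    exact ⟨(1 + ϑ) / 2, by linarith, by linarith, fun s hs => h4 s (by linarith)⟩

end Pool.Agent.U334.RN
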